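import Mathlib

set_option linter.unusedSectionVars false

/-!
# Idempotents of a finite-dimensional algebra and left ideals

`d S g` is the dimension of `g S` for a left ideal `S` and an idempotent `g`. If every left
ideal is generated by an idempotent, then two idempotents `p`, `q` with `d S p = d S q` for all
left ideals `S` are equivalent (their images are isomorphic).
-/

namespace Pool.Agent.TH26.Orl

open Module

variable {E : Type} [Ring E] [Algebra ℚ E]

/-- Equivalence of idempotents: the objects cut out by `p` and `q` are isomorphic. -/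
def Equ (p q : E) : Prop :=
  ∃ u v : E, q * u * p = u ∧ p * v * q = v ∧ v * u = p ∧ u * v = q

theorem Equ.symm {p q : E} (h : Equ p q) : Equ q p := by
  obtain ⟨u, v, h1, h2, h3, h4⟩ := h
  exact ⟨v, u, h2, h1, h4, h3⟩

theorem Equ.refl {p : E} (h : p * p = p) : Equ p p :=
  ⟨p, p, by rw [h, h], by rw [h, h], h, h⟩

/-- The part `g S` of a left ideal `S` cut out by an idempotent `g`, as a rational subspace. -/
def cut (S : Submodule E E) (g : E) : Submodule ℚ E where
  carrier := {x | x ∈ S ∧ g * x = x}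
  add_mem' := by
    rintro a b ⟨ha, ha'⟩ ⟨hb, hb'⟩
    exact ⟨S.add_mem ha hb, by rw [mul_add, ha', hb']⟩
  zero_mem' := ⟨S.zero_mem, mul_zero _⟩
  smul_mem' := by
    rintro c a ⟨ha, ha'⟩
    exact ⟨by
      have := S.smul_mem (algebraMap ℚ E c) ha
      rwa [smul_eq_mul, ← Algebra.smul_def] at this, by rw [mul_smul_comm, ha']⟩

theorem mem_cut {S : Submodule E E} {g x : E} : x ∈ cut S g ↔ x ∈ S ∧ g * x = x := Iff.rfl

/-- The dimension of `g S`. -/
noncomputable def d (S : Submodule E E) (g : E) : ℕ := finrank ℚ (cut S g)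

theorem lmul_mem (S : Submodule E E) (a : E) {x : E} (hx : x ∈ S) : a * x ∈ S := by
  simpa using S.smul_mem a hx

theorem smulQ_mem (S : Submodule E E) (a : ℚ) {x : E} (hx : x ∈ S) : a • x ∈ S := by
  have := S.smul_mem (algebraMap ℚ E a) hx
  rwa [smul_eq_mul, ← Algebra.smul_def] at this

variable [Module.Finite ℚ E]

theorem d_zero (S : Submodule E E) : d S (0 : E) = 0 := by
  unfold d
  have : cut S (0 : E) = ⊥ := by
    rw [eq_bot_iff]
    rintro x ⟨_, hx⟩
    rw [zero_mul] at hx
    exact hx.symm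
  rw [this]; simp

theorem d_add (S : Submodule E E) {g h : E} (hg : g * g = g) (hh : h * h = h) (h1 : g * h = 0)
    (h2 : h * g = 0) : d S (g + h) = d S g + d S h := by
  unfold d
  have hsup : cut S (g + h) = cut S g ⊔ cut S h := by
    apply le_antisymm
    · rintro x ⟨hx, hx'⟩
      rw [Submodule.mem_sup]
      refine ⟨g * x, ⟨lmul_mem S g hx, by rw [← mul_assoc, hg]⟩, h * x,
        ⟨lmul_mem S h hx, by rw [← mul_assoc, hh]⟩, by rw [← add_mul, hx']⟩
    · apply sup_le
      · rintro x ⟨hx, hx'⟩
        refine ⟨hx, ?_⟩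
        rw [add_mul, hx', ← hx', ← mul_assoc, h2, zero_mul, add_zero]
      · rintro x ⟨hx, hx'⟩
        refine ⟨hx, ?_⟩
        rw [add_mul, hx']
        have : g * x = 0 := by rw [← hx', ← mul_assoc, h1, zero_mul]
        rw [this, zero_add]
  have hinf : cut S g ⊓ cut S h = ⊥ := by
    rw [eq_bot_iff]
    rintro x ⟨⟨_, hx⟩, ⟨_, hx'⟩⟩
    have : x = 0 := by rw [← hx, ← hx', ← mul_assoc, h1, zero_mul]
    exact this
  have := Submodule.finrank_sup_add_finrank_inf_eq (cut S g) (cut S h)
  rw [hinf, finrank_bot, add_zero] at this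
  rw [hsup, this]

theorem d_equ (S : Submodule E E) {p q : E} (h : Equ p q) : d S p = d S q := by
  obtain ⟨u, v, h1, h2, h3, h4⟩ := h
  unfold d
  have hl : ∀ x : cut S p, v * (u * x.1) = x.1 := fun x => by
    rw [← mul_assoc, h3]; exact x.2.2
  have hr : ∀ x : cut S q, u * (v * x.1) = x.1 := fun x => by
    rw [← mul_assoc, h4]; exact x.2.2
  refine LinearEquiv.finrank_eq
    { toFun := fun x => ⟨u * x.1, lmul_mem S u x.2.1, by rw [← h4, mul_assoc, hl x]⟩
      invFun := fun x => ⟨v * x.1, lmul_mem S v x.2.1, by rw [← h3, mul_assoc, hr x]⟩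
      map_add' := ?_
      map_smul' := ?_
      left_inv := fun x => Subtype.ext (hl x)
      right_inv := fun x => Subtype.ext (hr x) }
  · intro x y
    apply Subtype.ext
    change u * (x.1 + y.1) = u * x.1 + u * y.1
    rw [mul_add]
  · intro c x
    apply Subtype.ext
    change u * (c • x.1) = c • (u * x.1)
    rw [mul_smul_comm]

theorem d_sub (S : Submodule E E) {p p0 : E} (hp : p * p = p) (hp0 : p0 * p0 = p0)
    (h1 : p * p0 = p0) (h2 : p0 * p = p0) : d S p = d S (p - p0) + d S p0 := by
  have := d_add S (g := p - p0) (h := p0)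
    (by rw [sub_mul, mul_sub, mul_sub, hp, h1, h2, hp0]; abel) hp0
    (by rw [sub_mul, h1, hp0, sub_self]) (by rw [mul_sub, h2, hp0, sub_self])
  rw [sub_add_cancel] at this
  exact this

/-- A nonzero idempotent is seen by some minimal left ideal. -/
theorem exists_atom (hc : ∀ S : Submodule E E, ∃ f ∈ S, ∀ x ∈ S, x * f = x) {p : E}
    (hp0 : p ≠ 0) (hp : p * p = p) :
    ∃ (S : Submodule E E) (x : E), x ∈ cut S p ∧ x ≠ 0 ∧ IsAtom S := by
  have : IsArtinian E E := by
    have : IsArtinian ℚ E := inferInstance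
    exact isArtinian_of_tower ℚ this
  let P : Submodule E E :=
    { carrier := {x | x * p = x}
      add_mem' := by
        intro a b ha hb
        change (a + b) * p = a + b
        rw [add_mul, ha, hb]
      zero_mem' := zero_mul _
      smul_mem' := by
        intro c x hx
        change (c * x) * p = c * x
        rw [mul_assoc, hx] }
  have hP : P ≠ ⊥ := by
    intro h
    apply hp0
    have : p ∈ P := hp
    rw [h] at this
    exact this
  obtain ⟨S, hS, hSP⟩ := (IsAtomic.eq_bot_or_exists_atom_le P).resolve_left hP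
  obtain ⟨f, hf, hff⟩ := hc S
  refine ⟨S, p * f, ⟨lmul_mem S p hf, by rw [← mul_assoc, hp]⟩, ?_, hS⟩
  intro h
  have hfp : f * p = f := hSP hf
  have hf0 : f = 0 := by
    have h1 : f * (p * f) = f := by rw [← mul_assoc, hfp, hff f hf]
    rw [h, mul_zero] at h1
    exact h1.symm
  apply hS.1
  rw [eq_bot_iff]
  intro x hx
  have := hff x hx
  rw [hf0, mul_zero] at this
  exact this.symm

theorem atom_gen {S : Submodule E E} (hS : IsAtom S) {x y : E} (hx : x ∈ S) (hx0 : x ≠ 0)
    (hy : y ∈ S) : ∃ a, a * x = y := by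
  have h1 : Submodule.span E {x} ≤ S := by
    rw [Submodule.span_le]
    simpa using hx
  have h2 : Submodule.span E {x} ≠ ⊥ := by
    rw [Ne, Submodule.span_singleton_eq_bot]
    exact hx0
  have h3 : Submodule.span E {x} = S := by
    rcases hS.le_iff.mp h1 with h | h
    · exact absurd h h2
    · exact h
  rw [← h3, Submodule.mem_span_singleton] at hy
  obtain ⟨a, ha⟩ := hy
  exact ⟨a, ha⟩

theorem d_eq_zero_iff {S : Submodule E E} {p : E} : d S p = 0 ↔ ∀ x ∈ cut S p, x = 0 := by
  unfold d
  rw [Submodule.finrank_eq_zero, eq_bot_iff]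
  rfl

/-- Idempotents with the same dimensions on all left ideals are equivalent. -/
theorem equ_of_d (hc : ∀ S : Submodule E E, ∃ f ∈ S, ∀ x ∈ S, x * f = x) :
    ∀ (N : ℕ) (p q : E), d ⊤ p ≤ N → p * p = p → q * q = q →
      (∀ S : Submodule E E, d S p = d S q) → Equ p q := by
  intro N
  induction N with
  | zero =>
    intro p q hN hp hq hd
    have hp0 : p = 0 := by
      have h := Nat.le_zero.mp hN
      rw [d_eq_zero_iff] at h
      exact h p ⟨Submodule.mem_top, hp⟩
    have hq0 : q = 0 := by
      have h := Nat.le_zero.mp hN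
      rw [hd ⊤, d_eq_zero_iff] at h
      exact h q ⟨Submodule.mem_top, hq⟩
    rw [hp0, hq0]
    exact Equ.refl (zero_mul _)
  | succ N ih =>
    intro p q hN hp hq hd
    by_cases hp0 : p = 0
    · have h : d ⊤ p = 0 := by rw [hp0, d_zero]
      exact ih p q (by omega) hp hq hd
    obtain ⟨S, x, hx, hx0, hS⟩ := exists_atom hc hp0 hp
    have hq1 : d S q ≠ 0 := by
      rw [← hd S]
      intro h
      rw [d_eq_zero_iff] at h
      exact hx0 (h x hx)
    rw [Ne, d_eq_zero_iff] at hq1
    push Not at hq1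
    obtain ⟨y, hy, hy0⟩ := hq1
    obtain ⟨f, hf, hff⟩ := hc S
    obtain ⟨a, ha⟩ := atom_gen hS hx.1 hx0 hf
    obtain ⟨b, hb⟩ := atom_gen hS hy.1 hy0 hf
    have hfi : f * f = f := hff f hf
    have hxf : x * f = x := hff x hx.1
    have hyf : y * f = y := hff y hy.1
    have hpx : p * x = x := hx.2
    have hqy : q * y = y := hy.2
    -- `a' = f a p`, `b' = f b q`
    obtain ⟨a', ha'1, ha'2, ha'3⟩ : ∃ a', a' * x = f ∧ f * a' = a' ∧ a' * p = a' :=
      ⟨f * a * p, by rw [mul_assoc, hpx, mul_assoc, ha, hfi], by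
        rw [← mul_assoc, ← mul_assoc, hfi], by rw [mul_assoc, hp]⟩
    obtain ⟨b', hb'1, hb'2, hb'3⟩ : ∃ b', b' * y = f ∧ f * b' = b' ∧ b' * q = b' :=
      ⟨f * b * q, by rw [mul_assoc, hqy, mul_assoc, hb, hfi], by
        rw [← mul_assoc, ← mul_assoc, hfi], by rw [mul_assoc, hq]⟩
    have hp0i : (x * a') * (x * a') = x * a' := by
      rw [mul_assoc, ← mul_assoc a', ha'1, ha'2]
    have hq0i : (y * b') * (y * b') = y * b' := by
      rw [mul_assoc, ← mul_assoc b', hb'1, hb'2]
    have hpp0 : p * (x * a') = x * a' := by rw [← mul_assoc, hpx]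
    have hp0p : (x * a') * p = x * a' := by rw [mul_assoc, ha'3]
    have hqq0 : q * (y * b') = y * b' := by rw [← mul_assoc, hqy]
    have hq0q : (y * b') * q = y * b' := by rw [mul_assoc, hb'3]
    have hvu0 : (x * b') * (y * a') = x * a' := by
      rw [mul_assoc, ← mul_assoc b', hb'1, ha'2]
    have huv0 : (y * a') * (x * b') = y * b' := by
      rw [mul_assoc, ← mul_assoc a', ha'1, hb'2]
    have hE0 : Equ (x * a') (y * b') := by
      refine ⟨y * a', x * b', ?_, ?_, hvu0, huv0⟩
      · calc y * b' * (y * a') * (x * a') = y * (b' * y) * (a' * x) * a' := by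
              simp only [mul_assoc]
          _ = y * a' := by rw [hb'1, ha'1, hyf, mul_assoc, ha'2]
      · calc x * a' * (x * b') * (y * b') = x * (a' * x) * (b' * y) * b' := by
              simp only [mul_assoc]
          _ = x * b' := by rw [ha'1, hb'1, hxf, mul_assoc, hb'2]
    have hd1 : ∀ T : Submodule E E, d T (p - x * a') = d T (q - y * b') := by
      intro T
      have e1 := d_sub T hp hp0i hpp0 hp0p
      have e2 := d_sub T hq hq0i hqq0 hq0q
      have e3 := d_equ T hE0
      have e4 := hd T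
      omega
    have hp0ne : x * a' ≠ 0 := by
      intro h
      apply hx0
      have : x * a' * x = x := by rw [mul_assoc, ha'1, hxf]
      rw [h, zero_mul] at this
      exact this.symm
    have hlt : d ⊤ (p - x * a') ≤ N := by
      have e1 := d_sub ⊤ hp hp0i hpp0 hp0p
      have e2 : d ⊤ (x * a') ≠ 0 := by
        rw [Ne, d_eq_zero_iff]
        intro h
        exact hp0ne (h _ ⟨Submodule.mem_top, hp0i⟩)
      omega
    have hp1 : (p - x * a') * (p - x * a') = p - x * a' := by
      rw [sub_mul, mul_sub, mul_sub, hp, hpp0, hp0p, hp0i]; abel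
    have hq1 : (q - y * b') * (q - y * b') = q - y * b' := by
      rw [sub_mul, mul_sub, mul_sub, hq, hqq0, hq0q, hq0i]; abel
    obtain ⟨u, v, h1, h2, h3, h4⟩ := ih (p - x * a') (q - y * b') hlt hp1 hq1 hd1
    -- normalise
    have hu1 : (q - y * b') * u = u := by rw [← h1, ← mul_assoc, ← mul_assoc, hq1]
    have hu2 : u * (p - x * a') = u := by rw [← h1, mul_assoc, hp1]
    have hv1 : (p - x * a') * v = v := by rw [← h2, ← mul_assoc, ← mul_assoc, hp1]
    have hv2 : v * (q - y * b') = v := by rw [← h2, mul_assoc, hq1]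
    have k1 : q * u = u := by
      rw [← hu1, ← mul_assoc, mul_sub, hq, hqq0]
    have k2 : u * p = u := by
      rw [← hu2, mul_assoc, sub_mul, hp, hp0p]
    have k3 : p * v = v := by
      rw [← hv1, ← mul_assoc, mul_sub, hp, hpp0]
    have k4 : v * q = v := by
      rw [← hv2, mul_assoc, sub_mul, hq, hq0q]
    have m1 : b' * u = 0 := by
      have : b' * (q - y * b') = 0 := by
        rw [mul_sub, hb'3, ← mul_assoc, hb'1, hb'2, sub_self]
      rw [← hu1, ← mul_assoc, this, zero_mul]
    have m2 : u * x = 0 := by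
      have : (p - x * a') * x = 0 := by
        rw [sub_mul, hpx, mul_assoc, ha'1, hxf, sub_self]
      rw [← hu2, mul_assoc, this, mul_zero]
    have m3 : a' * v = 0 := by
      have : a' * (p - x * a') = 0 := by
        rw [mul_sub, ha'3, ← mul_assoc, ha'1, ha'2, sub_self]
      rw [← hv1, ← mul_assoc, this, zero_mul]
    have m4 : v * y = 0 := by
      have : (q - y * b') * y = 0 := by
        rw [sub_mul, hqy, mul_assoc, hb'1, hyf, sub_self]
      rw [← hv2, mul_assoc, this, mul_zero]
    refine ⟨u + y * a', v + x * b', ?_, ?_, ?_, ?_⟩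
    · rw [mul_add, add_mul, k1, k2, ← mul_assoc, hqy, mul_assoc, ha'3]
    · rw [mul_add, add_mul, k3, k4, ← mul_assoc, hpx, mul_assoc, hb'3]
    · rw [add_mul, mul_add, mul_add, h3, hvu0, ← mul_assoc v, m4, zero_mul, mul_assoc x, m1,
        mul_zero]
      abel
    · rw [add_mul, mul_add, mul_add, h4, huv0, ← mul_assoc u, m2, zero_mul, mul_assoc y, m3,
        mul_zero]
      abel

end Pool.Agent.TH26.Orl
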