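import Pool.Agent.TH26.Orl.Prim

/-!
# The criterion: two exceptional weights of the parity of `n`, one of the other parity
-/

set_option linter.unusedSectionVars false

namespace Pool.Agent.TH26.Orl

open Module

theorem one_unknown (m K : ℕ) (f : ℕ → ℤ) (hK : K ≤ m) (hm : f (m + 1) = 0)
    (hf : ∀ k, k ≤ m → k ≠ K → f k = f (k + 1))
    (h1 : ∑ k ∈ Finset.range (m + 1), f k = 0) : ∀ k, k ≤ m → f k = 0 := by
  have e1 : ∀ j k, k + j = m + 1 → K < k → f k = 0 := by
    intro j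
    induction j with
    | zero => intro k hk _; rw [show k = m + 1 by omega]; exact hm
    | succ j ih =>
      intro k hk hlt
      rw [hf k (by omega) (by omega)]
      exact ih (k + 1) (by omega) (by omega)
  have e2 : ∀ j k, k + j = K → f k = f K := by
    intro j
    induction j with
    | zero => intro k hk; rw [show k = K by omega]
    | succ j ih =>
      intro k hk
      rw [hf k (by omega) (by omega)]
      exact ih (k + 1) (by omega)
  have e3 : ∀ k, k ≤ m → f k = if k + 1 ≤ K + 1 then f K else 0 := by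
    intro k hk
    split_ifs with h
    · exact e2 (K - k) k (by omega)
    · exact e1 (m + 1 - k) k (by omega) (by omega)
  have e4 : ∑ k ∈ Finset.range (m + 1), f k = ((K + 1 : ℕ) : ℤ) * f K := by
    rw [← sum_ind (m + 1) (K + 1) (by omega) (f K)]
    apply Finset.sum_congr rfl
    intro k hk
    rw [Finset.mem_range] at hk
    exact e3 k (by omega)
  rw [e4] at h1
  have h0 : f K = 0 := (mul_eq_zero.mp h1).resolve_left (by positivity)
  intro k hk
  rw [e3 k hk, h0]
  simp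

namespace Corr

variable {n : ℕ} {C : Corr n}

theorem δ_symm (S : Submodule C.E C.E) (i : ℕ) (hi : i ≤ 2 * n) : δ S i = δ S (2 * n - i) := by
  unfold δ
  rw [dz_symm C.side_e S i hi, dz_symm C.side_e' S i hi]

/-- Two exceptional weights of the parity of `n`. -/
theorem FM.same_parity (Φ : C.FM)
    (h : ∀ j₁ j₂ j₃ : ℕ, j₁ < j₂ → j₂ < j₃ → j₃ ≤ n → j₁ % 2 = n % 2 → j₂ % 2 = n % 2 →
      j₃ % 2 = n % 2 → C.SamePrim j₁ ∨ C.SamePrim j₂ ∨ C.SamePrim j₃)
    (S : Submodule C.E C.E) (k : ℕ) (hk : k ≤ n / 2) : δ S (n - 2 * k) = 0 := by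
  set m := n / 2 with hm
  let f : ℕ → ℤ := fun k => if k ≤ m then δ S (n - 2 * k) else 0
  have hfk : ∀ k, k ≤ m → f k = δ S (n - 2 * k) := fun k hk => if_pos hk
  have hfm : f (m + 1) = 0 := if_neg (by omega)
  -- the two equations
  have hlow := Φ.sum_low S
  have hpar := Φ.sum_par S n
  have v1 := dim_V C.side_e S
  have v2 := dim_V C.side_e' S
  rw [d_P C.side_e, d_P C.side_e] at v1
  rw [d_P C.side_e', d_P C.side_e'] at v2
  have v1' : ∑ i ∈ par2 n n, dz C.e S i = 2 * ∑ i ∈ up n, dz C.e S i + dz C.e S n := by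
    unfold dz; exact_mod_cast v1
  have v2' : ∑ i ∈ par2 n n, dz (1 - C.e) S i =
      2 * ∑ i ∈ up n, dz (1 - C.e) S i + dz (1 - C.e) S n := by
    unfold dz; exact_mod_cast v2
  rw [v1', v2', comb2 n _ (dz_symm C.side_e S), comb2 n _ (dz_symm C.side_e' S)] at hpar
  have c1 := comb1 n (dz C.e S)
  have c2 := comb1 n (dz (1 - C.e) S)
  have hsum : ∑ k ∈ Finset.range m, f (k + 1) =
      ∑ j ∈ Finset.range m, dz C.e S (n - 2 * (0 + 1 + j)) -
        ∑ j ∈ Finset.range m, dz (1 - C.e) S (n - 2 * (0 + 1 + j)) := by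
    rw [← Finset.sum_sub_distrib]
    apply Finset.sum_congr rfl
    intro k hk
    rw [Finset.mem_range] at hk
    rw [hfk (k + 1) (by omega), show n - 2 * (k + 1) = n - 2 * (0 + 1 + k) by omega]
    rfl
  have hsum' : ∑ k ∈ Finset.range m, (-1 : ℤ) ^ k * f (k + 1) =
      ∑ j ∈ Finset.range m, (-1 : ℤ) ^ j * dz C.e S (n - 2 * (0 + 1 + j)) -
        ∑ j ∈ Finset.range m, (-1 : ℤ) ^ j * dz (1 - C.e) S (n - 2 * (0 + 1 + j)) := by
    rw [← Finset.sum_sub_distrib]
    apply Finset.sum_congr rfl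
    intro k hk
    rw [Finset.mem_range] at hk
    rw [hfk (k + 1) (by omega), show n - 2 * (k + 1) = n - 2 * (0 + 1 + k) by omega]
    unfold δ
    ring
  have h0 : f 0 = dz C.e S n - dz (1 - C.e) S n := by
    rw [hfk 0 (by omega), show n - 2 * 0 = n by omega]; rfl
  have q1 : f 0 + 2 * ∑ k ∈ Finset.range m, f (k + 1) = 0 := by
    rw [hsum, h0]; linarith
  have q2 : ∑ k ∈ Finset.range m, f (k + 1) + ∑ k ∈ Finset.range m, (-1 : ℤ) ^ k * f (k + 1) = 0 := by
    rw [hsum, hsum']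
    have c1' : ∑ j ∈ Finset.range m, dz C.e S (n - 2 * (0 + 1 + j)) +
      ∑ j ∈ Finset.range m, (-1 : ℤ) ^ j * dz C.e S (n - 2 * (0 + 1 + j)) =
      2 * ∑ i ∈ lowT n, dz C.e S i := c1
    have c2' : ∑ j ∈ Finset.range m, dz (1 - C.e) S (n - 2 * (0 + 1 + j)) +
      ∑ j ∈ Finset.range m, (-1 : ℤ) ^ j * dz (1 - C.e) S (n - 2 * (0 + 1 + j)) =
      2 * ∑ i ∈ lowT n, dz (1 - C.e) S i := c2
    linarith
  -- steps at the good weights
  have step : ∀ k, k ≤ m → C.SamePrim (n - 2 * k) → f k = f (k + 1) := by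
    intro k hk hs
    by_cases hkm : k + 1 ≤ m
    · rw [hfk k hk, hfk (k + 1) hkm]
      have e1 : n - 2 * k = (n - 2 * (k + 1)) + 2 := by omega
      rw [e1] at hs ⊢
      exact δ_succ hs (by omega) S
    · have hkm' : k = m := by omega
      rw [hkm'] at hs ⊢
      rw [hfm, hfk m (le_refl _)]
      exact δ_low hs (by omega) (by omega) S
  have concl : ∀ K K' : ℕ, K < K' → K' ≤ m →
      (∀ k, k ≤ m → k ≠ K → k ≠ K' → C.SamePrim (n - 2 * k)) → δ S (n - 2 * k) = 0 := by
    intro K K' h1 h2 h3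
    rw [← hfk k hk]
    exact two_unknowns m K K' f h1 h2 hfm (fun k hk a b => step k hk (h3 k hk a b)) q1 q2 k hk
  -- choose the exceptional places
  by_cases hm0 : m = 0
  · have : k = 0 := by omega
    subst this
    rw [← hfk 0 (by omega)]
    rw [hm0] at q1
    simpa using q1
  by_cases hbad : ∃ k₁, k₁ ≤ m ∧ ¬ C.SamePrim (n - 2 * k₁)
  · obtain ⟨k₁, hk₁, hb₁⟩ := hbad
    by_cases hbad2 : ∃ k₂, k₂ ≤ m ∧ k₂ ≠ k₁ ∧ ¬ C.SamePrim (n - 2 * k₂)
    · obtain ⟨k₂, hk₂, hne, hb₂⟩ := hbad2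
      have hthree : ∀ k, k ≤ m → k ≠ k₁ → k ≠ k₂ → C.SamePrim (n - 2 * k) := by
        intro k hk n1 n2
        by_contra hb
        -- order the three
        have aux : ∀ a b c : ℕ, a < b → b < c → c ≤ m → ¬ C.SamePrim (n - 2 * a) →
            ¬ C.SamePrim (n - 2 * b) → ¬ C.SamePrim (n - 2 * c) → False := by
          intro a b c hab hbc hc na nb nc
          rcases h (n - 2 * c) (n - 2 * b) (n - 2 * a) (by omega) (by omega) (by omega)
            (by omega) (by omega) (by omega) with h | h | h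
          · exact nc h
          · exact nb h
          · exact na h
        rcases lt_trichotomy k k₁ with o1 | o1 | o1
        · rcases lt_trichotomy k k₂ with o2 | o2 | o2
          · rcases lt_or_gt_of_ne hne with o3 | o3
            · exact aux k k₂ k₁ o2 o3 hk₁ hb hb₂ hb₁
            · exact aux k k₁ k₂ o1 o3 hk₂ hb hb₁ hb₂
          · exact n2 o2
          · exact aux k₂ k k₁ o2 o1 hk₁ hb₂ hb hb₁
        · exact n1 o1
        · rcases lt_trichotomy k k₂ with o2 | o2 | o2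
          · exact aux k₁ k k₂ o1 o2 hk₂ hb₁ hb hb₂
          · exact n2 o2
          · rcases lt_or_gt_of_ne hne with o3 | o3
            · exact aux k₂ k₁ k o3 o1 hk hb₂ hb₁ hb
            · exact aux k₁ k₂ k o3 o2 hk hb₁ hb₂ hb
      rcases lt_or_gt_of_ne hne with o | o
      · exact concl k₂ k₁ o hk₁ (fun k hk a b => hthree k hk b a)
      · exact concl k₁ k₂ o hk₂ (fun k hk a b => hthree k hk a b)
    · push Not at hbad2
      by_cases hk0 : k₁ = 0
      · refine concl 0 1 (by omega) (by omega) (fun k hk a _ => hbad2 k hk ?_)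
        rw [hk0]; exact a
      · refine concl 0 k₁ (by omega) hk₁ (fun k hk _ b => hbad2 k hk b)
  · push Not at hbad
    exact concl 0 1 (by omega) (by omega) (fun k hk _ _ => hbad k hk)

/-- Degrees of the other parity: the sum is twice the sum over the lower half. -/
theorem comb4 (n : ℕ) (hn : 1 ≤ n) (x : ℕ → ℤ) (hx : ∀ i, i ≤ 2 * n → x i = x (2 * n - i)) :
    ∑ i ∈ par2 n (n + 1), x i = 2 * ∑ k ∈ Finset.range ((n - 1) / 2 + 1), x (n - 1 - 2 * k) := by
  have h1 : par2 n (n + 1) = (Finset.range ((n - 1) / 2 + 1)).image (fun k => n - 1 - 2 * k) ∪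
      (Finset.range ((n - 1) / 2 + 1)).image (fun k => n + 1 + 2 * k) := by
    ext i
    simp only [par2, Finset.mem_union, Finset.mem_image, Finset.mem_filter, Finset.mem_range]
    constructor
    · rintro ⟨h1, h2⟩
      by_cases h3 : i ≤ n
      · left; exact ⟨(n - 1 - i) / 2, by omega, by omega⟩
      · right; exact ⟨(i - n - 1) / 2, by omega, by omega⟩
    · rintro (⟨k, h, h'⟩ | ⟨k, h, h'⟩) <;> omega
  have hd : Disjoint ((Finset.range ((n - 1) / 2 + 1)).image (fun k => n - 1 - 2 * k))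
      ((Finset.range ((n - 1) / 2 + 1)).image (fun k => n + 1 + 2 * k)) := by
    rw [Finset.disjoint_left]
    intro i hi
    simp only [Finset.mem_image, Finset.mem_range] at hi ⊢
    obtain ⟨k, _, hk⟩ := hi
    rintro ⟨l, _, hl⟩
    omega
  rw [h1, Finset.sum_union hd, Finset.sum_image, Finset.sum_image]
  · have : ∑ k ∈ Finset.range ((n - 1) / 2 + 1), x (n + 1 + 2 * k) =
        ∑ k ∈ Finset.range ((n - 1) / 2 + 1), x (n - 1 - 2 * k) := by
      apply Finset.sum_congr rfl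
      intro k hk
      rw [Finset.mem_range] at hk
      rw [hx (n + 1 + 2 * k) (by omega)]
      congr 1
      omega
    rw [this]; ring
  · intro i hi j hj hij
    have : n + 1 + 2 * i = n + 1 + 2 * j := hij
    omega
  · intro i hi j hj hij
    simp only [Finset.coe_range, Set.mem_Iio] at hi hj
    have : n - 1 - 2 * i = n - 1 - 2 * j := hij
    omega

/-- One exceptional weight of the other parity. -/
theorem FM.other_parity (Φ : C.FM) (hn : 1 ≤ n)
    (h : ∀ j₁ j₂ : ℕ, j₁ < j₂ → j₂ ≤ n → j₁ % 2 ≠ n % 2 → j₂ % 2 ≠ n % 2 →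
      C.SamePrim j₁ ∨ C.SamePrim j₂)
    (S : Submodule C.E C.E) (k : ℕ) (hk : k ≤ (n - 1) / 2) : δ S (n - 1 - 2 * k) = 0 := by
  set m := (n - 1) / 2 with hm
  let f : ℕ → ℤ := fun k => if k ≤ m then δ S (n - 1 - 2 * k) else 0
  have hfk : ∀ k, k ≤ m → f k = δ S (n - 1 - 2 * k) := fun k hk => if_pos hk
  have hfm : f (m + 1) = 0 := if_neg (by omega)
  have hpar := Φ.sum_par S (n + 1)
  rw [comb4 n hn _ (dz_symm C.side_e S), comb4 n hn _ (dz_symm C.side_e' S)] at hpar
  have q1 : ∑ k ∈ Finset.range (m + 1), f k = 0 := by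
    have : ∑ k ∈ Finset.range (m + 1), f k =
        ∑ k ∈ Finset.range (m + 1), dz C.e S (n - 1 - 2 * k) -
          ∑ k ∈ Finset.range (m + 1), dz (1 - C.e) S (n - 1 - 2 * k) := by
      rw [← Finset.sum_sub_distrib]
      apply Finset.sum_congr rfl
      intro k hk
      rw [Finset.mem_range] at hk
      rw [hfk k (by omega)]
      rfl
    rw [this]
    linarith
  have step : ∀ k, k ≤ m → C.SamePrim (n - 1 - 2 * k) → f k = f (k + 1) := by
    intro k hk hs
    by_cases hkm : k + 1 ≤ m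
    · rw [hfk k hk, hfk (k + 1) hkm]
      have e1 : n - 1 - 2 * k = (n - 1 - 2 * (k + 1)) + 2 := by omega
      rw [e1] at hs ⊢
      exact δ_succ hs (by omega) S
    · have hkm' : k = m := by omega
      rw [hkm'] at hs ⊢
      rw [hfm, hfk m (le_refl _)]
      exact δ_low hs (by omega) (by omega) S
  rw [← hfk k hk]
  by_cases hbad : ∃ k₁, k₁ ≤ m ∧ ¬ C.SamePrim (n - 1 - 2 * k₁)
  · obtain ⟨k₁, hk₁, hb₁⟩ := hbad
    refine one_unknown m k₁ f hk₁ hfm (fun k hk hne => step k hk ?_) q1 k hk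
    rcases lt_or_gt_of_ne hne with o | o
    · rcases h (n - 1 - 2 * k₁) (n - 1 - 2 * k) (by omega) (by omega) (by omega) (by omega)
        with h | h
      · exact absurd h hb₁
      · exact h
    · rcases h (n - 1 - 2 * k) (n - 1 - 2 * k₁) (by omega) (by omega) (by omega) (by omega)
        with h | h
      · exact h
      · exact absurd h hb₁
  · push Not at hbad
    exact one_unknown m 0 f (by omega) hfm (fun k hk _ => step k hk (hbad k hk)) q1 k hk

theorem equ_of_δ {i : ℕ} (h : ∀ S : Submodule C.E C.E, δ S i = 0) :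
    Equ (C.hX i) (C.hX' i) := by
  apply equ_of_dz
  intro S
  have := h S
  unfold δ at this
  linarith

theorem equ_out {i : ℕ} (hi : 2 * n < i) : Equ (C.hX i) (C.hX' i) := by
  have : C.π i = 0 := C.π_van i hi
  unfold hX hX'
  rw [this, mul_zero, mul_zero]
  exact Equ.refl (zero_mul _)

theorem FM.equ_same (Φ : C.FM)
    (h : ∀ j₁ j₂ j₃ : ℕ, j₁ < j₂ → j₂ < j₃ → j₃ ≤ n → j₁ % 2 = n % 2 → j₂ % 2 = n % 2 →
      j₃ % 2 = n % 2 → C.SamePrim j₁ ∨ C.SamePrim j₂ ∨ C.SamePrim j₃)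
    (i : ℕ) (hi : i % 2 = n % 2) : Equ (C.hX i) (C.hX' i) := by
  by_cases hi2 : i ≤ 2 * n
  · apply equ_of_δ
    intro S
    rcases le_or_gt i n with h' | h'
    · have := Φ.same_parity h S ((n - i) / 2) (by omega)
      rwa [show n - 2 * ((n - i) / 2) = i by omega] at this
    · rw [δ_symm S i hi2]
      have := Φ.same_parity h S ((i - n) / 2) (by omega)
      rwa [show n - 2 * ((i - n) / 2) = 2 * n - i by omega] at this
  · exact equ_out (by omega)

theorem FM.equ_other (Φ : C.FM)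
    (h : ∀ j₁ j₂ : ℕ, j₁ < j₂ → j₂ ≤ n → j₁ % 2 ≠ n % 2 → j₂ % 2 ≠ n % 2 →
      C.SamePrim j₁ ∨ C.SamePrim j₂)
    (i : ℕ) (hi : i % 2 ≠ n % 2) : Equ (C.hX i) (C.hX' i) := by
  by_cases hi2 : i ≤ 2 * n
  · apply equ_of_δ
    intro S
    have hn : 1 ≤ n := by
      rcases Nat.eq_zero_or_pos n with h0 | h0
      · omega
      · exact h0
    rcases le_or_gt i n with h' | h'
    · have := Φ.other_parity hn h S ((n - 1 - i) / 2) (by omega)
      rwa [show n - 1 - 2 * ((n - 1 - i) / 2) = i by omega] at this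
    · rw [δ_symm S i hi2]
      have := Φ.other_parity hn h S ((i - n - 1) / 2) (by omega)
      rwa [show n - 1 - 2 * ((i - n - 1) / 2) = 2 * n - i by omega] at this
  · exact equ_out (by omega)

/-- The conclusion for Chow motives. -/
def Chow.Isom (𝒜 : C.Chow) : Prop :=
  ∃ Z Z' : 𝒜.A, (1 - 𝒜.Δ) * Z * 𝒜.Δ = Z ∧ 𝒜.Δ * Z' * (1 - 𝒜.Δ) = Z' ∧ Z' * Z = 𝒜.Δ ∧
    Z * Z' = 1 - 𝒜.Δ

theorem chow_of_all (h : ∀ i, Equ (C.hX i) (C.hX' i)) (𝒜 : C.Chow) : 𝒜.Isom := by
  obtain ⟨u, v, h1, h2, h3, h4, h5, h6⟩ := assemble h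
  exact 𝒜.lift h1 h2 h3 h4 h5 h6

end Corr

end Pool.Agent.TH26.Orl
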