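import Pool.Agent.TH26.Orl.Alg

/-!
# The algebra of correspondences of a smooth projective variety

`Corr n` records, for a smooth projective variety `W = X ⊔ X'` of pure dimension `n` over a field
of characteristic zero which satisfies the standard conjecture of Lefschetz type `B(W)`, the
algebra `E` of correspondences of all degrees from `W` to itself, modulo numerical equivalence
and with rational coefficients. The product is the composition of correspondences; `E` acts on
the cohomology `H = H^*(W)`, and an element of degree `r` (a cycle of codimension `n + r` on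
`W × W`) maps `H^i` to `H^{i + 2r}`.
-/

namespace Pool.Agent.TH26.Orl

open Module

/-- The correspondence algebra of `W = X ⊔ X'`. -/
structure Corr (n : ℕ) where
  /-- `⊕_r A^{n + r}(W × W)`, cycles modulo numerical equivalence with rational coefficients;
  the product is composition of correspondences -/
  E : Type
  [ring : Ring E]
  [alg : Algebra ℚ E]
  [fin : Module.Finite ℚ E]
  /-- transposition of correspondences -/
  t : E →ₗ[ℚ] E
  t_t : ∀ u, t (t u) = u
  t_mul : ∀ u v, t (u * v) = t v * t u
  /-- `π i` is the Künneth projector of degree `i` (the projector onto `h^i(W)`) -/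
  π : ℕ → E
  π_van : ∀ i, 2 * n < i → π i = 0
  π_sum : ∑ i ∈ Finset.range (2 * n + 1), π i = 1
  π_orth : ∀ i j, i ≠ j → π i * π j = 0
  t_π : ∀ i, i ≤ 2 * n → t (π i) = π (2 * n - i)
  /-- a correspondence changes the cohomological degree by an even number -/
  par : ∀ (i j : ℕ) (u : E), Odd (i + j) → π i * u * π j = 0
  /-- cup product with the class of an ample divisor (the Lefschetz operator) -/
  L : E
  L_π : ∀ i, L * π i = π (i + 2) * L
  /-- the standard conjecture of Lefschetz type: `L^{n-i} : h^i(W) → h^{2n-i}(W)(n-i)` has an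
  inverse which is a correspondence -/
  hl : ∀ i, i ≤ n → ∃ m : E, m * L ^ (n - i) * π i = π i ∧
    L ^ (n - i) * m * π (2 * n - i) = π (2 * n - i)
  /-- the Lefschetz star operator `*_L` (Kleiman) -/
  s : E
  s_s : s * s = 1
  t_s : t s = s
  s_π : ∀ i, i ≤ 2 * n → s * π i = π (2 * n - i) * s
  /-- `*_L (L^r a) = (-1)^{i (i + 1) / 2} L^{n - i - r} a` for `a` primitive of degree `i` -/
  s_prim : ∀ i r : ℕ, i + r ≤ n → ∀ a : E, π i * a = a → L ^ (n - i + 1) * a = 0 →
    s * (L ^ r * a) = ((-1 : ℚ) ^ (i * (i + 1) / 2)) • (L ^ (n - i - r) * a)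
  /-- the trace of the action on the total cohomology -/
  τ : E →ₗ[ℚ] ℚ
  /-- the Hodge index theorem: `u ↦ s (t u) s` is a positive involution -/
  pos : ∀ u, u ≠ 0 → 0 < τ (s * t u * s * u)
  /-- cup product with the first Chern class of the tangent bundle -/
  c : E
  c_π : ∀ i, c * π i = π (i + 2) * c
  t_c : t c = c
  /-- the identity (diagonal) of the component `X`; the identity of `X'` is `1 - e` -/
  e : E
  e_e : e * e = e
  t_e : t e = e
  e_π : ∀ i, e * π i = π i * e
  e_L : e * L = L * e
  e_s : e * s = s * e
  e_c : e * c = c * e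

attribute [instance] Corr.ring Corr.alg Corr.fin

namespace Corr

variable {n : ℕ} (C : Corr n)

/-- The projector onto `h^i(X)`. -/
def hX (i : ℕ) : C.E := C.e * C.π i

/-- The projector onto `h^i(X')`. -/
def hX' (i : ℕ) : C.E := (1 - C.e) * C.π i

/-- Cup product with `exp (c₁ / 2)` (note that `c ^ (n + 1) = 0`). -/
noncomputable def K : C.E :=
  ∑ m ∈ Finset.range (n + 1), ((1 : ℚ) / (2 ^ m * (m.factorial : ℚ))) • C.c ^ m

/-- The operator `v ↦ v^∨` of the Mukai pairing: the sign `(-1)^k` on `h^{2k}` and on
`h^{2k+1}` (on odd cohomology this is the usual operator divided by the square root of `-1`). -/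
def ν : C.E := ∑ i ∈ Finset.range (2 * n + 1), ((-1 : ℚ) ^ (i / 2)) • C.π i

/-- The correspondence attached to a Fourier-Mukai equivalence `D^b(X) → D^b(X')` with kernel
`P`: `φ` is the Mukai vector of `P`, `φ'` that of the kernel of the inverse, and `isom` says that
`φ` preserves the Mukai pairings `⟨v, w⟩ = ∫ exp (c₁ / 2) v^∨ w`. -/
structure FM where
  φ : C.E
  φ' : C.E
  φ_mem : (1 - C.e) * φ * C.e = φ
  φ'_mem : C.e * φ' * (1 - C.e) = φ'
  left : φ' * φ = C.e
  right : φ * φ' = 1 - C.e
  isom : C.t φ * C.K * C.ν * φ = C.K * C.ν * C.e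

/-- The Chow group `CH^n(W × W)` with rational coefficients (`A`, a ring under composition), its
map `cl` to cycles modulo numerical equivalence, and the diagonal `Δ` of `X`. The condition `nil`
says that `h(W)` is finite dimensional in the sense of Kimura and O'Sullivan. -/
structure Chow where
  A : Type
  [ring : Ring A]
  cl : A →+* C.E
  /-- every cycle class of degree zero is the class of a cycle -/
  surj : ∀ u : C.E, (∀ i, u * C.π i = C.π i * u) → ∃ a, cl a = u
  /-- numerically trivial endomorphisms of `h(W)` are nilpotent -/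
  nil : ∀ a, cl a = 0 → IsNilpotent a
  Δ : A
  Δ_Δ : Δ * Δ = Δ
  cl_Δ : cl Δ = C.e

attribute [instance] Chow.ring

end Corr

end Pool.Agent.TH26.Orl
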