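import Mathlib

/-!
# The inertia of a symmetric form with a large isotropic subspace
-/

set_option linter.unusedSectionVars false

namespace Pool.Agent.TH26.Orl

open Module

/-- A nondegenerate symmetric form over the rationals has a positive and a negative definite
subspace of complementary dimensions. -/
theorem exists_definite {V : Type} [AddCommGroup V] [Module ℚ V] [FiniteDimensional ℚ V]
    (B : LinearMap.BilinForm ℚ V) (hs : ∀ x y, B x y = B y x)
    (hn : ∀ x, (∀ y, B x y = 0) → x = 0) :
    ∃ P N : Submodule ℚ V, (∀ x ∈ P, x ≠ 0 → 0 < B x x) ∧ (∀ x ∈ N, x ≠ 0 → B x x < 0) ∧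
      finrank ℚ P + finrank ℚ N = finrank ℚ V := by
  have : Invertible (2 : ℚ) := invertibleOfNonzero (by norm_num)
  obtain ⟨v, hv⟩ := LinearMap.BilinForm.exists_orthogonal_basis (B := B) ⟨fun x y => hs x y⟩
  have hv' : ∀ i j, i ≠ j → B (v i) (v j) = 0 := fun i j hij => hv hij
  have hvi : ∀ i, B (v i) (v i) ≠ 0 := by
    intro i h
    have : v i = 0 := by
      apply hn
      intro y
      rw [← v.sum_repr y, map_sum]
      apply Finset.sum_eq_zero
      intro j _
      rw [map_smul]
      by_cases hij : i = j
      · rw [← hij, h, smul_zero]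
      · rw [hv' i j hij, smul_zero]
    exact v.ne_zero i this
  have key : ∀ (T : Set (Fin (finrank ℚ V))) (x : V), x ∈ Submodule.span ℚ (v '' T) →
      B x x = ∑ i, (v.repr x i) ^ 2 * B (v i) (v i) ∧ (∀ i, i ∉ T → v.repr x i = 0) := by
    intro T x hx
    refine ⟨?_, ?_⟩
    · conv_lhs => rw [← v.sum_repr x]
      simp only [map_sum, LinearMap.sum_apply, map_smul, LinearMap.smul_apply]
      apply Finset.sum_congr rfl
      intro i _
      rw [Finset.sum_eq_single i]
      · simp only [smul_eq_mul]; ring
      · intro j _ hij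
        rw [hv' _ _ hij, smul_zero]
      · intro h; exact absurd (Finset.mem_univ i) h
    · intro i hi
      rw [Basis.mem_span_image] at hx
      by_contra hne
      exact hi (hx (by simpa using hne))
  have fr : ∀ T : Set (Fin (finrank ℚ V)), finrank ℚ (Submodule.span ℚ (v '' T)) = T.ncard := by
    intro T
    have : Fintype T := Fintype.ofFinite _
    have hli : LinearIndependent ℚ (fun i : T => v i) :=
      v.linearIndependent.comp _ Subtype.val_injective
    have := finrank_span_eq_card hli
    rw [show Set.range (fun i : T => v i) = v '' T by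
      ext z; simp] at this
    rw [this, Set.ncard_eq_toFinset_card']
    simp
  refine ⟨Submodule.span ℚ (v '' {i | 0 < B (v i) (v i)}),
    Submodule.span ℚ (v '' {i | 0 < B (v i) (v i)}ᶜ), ?_, ?_, ?_⟩
  · intro x hx hx0
    obtain ⟨h1, h2⟩ := key _ x hx
    rw [h1]
    have hex : ∃ i, v.repr x i ≠ 0 := by
      by_contra hall
      push Not at hall
      apply hx0
      rw [← v.sum_repr x]
      exact Finset.sum_eq_zero fun i _ => by rw [hall i, zero_smul]
    obtain ⟨i, hi⟩ := hex
    apply Finset.sum_pos'
    · intro j _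
      by_cases hj : 0 < B (v j) (v j)
      · positivity
      · rw [h2 j hj]; simp
    · refine ⟨i, Finset.mem_univ i, ?_⟩
      have hpos : 0 < B (v i) (v i) := by
        by_contra hj
        exact hi (h2 i hj)
      positivity
  · intro x hx hx0
    obtain ⟨h1, h2⟩ := key _ x hx
    rw [h1]
    have hex : ∃ i, v.repr x i ≠ 0 := by
      by_contra hall
      push Not at hall
      apply hx0
      rw [← v.sum_repr x]
      exact Finset.sum_eq_zero fun i _ => by rw [hall i, zero_smul]
    obtain ⟨i, hi⟩ := hex
    rw [← neg_pos, ← Finset.sum_neg_distrib]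
    apply Finset.sum_pos'
    · intro j _
      by_cases hj : 0 < B (v j) (v j)
      · rw [h2 j (fun h => h hj)]; simp
      · have : B (v j) (v j) ≤ 0 := not_lt.mp hj
        nlinarith [sq_nonneg (v.repr x j)]
    · refine ⟨i, Finset.mem_univ i, ?_⟩
      have hneg : B (v i) (v i) < 0 := by
        rcases lt_trichotomy (B (v i) (v i)) 0 with h | h | h
        · exact h
        · exact absurd h (hvi i)
        · exact absurd (h2 i (fun h' => h' h)) hi
      have : 0 < (v.repr x i) ^ 2 := by positivity
      nlinarith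
  · rw [fr, fr, Set.ncard_add_ncard_compl]
    simp

/-- Dimension bound for a positive definite subspace in the presence of a subspace on which the
form is nowhere positive. -/
theorem bound {M : Type} [AddCommGroup M] [Module ℚ M] [FiniteDimensional ℚ M]
    (V A F U : Submodule ℚ M) (hA : A ≤ V) (hF : F ≤ V) (hU : U ≤ V)
    (b : M → M → ℚ) (hb : ∀ x ∈ A, x ≠ 0 → 0 < b x x)
    (hFU : ∀ f ∈ F, ∀ u ∈ U, b (f + u) (f + u) ≤ 0) (hd : F ⊓ U = ⊥) :
    finrank ℚ A + (finrank ℚ F + finrank ℚ U) ≤ finrank ℚ V := by
  have h1 := Submodule.finrank_sup_add_finrank_inf_eq F U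
  rw [hd, finrank_bot, add_zero] at h1
  have h2 := Submodule.finrank_sup_add_finrank_inf_eq A (F ⊔ U)
  have h3 : A ⊓ (F ⊔ U) = ⊥ := by
    rw [eq_bot_iff]
    rintro x ⟨hx1, hx2⟩
    obtain ⟨f, hf, u, hu, rfl⟩ := Submodule.mem_sup.mp hx2
    by_contra hne
    have := hb _ hx1 (by simpa using hne)
    exact absurd (hFU f hf u hu) (not_le.mpr this)
  rw [h3, finrank_bot, add_zero, h1] at h2
  rw [← h2]
  exact Submodule.finrank_mono (sup_le hA (sup_le hF hU))

end Pool.Agent.TH26.Orl
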