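import Pool.Agent.TH26.Orl.Lef
import Pool.Agent.TH26.Orl.Sig

/-!
# The Mukai form on a left ideal and its inertia
-/

set_option linter.unusedSectionVars false

namespace Pool.Agent.TH26.Orl

open Module

namespace Corr

variable {n : ℕ} (C : Corr n)

/-- The positive definite form attached to the polarisation. -/
noncomputable def q (x y : C.E) : ℚ := C.τ (C.s * C.t x * C.s * y) + C.τ (C.s * C.t y * C.s * x)

theorem q_symm (x y : C.E) : C.q x y = C.q y x := by
  unfold q; ring

theorem q_pos {x : C.E} (hx : x ≠ 0) : 0 < C.q x x := by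
  have := C.pos x hx
  unfold q
  linarith

theorem q_adj (a x y : C.E) : C.q (a * x) y = C.q x (C.s * C.t a * C.s * y) := by
  unfold q
  have e1 : C.s * C.t (a * x) * C.s * y = C.s * C.t x * C.s * (C.s * C.t a * C.s * y) := by
    rw [C.t_mul]
    calc C.s * (C.t x * C.t a) * C.s * y = C.s * C.t x * (1 * (C.t a * (C.s * y))) := by
          rw [one_mul]; simp only [mul_assoc]
      _ = _ := by rw [← C.s_s]; simp only [mul_assoc]
  have e2 : C.s * C.t (C.s * C.t a * C.s * y) * C.s * x = C.s * C.t y * C.s * (a * x) := by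
    rw [C.t_mul, C.t_mul, C.t_mul, C.t_s, C.t_t]
    calc C.s * (C.t y * (C.s * (a * C.s))) * C.s * x
        = C.s * C.t y * C.s * a * (C.s * C.s) * x := by simp only [mul_assoc]
      _ = _ := by rw [C.s_s, mul_one]; simp only [mul_assoc]
  rw [e1, e2]

/-- The symmetrised Mukai operator. -/
noncomputable def G : C.E := C.K * C.ν + C.t (C.K * C.ν)

theorem t_G : C.t C.G = C.G := by
  unfold G
  rw [map_add, C.t_t, add_comm]

/-- The symmetrised Mukai form. -/
noncomputable def β (x y : C.E) : ℚ := C.τ (C.s * C.t x * C.G * y) + C.τ (C.s * C.t y * C.G * x)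

theorem β_symm (x y : C.E) : C.β x y = C.β y x := by
  unfold β; ring

theorem β_eq (x y : C.E) : C.β x y = C.q x (C.s * C.G * y) := by
  unfold β q
  have e1 : C.s * C.t x * C.G * y = C.s * C.t x * C.s * (C.s * C.G * y) := by
    calc C.s * C.t x * C.G * y = C.s * C.t x * 1 * (C.G * y) := by
          rw [mul_one]; simp only [mul_assoc]
      _ = _ := by rw [← C.s_s]; simp only [mul_assoc]
  have e2 : C.s * C.t (C.s * C.G * y) * C.s * x = C.s * C.t y * C.G * x := by
    rw [C.t_mul, C.t_mul, C.t_s, C.t_G]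
    calc C.s * (C.t y * (C.G * C.s)) * C.s * x = C.s * C.t y * C.G * (C.s * C.s) * x := by
          simp only [mul_assoc]
      _ = _ := by rw [C.s_s, mul_one]
  rw [e1, e2]

/-- The Mukai form as a bilinear form. -/
noncomputable def βf : C.E →ₗ[ℚ] C.E →ₗ[ℚ] ℚ :=
  LinearMap.mk₂ ℚ C.β
    (by intro a b c; unfold β; simp only [map_add, mul_add, add_mul]; ring)
    (by intro r a b; unfold β
        simp only [map_smul, mul_smul_comm, smul_mul_assoc, smul_eq_mul]; ring)
    (by intro a b c; unfold β; simp only [map_add, mul_add, add_mul]; ring)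
    (by intro r a b; unfold β
        simp only [map_smul, mul_smul_comm, smul_mul_assoc, smul_eq_mul]; ring)

theorem βf_apply (x y : C.E) : C.βf x y = C.β x y := rfl

/-! ### The operator `G` and the grading -/

theorem K_π_lt {j k : ℕ} (h : j < k) : C.π j * C.K * C.π k = 0 := by
  unfold K
  rw [Finset.mul_sum, Finset.sum_mul]
  apply Finset.sum_eq_zero
  intro m _
  rw [mul_smul_comm, smul_mul_assoc, mul_assoc, C.c_pow_π, ← mul_assoc,
    C.π_orth j (k + 2 * m) (by omega), zero_mul, smul_zero]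

theorem K_π_eq (k : ℕ) : C.π k * C.K * C.π k = C.π k := by
  unfold K
  rw [Finset.mul_sum, Finset.sum_mul, Finset.sum_eq_single 0]
  · simp [C.π_π]
  · intro m _ hm
    rw [mul_smul_comm, smul_mul_assoc, mul_assoc, C.c_pow_π, ← mul_assoc,
      C.π_orth k (k + 2 * m) (by omega), zero_mul, smul_zero]
  · intro h; simp at h

theorem t_pow (x : C.E) (hx : C.t x = x) (m : ℕ) : C.t (x ^ m) = x ^ m := by
  induction m with
  | zero => simpa using C.t_one
  | succ m ih => rw [pow_succ, C.t_mul, hx, ih, ← pow_succ', pow_succ]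

theorem t_K : C.t C.K = C.K := by
  unfold K
  rw [map_sum]
  apply Finset.sum_congr rfl
  intro m _
  rw [map_smul, C.t_pow _ C.t_c]

theorem ν_π (k : ℕ) : C.ν * C.π k = ((-1 : ℚ) ^ (k / 2)) • C.π k := by
  unfold ν
  rw [Finset.sum_mul]
  by_cases hk : k ∈ Finset.range (2 * n + 1)
  · rw [Finset.sum_eq_single k]
    · rw [smul_mul_assoc, C.π_π]
    · intro j _ hj
      rw [smul_mul_assoc, C.π_orth j k hj, smul_zero]
    · intro h; exact absurd hk h
  · have : C.π k = 0 := C.π_van k (by simpa [Nat.lt_succ_iff] using hk)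
    rw [this, smul_zero]
    exact Finset.sum_eq_zero fun j _ => by rw [mul_zero]

theorem π_tν {j : ℕ} (hj : j ≤ 2 * n) :
    C.π j * C.t C.ν = ((-1 : ℚ) ^ ((2 * n - j) / 2)) • C.π j := by
  have h := congrArg C.t (C.ν_π (2 * n - j))
  rw [C.t_mul, map_smul, C.t_π _ (by omega), show 2 * n - (2 * n - j) = j by omega] at h
  exact h

theorem G_π_lt {j k : ℕ} (h : j < k) : C.π j * C.G * C.π k = 0 := by
  unfold G
  rw [C.t_mul, C.t_K, mul_add, add_mul]
  by_cases hk : k ≤ 2 * n
  · rw [show C.π j * (C.K * C.ν) * C.π k = C.π j * C.K * (C.ν * C.π k) by simp only [mul_assoc],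
      C.ν_π, mul_smul_comm, C.K_π_lt h, smul_zero, zero_add, ← mul_assoc, C.π_tν (by omega),
      smul_mul_assoc, smul_mul_assoc, C.K_π_lt h, smul_zero]
  · rw [C.π_van k (by omega), mul_zero, mul_zero, add_zero]

theorem G_π_eq {k : ℕ} (hk : k ≤ 2 * n) (hp : k % 2 = n % 2) :
    C.π k * C.G * C.π k = (2 * (-1 : ℚ) ^ (k / 2)) • C.π k := by
  unfold G
  rw [C.t_mul, C.t_K, mul_add, add_mul,
    show C.π k * (C.K * C.ν) * C.π k = C.π k * C.K * (C.ν * C.π k) by simp only [mul_assoc],
      C.ν_π, mul_smul_comm, C.K_π_eq, ← mul_assoc, C.π_tν hk, smul_mul_assoc, smul_mul_assoc,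
      C.K_π_eq, ← add_smul]
  congr 1
  have : (-1 : ℚ) ^ ((2 * n - k) / 2) = (-1 : ℚ) ^ (k / 2) := by
    rcases Nat.even_or_odd' k with ⟨a, ha | ha⟩
    · obtain ⟨b, hb⟩ : ∃ b, n = 2 * b := ⟨n / 2, by omega⟩
      have e1 : (2 * n - k) / 2 + k / 2 = 2 * b := by omega
      have e2 : (-1 : ℚ) ^ ((2 * n - k) / 2) * (-1 : ℚ) ^ (k / 2) = 1 := by
        rw [← pow_add, e1, pow_mul]; norm_num
      have e3 : (-1 : ℚ) ^ (k / 2) * (-1 : ℚ) ^ (k / 2) = 1 := by
        rw [← pow_add, ← two_mul, pow_mul]; norm_num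
      calc (-1 : ℚ) ^ ((2 * n - k) / 2) = (-1 : ℚ) ^ ((2 * n - k) / 2) *
            ((-1 : ℚ) ^ (k / 2) * (-1 : ℚ) ^ (k / 2)) := by rw [e3, mul_one]
        _ = _ := by rw [← mul_assoc, e2, one_mul]
    · obtain ⟨b, hb⟩ : ∃ b, n = 2 * b + 1 := ⟨n / 2, by omega⟩
      have e1 : (2 * n - k) / 2 + k / 2 = 2 * b := by omega
      have e2 : (-1 : ℚ) ^ ((2 * n - k) / 2) * (-1 : ℚ) ^ (k / 2) = 1 := by
        rw [← pow_add, e1, pow_mul]; norm_num
      have e3 : (-1 : ℚ) ^ (k / 2) * (-1 : ℚ) ^ (k / 2) = 1 := by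
        rw [← pow_add, ← two_mul, pow_mul]; norm_num
      calc (-1 : ℚ) ^ ((2 * n - k) / 2) = (-1 : ℚ) ^ ((2 * n - k) / 2) *
            ((-1 : ℚ) ^ (k / 2) * (-1 : ℚ) ^ (k / 2)) := by rw [e3, mul_one]
        _ = _ := by rw [← mul_assoc, e2, one_mul]
  rw [this]; ring

/-- Degrees adding up to more than `2 n` are orthogonal. -/
theorem β_deg {i k : ℕ} {x y : C.E} (hx : C.π i * x = x) (hy : C.π k * y = y)
    (h : 2 * n < i + k) : C.β x y = 0 := by
  have key : ∀ (i k : ℕ) (x y : C.E), C.π i * x = x → C.π k * y = y → 2 * n < i + k →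
      C.s * C.t x * C.G * y = 0 := by
    intro i k x y hx hy h
    by_cases hi : i ≤ 2 * n
    · have e1 : C.t x = C.t x * C.π (2 * n - i) := by
        conv_lhs => rw [← hx]
        rw [C.t_mul, C.t_π i hi]
      calc C.s * C.t x * C.G * y = C.s * (C.t x * C.π (2 * n - i)) * C.G * (C.π k * y) := by
            rw [← e1, hy]
        _ = C.s * C.t x * (C.π (2 * n - i) * C.G * C.π k) * y := by simp only [mul_assoc]
        _ = 0 := by rw [C.G_π_lt (by omega), mul_zero, zero_mul]
    · have : x = 0 := by rw [← hx, C.π_van i (by omega), zero_mul]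
      rw [this, map_zero, mul_zero, zero_mul, zero_mul]
  unfold β
  rw [key i k x y hx hy h, key k i y x hy hx (by omega), map_zero, add_zero]

/-- The form on an eigenspace of the star operator in the middle degree. -/
theorem β_mid {x : C.E} {σ : ℚ} (hσ : σ * σ = 1) (hx : C.π n * x = x) (hs : C.s * x = σ • x) :
    C.β x x = (4 * (-1 : ℚ) ^ (n / 2) * σ) * C.τ (C.s * C.t x * C.s * x) := by
  have e1 : C.t x = C.t x * C.π n := by
    conv_lhs => rw [← hx]
    rw [C.t_mul, C.t_π n (by omega), show 2 * n - n = n by omega]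
  have e2 : C.t x = σ • (C.t x * C.s) := by
    have h := congrArg C.t hs
    rw [C.t_mul, C.t_s, map_smul] at h
    rw [h, smul_smul, hσ, one_smul]
  have e3 : C.s * C.t x * C.G * x = (2 * (-1 : ℚ) ^ (n / 2)) • (C.s * C.t x * x) := by
    calc C.s * C.t x * C.G * x = C.s * (C.t x * C.π n) * C.G * (C.π n * x) := by rw [← e1, hx]
      _ = C.s * C.t x * (C.π n * C.G * C.π n) * x := by simp only [mul_assoc]
      _ = (2 * (-1 : ℚ) ^ (n / 2)) • (C.s * C.t x * C.π n * x) := by
          rw [C.G_π_eq (by omega) rfl, mul_smul_comm, smul_mul_assoc]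
      _ = _ := by rw [mul_assoc, hx]
  have e4 : C.s * C.t x * x = σ • (C.s * C.t x * C.s * x) := by
    conv_lhs => rw [e2]
    rw [mul_smul_comm, smul_mul_assoc, ← mul_assoc]
  unfold β
  rw [e3, e4, map_smul, map_smul, smul_eq_mul, smul_eq_mul]
  ring

end Corr

end Pool.Agent.TH26.Orl
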