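import Pool.Agent.TH26.Orl.Main

/-!
# The inertia of the Mukai form is preserved
-/

set_option linter.unusedSectionVars false

namespace Pool.Agent.TH26.Orl

open Module

namespace Corr

variable {n : ℕ} {C : Corr n}

theorem V_zero (S : Submodule C.E C.E) (g : C.E) : C.V S g 0 = cut S (g * C.π n) := by
  unfold V
  rw [pow_zero, show n - 2 * 0 = n by omega]
  ext x
  simp

/-- The sign of the Mukai form. -/
def σ0 (n : ℕ) : ℚ := (-1 : ℚ) ^ (n / 2)

theorem σ0_sq (n : ℕ) : σ0 n * σ0 n = 1 := by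
  unfold σ0
  rw [← pow_add, ← two_mul, pow_mul]; norm_num

theorem σ_cases {a b : ℚ} (ha : a * a = 1) (hb : b * b = 1) : a = b ∨ a = - b := by
  have : (a - b) * (a + b) = 0 := by linear_combination ha - hb
  rcases mul_eq_zero.mp this with h | h
  · left; linarith
  · right; linarith

theorem ed_sum {g : C.E} (hg : C.Side g) (S : Submodule C.E C.E) {σ : ℚ} (hσ : σ * σ = 1) :
    ed C S g 0 σ + ed C S g 0 (-σ) = d S (g * C.π n) := by
  have h := ed_add (S := S) hg (r := 0) (by omega)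
  rw [show n - 2 * 0 = n by omega] at h
  rcases σ_cases hσ (ε_sq n 0) with h' | h'
  · rw [h']; exact h
  · rw [h', neg_neg, add_comm]; exact h

/-- The dimension of the part of `g S` of the parity of `n`. -/
theorem dim_V {g : C.E} (hg : C.Side g) (S : Submodule C.E C.E) :
    d S (g * C.P (par2 n n)) = 2 * d S (g * C.P (up n)) + d S (g * C.π n) := by
  rw [d_P hg, d_P hg]
  have h1 : par2 n n = (up n ∪ (up n).image (fun i => 2 * n - i)) ∪ {n} := by
    ext i
    simp only [par2, up, Finset.mem_union, Finset.mem_image, Finset.mem_filter, Finset.mem_range,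
      Finset.mem_singleton]
    constructor
    · rintro ⟨h1, h2⟩
      rcases lt_trichotomy i n with h | h | h
      · left; right; exact ⟨2 * n - i, ⟨by omega, by omega, by omega⟩, by omega⟩
      · right; exact h
      · left; left; exact ⟨h1, h2, h⟩
    · rintro ((⟨h1, h2, h3⟩ | ⟨j, ⟨h1, h2, h3⟩, h4⟩) | h)
      · exact ⟨h1, h2⟩
      · exact ⟨by omega, by omega⟩
      · exact ⟨by omega, by omega⟩
  have hd1 : Disjoint (up n ∪ (up n).image (fun i => 2 * n - i)) {n} := by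
    rw [Finset.disjoint_singleton_right]
    simp only [up, Finset.mem_union, Finset.mem_image, Finset.mem_filter, Finset.mem_range]
    rintro (⟨_, _, h⟩ | ⟨j, ⟨_, _, h3⟩, h4⟩) <;> omega
  have hd2 : Disjoint (up n) ((up n).image (fun i => 2 * n - i)) := by
    rw [Finset.disjoint_left]
    intro i hi
    simp only [up, Finset.mem_image, Finset.mem_filter, Finset.mem_range] at hi ⊢
    rintro ⟨j, ⟨_, _, h3⟩, h4⟩
    omega
  rw [h1, Finset.sum_union hd1, Finset.sum_union hd2, Finset.sum_singleton,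
    Finset.sum_image]
  · have : ∑ i ∈ up n, d S (g * C.π (2 * n - i)) = ∑ i ∈ up n, d S (g * C.π i) := by
      apply Finset.sum_congr rfl
      intro i hi
      simp only [up, Finset.mem_filter, Finset.mem_range] at hi
      exact (d_dual hg S (by omega)).symm
    rw [this]; ring
  · intro i hi j hj hij
    simp only [up, Finset.coe_filter, Finset.mem_range, Set.mem_ofPred_eq] at hi hj
    have : 2 * n - i = 2 * n - j := hij
    omega

/-- Upper bound for the dimension of a definite subspace. -/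
theorem def_bound {g : C.E} (hg : C.Side g) (S : Submodule C.E C.E) {σ : ℚ} (hσ : σ * σ = 1)
    (A : Submodule ℚ C.E) (hA : A ≤ cut S (g * C.P (par2 n n)))
    (hpos : ∀ x ∈ A, x ≠ 0 → 0 < σ0 n * σ * C.β x x) :
    finrank ℚ A ≤ d S (g * C.P (up n)) + ed C S g 0 σ := by
  have hinf : ∀ x ∈ cut S (g * C.P (up n)), ∀ y ∈ C.V S g 0 ⊓ C.eig (-σ), C.β x y = 0 := by
    intro x hx y hy
    rw [hg.memP] at hx
    have hy1 := hy.1
    rw [SetLike.mem_coe, V_zero, hg.mem] at hy1
    apply C.β_iso (T := up n) (T' := {n}) _ hx.2.2 (by simpa [P] using hy1.2.2)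
    intro i hi k hk
    simp only [up, Finset.mem_filter, Finset.mem_range] at hi
    rw [Finset.mem_singleton] at hk
    omega
  have h := bound (cut S (g * C.P (par2 n n))) A (cut S (g * C.P (up n)))
    (C.V S g 0 ⊓ C.eig (-σ)) hA ?_ ?_ (fun x y => σ0 n * σ * C.β x y) hpos ?_ ?_
  · have h2 := dim_V hg S
    have h3 := ed_sum hg S hσ
    unfold d at h2
    unfold d ed at h3
    unfold d ed
    omega
  · intro x hx
    rw [hg.memP] at hx ⊢
    refine ⟨hx.1, hx.2.1, ?_⟩
    have : up n ⊆ par2 n n := by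
      intro i hi
      simp only [up, par2, Finset.mem_filter, Finset.mem_range] at hi ⊢
      exact ⟨hi.1, hi.2.1⟩
    rw [← hx.2.2, ← mul_assoc, C.P_P _ _ this]
  · rintro x ⟨hx, _⟩
    rw [SetLike.mem_coe, V_zero, hg.mem] at hx
    rw [hg.memP]
    refine ⟨hx.1, hx.2.1, ?_⟩
    have := C.P_π (par2 n n) n
    have hnn : n ∈ par2 n n := by
      unfold par2
      rw [Finset.mem_filter, Finset.mem_range]
      exact ⟨by omega, rfl⟩
    rw [if_pos hnn] at this
    rw [← hx.2.2, ← mul_assoc, this]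
  · intro f hf u hu
    have e1 : C.β f f = 0 := by
      rw [hg.memP] at hf
      apply C.β_iso (T := up n) (T' := up n) _ hf.2.2 hf.2.2
      intro i hi k hk
      simp only [up, Finset.mem_filter, Finset.mem_range] at hi hk
      omega
    have e2 : C.β f u = 0 := hinf f hf u hu
    have e3 : C.β u f = 0 := by rw [C.β_symm]; exact e2
    have e4 : C.β (f + u) (f + u) = C.β u u := by
      rw [← C.βf_apply, map_add, map_add, LinearMap.add_apply, LinearMap.add_apply, C.βf_apply,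
        C.βf_apply, C.βf_apply, C.βf_apply, e1, e2, e3]
      ring
    rw [e4]
    have hu1 := hu.1
    rw [SetLike.mem_coe, V_zero, hg.mem] at hu1
    by_cases hu0 : u = 0
    · rw [hu0, ← C.βf_apply]; simp
    have e5 := C.β_mid (σ := -σ) (by rw [neg_mul_neg]; exact hσ) hu1.2.2 hu.2
    have e6 := C.pos u hu0
    rw [e5]
    have e7 : σ0 n * σ * (4 * (-1 : ℚ) ^ (n / 2) * -σ * C.τ (C.s * C.t u * C.s * u)) =
        -4 * (σ0 n * σ0 n) * (σ * σ) * C.τ (C.s * C.t u * C.s * u) := by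
      unfold σ0; ring
    rw [e7, σ0_sq, hσ]
    linarith
  · rw [eq_bot_iff]
    rintro x ⟨hx1, hx2⟩
    rw [SetLike.mem_coe, hg.memP] at hx1
    have hx3 := hx2.1
    rw [SetLike.mem_coe, V_zero, hg.mem] at hx3
    have := C.P_π (up n) n
    rw [if_neg (by simp [up])] at this
    have h0 : x = 0 := by
      rw [← hx1.2.2, ← hx3.2.2, ← mul_assoc, this, zero_mul]
    exact h0

/-- Definite subspaces of complementary dimensions. -/
theorem exists_PN (S : Submodule C.E C.E) :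
    ∃ A B : Submodule ℚ C.E, A ≤ cut S (C.e * C.P (par2 n n)) ∧
      B ≤ cut S (C.e * C.P (par2 n n)) ∧ (∀ x ∈ A, x ≠ 0 → 0 < C.β x x) ∧
      (∀ x ∈ B, x ≠ 0 → C.β x x < 0) ∧
      finrank ℚ A + finrank ℚ B = d S (C.e * C.P (par2 n n)) := by
  have hg := C.side_e
  let W := cut S (C.e * C.P (par2 n n))
  let b : LinearMap.BilinForm ℚ W := C.βf.compl₁₂ W.subtype W.subtype
  have hb : ∀ x y : W, b x y = C.β x.1 y.1 := fun x y => rfl
  obtain ⟨A, B, h1, h2, h3⟩ := exists_definite b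
    (fun x y => by rw [hb, hb, C.β_symm]) (by
      intro x hx
      have hx' := hg.memP.mp x.2
      have hmem : C.s * C.G * x.1 ∈ W := by
        change C.s * C.G * x.1 ∈ cut S (C.e * C.P (par2 n n))
        rw [hg.memP]
        refine ⟨lmul_mem S _ hx'.1, ?_, ?_⟩
        · calc C.e * (C.s * C.G * x.1) = (C.e * C.s) * C.G * x.1 := by simp only [mul_assoc]
            _ = C.s * (C.e * C.G) * x.1 := by rw [C.e_s]; simp only [mul_assoc]
            _ = C.s * C.G * (C.e * x.1) := by rw [C.e_G]; simp only [mul_assoc]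
            _ = _ := by rw [hx'.2.1]
        · rw [← mul_assoc, C.par_comm, mul_assoc, hx'.2.2]
      have h := hx ⟨_, hmem⟩
      rw [hb, C.β_symm, C.β_eq] at h
      have h0 : C.s * C.G * x.1 = 0 := by
        by_contra hne
        exact absurd h (ne_of_gt (C.q_pos hne))
      have h4 : C.G * x.1 = 0 := by
        calc C.G * x.1 = (C.s * C.s) * (C.G * x.1) := by rw [C.s_s, one_mul]
          _ = C.s * (C.s * C.G * x.1) := by simp only [mul_assoc]
          _ = 0 := by rw [h0, mul_zero]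
      exact Subtype.ext (C.G_inj hx'.2.2 h4))
  refine ⟨A.map W.subtype, B.map W.subtype, ?_, ?_, ?_, ?_, ?_⟩
  · rintro _ ⟨x, _, rfl⟩; exact x.2
  · rintro _ ⟨x, _, rfl⟩; exact x.2
  · rintro _ ⟨x, hx, rfl⟩ hne
    exact h1 x hx (fun h => hne (by rw [h]; rfl))
  · rintro _ ⟨x, hx, rfl⟩ hne
    exact h2 x hx (fun h => hne (by rw [h]; rfl))
  · rw [Submodule.finrank_map_subtype_eq, Submodule.finrank_map_subtype_eq, h3]
    rfl

theorem FM.φe (Φ : C.FM) : Φ.φ * C.e = Φ.φ := by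
  rw [← Φ.φ_mem, mul_assoc, C.e_e]

theorem FM.e'φ (Φ : C.FM) : (1 - C.e) * Φ.φ = Φ.φ := by
  rw [← Φ.φ_mem, ← mul_assoc, ← mul_assoc, C.side_e'.id]

theorem FM.φ'e' (Φ : C.FM) : Φ.φ' * (1 - C.e) = Φ.φ' := by
  rw [← Φ.φ'_mem, mul_assoc, C.side_e'.id]

theorem FM.eφ' (Φ : C.FM) : C.e * Φ.φ' = Φ.φ' := by
  rw [← Φ.φ'_mem, ← mul_assoc, ← mul_assoc, C.e_e]

/-- The symmetrised isometry. -/
theorem FM.isoG (Φ : C.FM) : C.t Φ.φ * C.G * Φ.φ = C.G * C.e := by
  have h1 := Φ.isom
  have h2 := congrArg C.t h1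
  have h3 : C.t (C.t Φ.φ * C.K * C.ν * Φ.φ) = C.t Φ.φ * C.t (C.K * C.ν) * Φ.φ := by
    rw [mul_assoc (C.t Φ.φ), C.t_mul, C.t_mul, C.t_t, ← mul_assoc]
  have h4 : C.t (C.K * C.ν * C.e) = C.e * C.t (C.K * C.ν) := by
    rw [C.t_mul, C.t_e]
  rw [h3, h4] at h2
  have h5 : C.e * C.t (C.K * C.ν) = C.t (C.K * C.ν) * C.e := by
    have h : C.e * (C.K * C.ν) = (C.K * C.ν) * C.e := by
      rw [← mul_assoc, C.e_K, mul_assoc, C.e_ν, mul_assoc]
    have := congrArg C.t h
    rw [C.t_mul C.e, C.t_mul _ C.e, C.t_e] at this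
    exact this.symm
  rw [h5] at h2
  have h6 : C.t Φ.φ * (C.K * C.ν) * Φ.φ = (C.K * C.ν) * C.e := by
    rw [← h1]; simp only [mul_assoc]
  unfold G
  rw [mul_add, add_mul, add_mul, h2, h6]

theorem FM.β_φ (Φ : C.FM) {x y : C.E} (hx : C.e * x = x) (hy : C.e * y = y) :
    C.β (Φ.φ * x) (Φ.φ * y) = C.β x y := by
  have key : ∀ x y : C.E, C.e * y = y →
      C.s * C.t (Φ.φ * x) * C.G * (Φ.φ * y) = C.s * C.t x * C.G * y := by
    intro x y hy
    calc C.s * C.t (Φ.φ * x) * C.G * (Φ.φ * y)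
        = C.s * C.t x * (C.t Φ.φ * C.G * Φ.φ) * y := by
          rw [C.t_mul]; simp only [mul_assoc]
      _ = C.s * C.t x * C.G * (C.e * y) := by rw [Φ.isoG]; simp only [mul_assoc]
      _ = _ := by rw [hy]
  unfold β
  rw [key x y hy, key y x hx]

/-- Transport of a subspace. -/
theorem FM.transport (Φ : C.FM) (S : Submodule C.E C.E) {A : Submodule ℚ C.E}
    (hA : A ≤ cut S (C.e * C.P (par2 n n))) :
    A.map (LinearMap.mulLeft ℚ Φ.φ) ≤ cut S ((1 - C.e) * C.P (par2 n n)) ∧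
      finrank ℚ (A.map (LinearMap.mulLeft ℚ Φ.φ)) = finrank ℚ A := by
  constructor
  · rintro _ ⟨x, hx, rfl⟩
    have hx' := C.side_e.memP.mp (hA hx)
    rw [C.side_e'.memP, LinearMap.mulLeft_apply]
    refine ⟨lmul_mem S _ hx'.1, ?_, ?_⟩
    · rw [← mul_assoc, Φ.e'φ]
    · rw [← mul_assoc, C.par_comm, mul_assoc, hx'.2.2]
  · have hinj : Function.Injective ((LinearMap.mulLeft ℚ Φ.φ).domRestrict A) := by
      rw [← LinearMap.ker_eq_bot, LinearMap.ker_eq_bot']
      rintro ⟨x, hx⟩ h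
      apply Subtype.ext
      have hx' := C.side_e.memP.mp (hA hx)
      have h' : Φ.φ * x = 0 := h
      calc x = C.e * x := hx'.2.1.symm
        _ = Φ.φ' * (Φ.φ * x) := by rw [← Φ.left, mul_assoc]
        _ = 0 := by rw [h', mul_zero]
    have := LinearMap.finrank_range_of_inj hinj
    rw [LinearMap.range_domRestrict] at this
    exact this

/-- Equality of dimensions of a given parity. -/
theorem FM.d_par (Φ : C.FM) (S : Submodule C.E C.E) (ε : ℕ) :
    d S (C.e * C.P (par2 n ε)) = d S ((1 - C.e) * C.P (par2 n ε)) := by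
  apply d_equ
  have hp := C.P_P (par2 n ε) (par2 n ε) (le_refl _)
  have hc := C.par_comm ε
  refine ⟨Φ.φ * C.P (par2 n ε), Φ.φ' * C.P (par2 n ε), ?_, ?_, ?_, ?_⟩
  · calc (1 - C.e) * C.P (par2 n ε) * (Φ.φ * C.P (par2 n ε)) * (C.e * C.P (par2 n ε))
        = (1 - C.e) * (C.P (par2 n ε) * Φ.φ) * (C.P (par2 n ε) * C.e) * C.P (par2 n ε) := by
          simp only [mul_assoc]
      _ = ((1 - C.e) * Φ.φ) * (C.P (par2 n ε) * C.P (par2 n ε)) *
            (C.e * C.P (par2 n ε)) := by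
          rw [hc]; simp only [mul_assoc]
      _ = Φ.φ * (C.P (par2 n ε) * C.e) * C.P (par2 n ε) := by
          rw [Φ.e'φ, hp]; simp only [mul_assoc]
      _ = (Φ.φ * C.e) * (C.P (par2 n ε) * C.P (par2 n ε)) := by
          rw [hc]; simp only [mul_assoc]
      _ = _ := by rw [Φ.φe, hp]
  · calc C.e * C.P (par2 n ε) * (Φ.φ' * C.P (par2 n ε)) * ((1 - C.e) * C.P (par2 n ε))
        = C.e * (C.P (par2 n ε) * Φ.φ') * (C.P (par2 n ε) * (1 - C.e)) * C.P (par2 n ε) := by
          simp only [mul_assoc]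
      _ = (C.e * Φ.φ') * (C.P (par2 n ε) * C.P (par2 n ε)) *
            ((1 - C.e) * C.P (par2 n ε)) := by
          rw [hc]; simp only [mul_assoc]
      _ = Φ.φ' * (C.P (par2 n ε) * (1 - C.e)) * C.P (par2 n ε) := by
          rw [Φ.eφ', hp]; simp only [mul_assoc]
      _ = (Φ.φ' * (1 - C.e)) * (C.P (par2 n ε) * C.P (par2 n ε)) := by
          rw [hc]; simp only [mul_assoc]
      _ = _ := by rw [Φ.φ'e', hp]
  · calc Φ.φ' * C.P (par2 n ε) * (Φ.φ * C.P (par2 n ε))
        = Φ.φ' * (C.P (par2 n ε) * Φ.φ) * C.P (par2 n ε) := by simp only [mul_assoc]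
      _ = (Φ.φ' * Φ.φ) * (C.P (par2 n ε) * C.P (par2 n ε)) := by
          rw [hc]; simp only [mul_assoc]
      _ = _ := by rw [Φ.left, hp]
  · calc Φ.φ * C.P (par2 n ε) * (Φ.φ' * C.P (par2 n ε))
        = Φ.φ * (C.P (par2 n ε) * Φ.φ') * C.P (par2 n ε) := by simp only [mul_assoc]
      _ = (Φ.φ * Φ.φ') * (C.P (par2 n ε) * C.P (par2 n ε)) := by
          rw [hc]; simp only [mul_assoc]
      _ = _ := by rw [Φ.right, hp]

/-- The inertia relation. -/
theorem FM.inertia (Φ : C.FM) (S : Submodule C.E C.E) {σ : ℚ} (hσ : σ * σ = 1) :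
    d S (C.e * C.P (up n)) + ed C S C.e 0 σ =
      d S ((1 - C.e) * C.P (up n)) + ed C S (1 - C.e) 0 σ := by
  obtain ⟨A, B, hA, hB, hA', hB', hAB⟩ := exists_PN (C := C) S
  have s0 := σ0_sq n
  have s0' : (-σ0 n) * (-σ0 n) = 1 := by rw [neg_mul_neg]; exact s0
  have a1 := def_bound C.side_e S s0 A hA (by
    intro x hx hx0
    rw [s0, one_mul]; exact hA' x hx hx0)
  have b1 := def_bound C.side_e S s0' B hB (by
    intro x hx hx0
    rw [mul_neg, s0, neg_one_mul]
    have := hB' x hx hx0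
    linarith)
  obtain ⟨tA1, tA2⟩ := Φ.transport S hA
  obtain ⟨tB1, tB2⟩ := Φ.transport S hB
  have a2 := def_bound C.side_e' S s0 _ tA1 (by
    rintro _ ⟨x, hx, rfl⟩ hx0
    have hx' := C.side_e.memP.mp (hA hx)
    rw [LinearMap.mulLeft_apply] at hx0 ⊢
    rw [s0, one_mul, Φ.β_φ hx'.2.1 hx'.2.1]
    exact hA' x hx (by rintro rfl; exact hx0 (mul_zero _)))
  have b2 := def_bound C.side_e' S s0' _ tB1 (by
    rintro _ ⟨x, hx, rfl⟩ hx0
    have hx' := C.side_e.memP.mp (hB hx)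
    rw [LinearMap.mulLeft_apply] at hx0 ⊢
    rw [mul_neg, s0, neg_one_mul, Φ.β_φ hx'.2.1 hx'.2.1]
    have := hB' x hx (by rintro rfl; exact hx0 (mul_zero _))
    linarith)
  have v1 := dim_V C.side_e S
  have v2 := dim_V C.side_e' S
  have v3 := Φ.d_par S n
  have w1 := ed_sum C.side_e S s0
  have w2 := ed_sum C.side_e' S s0
  rcases σ_cases hσ s0 with h | h
  · rw [h]; omega
  · rw [h]; omega

end Corr

end Pool.Agent.TH26.Orl
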