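import Pool.Agent.TH26.Orl.Defs

/-!
# The star operator on the middle cohomology

The Lefschetz decomposition computes the dimensions of the eigenspaces of the Lefschetz star
operator on `π n` of a left ideal.
-/

set_option linter.unusedSectionVars false

namespace Pool.Agent.TH26.Orl

open Module

namespace Corr

variable {n : ℕ} (C : Corr n)

theorem π_π (i : ℕ) : C.π i * C.π i = C.π i := by
  by_cases hi : i ∈ Finset.range (2 * n + 1)
  · have h : C.π i * (∑ j ∈ Finset.range (2 * n + 1), C.π j) = C.π i := by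
      rw [C.π_sum, mul_one]
    rw [Finset.mul_sum, Finset.sum_eq_single i] at h
    · exact h
    · intro j _ hj
      exact C.π_orth i j (Ne.symm hj)
    · intro h'; exact absurd hi h'
  · have : C.π i = 0 := C.π_van i (by simpa [Nat.lt_succ_iff] using hi)
    rw [this, zero_mul]

theorem t_one : C.t 1 = 1 := by
  have h := C.t_mul (C.t 1) 1
  rw [mul_one, C.t_t, mul_one] at h
  exact h.symm

theorem L_pow_π (r i : ℕ) : C.L ^ r * C.π i = C.π (i + 2 * r) * C.L ^ r := by
  induction r generalizing i with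
  | zero => simp
  | succ r ih =>
    rw [pow_succ, mul_assoc, C.L_π, ← mul_assoc, ih, mul_assoc]
    congr 2
    ring

theorem c_pow_π (r i : ℕ) : C.c ^ r * C.π i = C.π (i + 2 * r) * C.c ^ r := by
  induction r generalizing i with
  | zero => simp
  | succ r ih =>
    rw [pow_succ, mul_assoc, C.c_π, ← mul_assoc, ih, mul_assoc]
    congr 2
    ring

/-- An idempotent commuting with the structure (the identity of a union of components). -/
structure Side (g : C.E) : Prop where
  id : g * g = g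
  π : ∀ i, g * C.π i = C.π i * g
  L : g * C.L = C.L * g
  s : g * C.s = C.s * g

theorem side_e : C.Side C.e := ⟨C.e_e, C.e_π, C.e_L, C.e_s⟩

theorem side_e' : C.Side (1 - C.e) := by
  refine ⟨?_, ?_, ?_, ?_⟩
  · rw [sub_mul, mul_sub, mul_sub, C.e_e]; simp
  · intro i; rw [sub_mul, mul_sub, C.e_π]; simp
  · rw [sub_mul, mul_sub, C.e_L]; simp
  · rw [sub_mul, mul_sub, C.e_s]; simp

variable {C}

theorem Side.Lp {g : C.E} (hg : C.Side g) (r : ℕ) : g * C.L ^ r = C.L ^ r * g :=
  (Commute.pow_right (show Commute g C.L from hg.L) r)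

theorem Side.idem {g : C.E} (hg : C.Side g) (i : ℕ) : (g * C.π i) * (g * C.π i) = g * C.π i := by
  rw [mul_assoc, ← mul_assoc (C.π i), ← hg.π, mul_assoc, C.π_π, ← mul_assoc, hg.id]

theorem Side.mem {g : C.E} (hg : C.Side g) {S : Submodule C.E C.E} {i : ℕ} {x : C.E} :
    x ∈ cut S (g * C.π i) ↔ x ∈ S ∧ g * x = x ∧ C.π i * x = x := by
  rw [mem_cut]
  constructor
  · rintro ⟨h1, h2⟩
    refine ⟨h1, ?_, ?_⟩
    · rw [← h2, ← mul_assoc, ← mul_assoc, hg.id]
    · rw [← h2, ← mul_assoc, ← mul_assoc, ← hg.π, mul_assoc g, C.π_π]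
  · rintro ⟨h1, h2, h3⟩
    exact ⟨h1, by rw [mul_assoc, h3, h2]⟩

variable (C)

/-- The subspace `L^r` of the degree `n - 2 r` part of `g S`. -/
def V (S : Submodule C.E C.E) (g : C.E) (r : ℕ) : Submodule ℚ C.E :=
  (cut S (g * C.π (n - 2 * r))).map (LinearMap.mulLeft ℚ (C.L ^ r))

/-- Eigenspace of the star operator. -/
def eig (σ : ℚ) : Submodule ℚ C.E where
  carrier := {x | C.s * x = σ • x}
  add_mem' := by
    intro a b ha hb
    change C.s * (a + b) = σ • (a + b)
    rw [mul_add, smul_add]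
    exact congrArg₂ _ ha hb
  zero_mem' := by
    change C.s * 0 = σ • (0 : C.E)
    rw [mul_zero, smul_zero]
  smul_mem' := by
    intro a x hx
    change C.s * (a • x) = σ • (a • x)
    rw [mul_smul_comm, show C.s * x = σ • x from hx, smul_comm]

/-- The sign of the star operator on `L^r P^{n - 2 r}`. -/
def ε (n r : ℕ) : ℚ := (-1 : ℚ) ^ ((n - 2 * r) * (n - 2 * r + 1) / 2)

theorem ε_sq (n r : ℕ) : ε n r * ε n r = 1 := by
  unfold ε
  rw [← pow_add, ← two_mul, pow_mul]; norm_num

theorem ε_succ {n r : ℕ} (h : 2 * (r + 1) ≤ n) : ε n (r + 1) = - ε n r := by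
  unfold ε
  obtain ⟨i, hi⟩ : ∃ i, n = i + 2 * (r + 1) := ⟨n - 2 * (r + 1), by omega⟩
  have e1 : n - 2 * (r + 1) = i := by omega
  have e2 : n - 2 * r = i + 2 := by omega
  rw [e1, e2]
  have e3 : (i + 2) * (i + 2 + 1) / 2 = i * (i + 1) / 2 + (2 * i + 3) := by
    have : (i + 2) * (i + 2 + 1) = i * (i + 1) + (2 * i + 3) * 2 := by ring
    rw [this, Nat.add_mul_div_right _ _ (by norm_num)]
  rw [e3, pow_add, pow_add, pow_mul]
  norm_num

variable {C} {S : Submodule C.E C.E} {g : C.E}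

theorem V_succ_le (hg : C.Side g) {r : ℕ} (h : 2 * (r + 1) ≤ n) : C.V S g (r + 1) ≤ C.V S g r := by
  rintro y ⟨x, hx, rfl⟩
  rw [SetLike.mem_coe, hg.mem] at hx
  obtain ⟨h1, h2, h3⟩ := hx
  refine ⟨C.L * x, ?_, ?_⟩
  · rw [SetLike.mem_coe, hg.mem]
    refine ⟨lmul_mem S _ h1, ?_, ?_⟩
    · rw [← mul_assoc, hg.L, mul_assoc, h2]
    · have := C.L_π (n - 2 * (r + 1))
      rw [show n - 2 * (r + 1) + 2 = n - 2 * r by omega] at this
      rw [← mul_assoc, ← this, mul_assoc, h3]
  · simp only [LinearMap.mulLeft_apply]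
    rw [← mul_assoc, ← pow_succ]

/-- `L^{n - i}` is injective on the degree `i` part. -/
theorem L_inj {i : ℕ} (hi : i ≤ n) {x : C.E} (hx : C.π i * x = x) {r : ℕ} (hr : i + r ≤ n)
    (h : C.L ^ r * x = 0) : x = 0 := by
  obtain ⟨m, hm, -⟩ := C.hl i hi
  have h1 : C.L ^ (n - i) * x = 0 := by
    rw [show n - i = (n - i - r) + r by omega, pow_add, mul_assoc, h, mul_zero]
  calc x = C.π i * x := hx.symm
    _ = m * C.L ^ (n - i) * C.π i * x := by rw [hm]
    _ = m * (C.L ^ (n - i) * (C.π i * x)) := by simp only [mul_assoc]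
    _ = 0 := by rw [hx, h1, mul_zero]

theorem V_step (hg : C.Side g) : ∀ (k r : ℕ), 2 * r ≤ n → n / 2 - r = k →
    ∀ y ∈ C.V S g r, (C.s * y ∈ C.V S g r) ∧
      (2 * (r + 1) ≤ n → C.s * y - ε n r • y ∈ C.V S g (r + 1)) ∧
      (n < 2 * (r + 1) → C.s * y = ε n r • y) := by
  intro k
  induction k with
  | zero =>
    intro r hr hk y hy
    have hn : n < 2 * (r + 1) := by omega
    obtain ⟨x, hx, rfl⟩ := hy
    rw [SetLike.mem_coe, hg.mem] at hx
    obtain ⟨h1, h2, h3⟩ := hx
    simp only [LinearMap.mulLeft_apply]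
    have hprim : C.L ^ (n - (n - 2 * r) + 1) * x = 0 := by
      rw [← h3, ← mul_assoc, C.L_pow_π, C.π_van _ (by omega), zero_mul, zero_mul]
    have hs := C.s_prim (n - 2 * r) r (by omega) x h3 hprim
    rw [show n - (n - 2 * r) - r = r by omega] at hs
    have hs' : C.s * (C.L ^ r * x) = ε n r • (C.L ^ r * x) := hs
    refine ⟨?_, fun h => by omega, fun _ => hs'⟩
    rw [hs']
    exact Submodule.smul_mem _ _ ⟨x, hg.mem.mpr ⟨h1, h2, h3⟩, rfl⟩
  | succ k ih =>
    intro r hr hk y hy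
    have hn : 2 * (r + 1) ≤ n := by omega
    obtain ⟨x, hx, rfl⟩ := hy
    rw [SetLike.mem_coe, hg.mem] at hx
    obtain ⟨h1, h2, h3⟩ := hx
    simp only [LinearMap.mulLeft_apply]
    -- `i = n - 2 r ≥ 2`
    obtain ⟨i, hi⟩ : ∃ i, n - 2 * r = i + 2 := ⟨n - 2 * r - 2, by omega⟩
    rw [hi] at h3
    have hi' : n - 2 * (r + 1) = i := by omega
    obtain ⟨m, -, hm⟩ := C.hl i (by omega)
    -- `b` with `L^{n - i} b = L^{n - i - 1} x`
    let z : C.E := C.L ^ (n - i - 1) * x
    have hz1 : C.π (2 * n - i) * z = z := by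
      have := C.L_pow_π (n - i - 1) (i + 2)
      rw [show i + 2 + 2 * (n - i - 1) = 2 * n - i by omega] at this
      change C.π (2 * n - i) * (C.L ^ (n - i - 1) * x) = C.L ^ (n - i - 1) * x
      rw [← mul_assoc, ← this, mul_assoc, h3]
    have hz2 : g * z = z := by
      change g * (C.L ^ (n - i - 1) * x) = C.L ^ (n - i - 1) * x
      rw [← mul_assoc, hg.Lp, mul_assoc, h2]
    let b : C.E := g * (C.π i * (m * z))
    have hbS : b ∈ S := lmul_mem S _ (lmul_mem S _ (lmul_mem S _ (lmul_mem S _ h1)))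
    have hbg : g * b = b := by
      change g * (g * (C.π i * (m * z))) = g * (C.π i * (m * z))
      rw [← mul_assoc, hg.id]
    have hbπ : C.π i * b = b := by
      change C.π i * (g * (C.π i * (m * z))) = g * (C.π i * (m * z))
      rw [← mul_assoc, ← hg.π, mul_assoc, ← mul_assoc (C.π i) (C.π i), C.π_π]
    have hbL : C.L ^ (n - i) * b = z := by
      change C.L ^ (n - i) * (g * (C.π i * (m * z))) = z
      have e1 := C.L_pow_π (n - i) i
      rw [show i + 2 * (n - i) = 2 * n - i by omega] at e1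
      calc C.L ^ (n - i) * (g * (C.π i * (m * z)))
          = g * ((C.L ^ (n - i) * C.π i) * (m * z)) := by
            rw [← mul_assoc, ← hg.Lp]; simp only [mul_assoc]
        _ = g * (C.π (2 * n - i) * (C.L ^ (n - i) * m * (C.π (2 * n - i) * z))) := by
            rw [e1, hz1]; simp only [mul_assoc]
        _ = g * (C.π (2 * n - i) * ((C.L ^ (n - i) * m * C.π (2 * n - i)) * z)) := by
            simp only [mul_assoc]
        _ = z := by rw [hm, hz1, hz1, hz2]
    -- primitive part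
    let a : C.E := x - C.L * b
    have hLbπ : C.π (i + 2) * (C.L * b) = C.L * b := by
      rw [← mul_assoc, ← C.L_π, mul_assoc, hbπ]
    have haπ : C.π (i + 2) * a = a := by
      change C.π (i + 2) * (x - C.L * b) = x - C.L * b
      rw [mul_sub, h3, hLbπ]
    have haL : C.L ^ (n - (i + 2) + 1) * a = 0 := by
      change C.L ^ (n - (i + 2) + 1) * (x - C.L * b) = 0
      rw [mul_sub, ← mul_assoc, ← pow_succ, show n - (i + 2) + 1 + 1 = n - i by omega, hbL,
        show n - (i + 2) + 1 = n - i - 1 by omega]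
      exact sub_self _
    have hs := C.s_prim (i + 2) r (by omega) a haπ haL
    rw [show n - (i + 2) - r = r by omega] at hs
    have hs' : C.s * (C.L ^ r * a) = ε n r • (C.L ^ r * a) := by
      unfold ε; rw [hi]; exact hs
    have hbV : C.L ^ (r + 1) * b ∈ C.V S g (r + 1) :=
      ⟨b, by rw [SetLike.mem_coe, hg.mem, hi']; exact ⟨hbS, hbg, hbπ⟩, rfl⟩
    have hxab : C.L ^ r * x = C.L ^ r * a + C.L ^ (r + 1) * b := by
      change C.L ^ r * x = C.L ^ r * (x - C.L * b) + C.L ^ (r + 1) * b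
      rw [mul_sub, ← mul_assoc, ← pow_succ]; abel
    have hstab := (ih (r + 1) hn (by omega) _ hbV).1
    have hdiff : C.s * (C.L ^ r * x) - ε n r • (C.L ^ r * x) ∈ C.V S g (r + 1) := by
      have : C.s * (C.L ^ r * x) - ε n r • (C.L ^ r * x) =
          C.s * (C.L ^ (r + 1) * b) - ε n r • (C.L ^ (r + 1) * b) := by
        rw [hxab, mul_add, hs', smul_add]; abel
      rw [this]
      exact Submodule.sub_mem _ hstab (Submodule.smul_mem _ _ hbV)
    refine ⟨?_, fun _ => hdiff, fun h => by omega⟩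
    have hy' : C.L ^ r * x ∈ C.V S g r :=
      ⟨x, hg.mem.mpr ⟨h1, h2, by rw [hi]; exact h3⟩, rfl⟩
    have := Submodule.add_mem _ (V_succ_le hg hn hdiff) (Submodule.smul_mem _ (ε n r) hy')
    rwa [sub_add_cancel] at this

/-- Dimension of the `σ`-eigenspace of the star operator on `V r`. -/
noncomputable def ed (C : Corr n) (S : Submodule C.E C.E) (g : C.E) (r : ℕ) (σ : ℚ) : ℕ :=
  finrank ℚ (C.V S g r ⊓ C.eig σ : Submodule ℚ C.E)

theorem finrank_V (hg : C.Side g) {r : ℕ} (hr : 2 * r ≤ n) :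
    finrank ℚ (C.V S g r) = d S (g * C.π (n - 2 * r)) := by
  unfold V d
  have hinj : Function.Injective ((LinearMap.mulLeft ℚ (C.L ^ r)).domRestrict
      (cut S (g * C.π (n - 2 * r)))) := by
    rw [← LinearMap.ker_eq_bot, LinearMap.ker_eq_bot']
    rintro ⟨x, hx⟩ h
    rw [hg.mem] at hx
    apply Subtype.ext
    exact L_inj (i := n - 2 * r) (by omega) hx.2.2 (r := r) (by omega) h
  have := LinearMap.finrank_range_of_inj hinj
  rw [LinearMap.range_domRestrict] at this
  exact this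

theorem ed_add (hg : C.Side g) {r : ℕ} (hr : 2 * r ≤ n) :
    ed C S g r (ε n r) + ed C S g r (- ε n r) = d S (g * C.π (n - 2 * r)) := by
  rw [← finrank_V hg hr]
  unfold ed
  have hinf : (C.V S g r ⊓ C.eig (ε n r)) ⊓ (C.V S g r ⊓ C.eig (- ε n r)) = ⊥ := by
    rw [eq_bot_iff]
    rintro x ⟨⟨_, hx1⟩, ⟨_, hx2⟩⟩
    have h1 : C.s * x = ε n r • x := hx1
    have h2 : C.s * x = (- ε n r) • x := hx2
    have h3 : (2 * ε n r) • x = 0 := by
      rw [two_mul, add_smul, ← h1]
      nth_rw 1 [h2]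
      rw [h1, neg_smul]; abel
    have h4 : (2 * ε n r) ≠ 0 := by
      intro h
      have := ε_sq n r
      have h0 : ε n r = 0 := by linarith
      rw [h0] at this
      norm_num at this
    exact (smul_eq_zero.mp h3).resolve_left h4
  have hsup : (C.V S g r ⊓ C.eig (ε n r)) ⊔ (C.V S g r ⊓ C.eig (- ε n r)) = C.V S g r := by
    apply le_antisymm (sup_le inf_le_left inf_le_left)
    intro y hy
    have hsy := (V_step hg _ r hr rfl y hy).1
    rw [Submodule.mem_sup]
    have hss : C.s * (C.s * y) = y := by rw [← mul_assoc, C.s_s, one_mul]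
    have hε := ε_sq n r
    refine ⟨(1 / 2 : ℚ) • (y + ε n r • (C.s * y)), ⟨?_, ?_⟩,
      (1 / 2 : ℚ) • (y - ε n r • (C.s * y)), ⟨?_, ?_⟩, ?_⟩
    · exact Submodule.smul_mem _ _ (Submodule.add_mem _ hy (Submodule.smul_mem _ _ hsy))
    · change C.s * ((1 / 2 : ℚ) • (y + ε n r • (C.s * y))) =
        ε n r • ((1 / 2 : ℚ) • (y + ε n r • (C.s * y)))
      rw [mul_smul_comm, mul_add, mul_smul_comm, hss]
      calc (1 / 2 : ℚ) • (C.s * y + ε n r • y)
          = (1 / 2 * ε n r) • y + (1 / 2 * 1 : ℚ) • (C.s * y) := by module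
        _ = (1 / 2 * ε n r) • y + (1 / 2 * (ε n r * ε n r) : ℚ) • (C.s * y) := by rw [hε]
        _ = _ := by module
    · exact Submodule.smul_mem _ _ (Submodule.sub_mem _ hy (Submodule.smul_mem _ _ hsy))
    · change C.s * ((1 / 2 : ℚ) • (y - ε n r • (C.s * y))) =
        (- ε n r) • ((1 / 2 : ℚ) • (y - ε n r • (C.s * y)))
      rw [mul_smul_comm, mul_sub, mul_smul_comm, hss]
      calc (1 / 2 : ℚ) • (C.s * y - ε n r • y)
          = - ((1 / 2 * ε n r) • y) + (1 / 2 * 1 : ℚ) • (C.s * y) := by module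
        _ = - ((1 / 2 * ε n r) • y) + (1 / 2 * (ε n r * ε n r) : ℚ) • (C.s * y) := by rw [hε]
        _ = _ := by module
    · rw [← smul_add, add_add_sub_cancel, ← two_smul ℚ y, smul_smul]
      norm_num
  have := Submodule.finrank_sup_add_finrank_inf_eq (C.V S g r ⊓ C.eig (ε n r))
    (C.V S g r ⊓ C.eig (- ε n r))
  rw [hinf, hsup, finrank_bot, add_zero] at this
  exact this.symm

theorem ed_succ (hg : C.Side g) {r : ℕ} (hr : 2 * (r + 1) ≤ n) :
    ed C S g r (- ε n r) = ed C S g (r + 1) (ε n (r + 1)) := by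
  unfold ed
  rw [ε_succ hr]
  have : C.V S g r ⊓ C.eig (- ε n r) = C.V S g (r + 1) ⊓ C.eig (- ε n r) := by
    apply le_antisymm
    · rintro y ⟨hy, hy'⟩
      refine ⟨?_, hy'⟩
      have h1 := (V_step hg _ r (by omega) rfl y hy).2.1 hr
      rw [show C.s * y = (- ε n r) • y from hy'] at h1
      have h2 : (- ε n r) • y - ε n r • y = (-2 * ε n r) • y := by
        rw [← sub_smul]; congr 1; ring
      rw [h2] at h1
      have h3 := Submodule.smul_mem _ (-(1/2) * ε n r) h1
      rw [smul_smul] at h3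
      have h4 : -(1/2) * ε n r * (-2 * ε n r) = 1 := by
        have := ε_sq n r
        linear_combination this
      rwa [h4, one_smul] at h3
    · exact inf_le_inf_right _ (V_succ_le hg hr)
  rw [this]

theorem ed_last (hg : C.Side g) {r : ℕ} (hr : 2 * r ≤ n) (hr' : n < 2 * (r + 1)) :
    ed C S g r (- ε n r) = 0 := by
  unfold ed
  rw [Submodule.finrank_eq_zero, eq_bot_iff]
  rintro y ⟨hy, hy'⟩
  have h1 := (V_step hg _ r hr rfl y hy).2.2 hr'
  rw [show C.s * y = (- ε n r) • y from hy'] at h1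
  have h3 : (2 * ε n r) • y = 0 := by
    rw [two_mul, add_smul]
    nth_rw 1 [← h1]
    rw [neg_smul]; abel
  have h4 : (2 * ε n r) ≠ 0 := by
    intro h
    have := ε_sq n r
    have h0 : ε n r = 0 := by linarith
    rw [h0] at this
    norm_num at this
  exact (smul_eq_zero.mp h3).resolve_left h4

/-- The dimension of the `(-ε_0)`-eigenspace of the star operator on the middle degree. -/
theorem ed_formula (hg : C.Side g) : ∀ k r : ℕ, 2 * r ≤ n → n / 2 - r = k →
    (ed C S g r (- ε n r) : ℤ) =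
      ∑ j ∈ Finset.range k, (-1 : ℤ) ^ j * (d S (g * C.π (n - 2 * (r + 1 + j))) : ℤ) := by
  intro k
  induction k with
  | zero =>
    intro r hr hk
    rw [ed_last hg hr (by omega)]
    simp
  | succ k ih =>
    intro r hr hk
    have hn : 2 * (r + 1) ≤ n := by omega
    rw [ed_succ hg hn]
    have h1 := ed_add (S := S) hg hn
    have h2 := ih (r + 1) hn (by omega)
    rw [Finset.sum_range_succ']
    have h3 : ∑ j ∈ Finset.range k, (-1 : ℤ) ^ (j + 1) *
        (d S (g * C.π (n - 2 * (r + 1 + (j + 1)))) : ℤ) = - (ed C S g (r + 1) (- ε n (r + 1)) : ℤ) := by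
      rw [h2, ← Finset.sum_neg_distrib]
      apply Finset.sum_congr rfl
      intro j _
      rw [pow_succ, show r + 1 + (j + 1) = r + 1 + 1 + j by ring]
      ring
    rw [h3]
    push_cast [← h1]
    simp
    
end Corr

end Pool.Agent.TH26.Orl
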