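import Pool.Agent.TH26.Orl.Thm

/-!
# From numerical equivalence to Chow motives
-/

set_option linter.unusedSectionVars false

namespace Pool.Agent.TH26.Orl

open Module

namespace Corr

variable {n : ℕ} {C : Corr n}

/-- Assembling the isomorphisms of the `h^i` into one of degree zero. -/
theorem assemble (h : ∀ i, Equ (C.hX i) (C.hX' i)) :
    ∃ u v : C.E, (1 - C.e) * u * C.e = u ∧ C.e * v * (1 - C.e) = v ∧ v * u = C.e ∧
      u * v = 1 - C.e ∧ (∀ i, u * C.π i = C.π i * u) ∧ (∀ i, v * C.π i = C.π i * v) := by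
  choose u v h1 h2 h3 h4 using h
  have ge := C.side_e
  have ge' := C.side_e'
  -- elementary relations
  have hu1 : ∀ i, C.π i * u i = u i := by
    intro i
    rw [← h1 i]
    unfold hX'
    calc C.π i * ((1 - C.e) * C.π i * u i * C.hX i)
        = (C.π i * (1 - C.e)) * C.π i * u i * C.hX i := by simp only [mul_assoc]
      _ = (1 - C.e) * (C.π i * C.π i) * u i * C.hX i := by
          rw [← ge'.π]; simp only [mul_assoc]
      _ = _ := by rw [C.π_π]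
  have hu2 : ∀ i, u i * C.π i = u i := by
    intro i
    rw [← h1 i]
    unfold hX
    simp only [mul_assoc, C.π_π]
  have hu3 : ∀ i, (1 - C.e) * u i = u i := by
    intro i
    rw [← h1 i]
    unfold hX'
    simp only [← mul_assoc, ge'.id]
  have hu4 : ∀ i, u i * C.e = u i := by
    intro i
    rw [← h1 i]
    unfold hX
    calc C.hX' i * u i * (C.e * C.π i) * C.e = C.hX' i * u i * (C.e * (C.π i * C.e)) := by
          simp only [mul_assoc]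
      _ = C.hX' i * u i * ((C.e * C.e) * C.π i) := by
          rw [← C.e_π]; simp only [mul_assoc]
      _ = _ := by rw [C.e_e]
  have hv1 : ∀ i, C.π i * v i = v i := by
    intro i
    rw [← h2 i]
    unfold hX
    calc C.π i * (C.e * C.π i * v i * C.hX' i)
        = (C.π i * C.e) * C.π i * v i * C.hX' i := by simp only [mul_assoc]
      _ = C.e * (C.π i * C.π i) * v i * C.hX' i := by
          rw [← C.e_π]; simp only [mul_assoc]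
      _ = _ := by rw [C.π_π]
  have hv2 : ∀ i, v i * C.π i = v i := by
    intro i
    rw [← h2 i]
    unfold hX'
    simp only [mul_assoc, C.π_π]
  have hv3 : ∀ i, C.e * v i = v i := by
    intro i
    rw [← h2 i]
    unfold hX
    simp only [← mul_assoc, C.e_e]
  have hv4 : ∀ i, v i * (1 - C.e) = v i := by
    intro i
    rw [← h2 i]
    unfold hX'
    calc C.hX i * v i * ((1 - C.e) * C.π i) * (1 - C.e)
        = C.hX i * v i * ((1 - C.e) * (C.π i * (1 - C.e))) := by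
          simp only [mul_assoc]
      _ = C.hX i * v i * (((1 - C.e) * (1 - C.e)) * C.π i) := by
          rw [← ge'.π]; simp only [mul_assoc]
      _ = _ := by rw [ge'.id]
  have hout : ∀ i, 2 * n < i → u i = 0 := by
    intro i hi
    rw [← hu1 i, C.π_van i hi, zero_mul]
  have hout' : ∀ i, 2 * n < i → v i = 0 := by
    intro i hi
    rw [← hv1 i, C.π_van i hi, zero_mul]
  have sum_π_right : ∀ (w : ℕ → C.E), (∀ i, w i * C.π i = w i) → (∀ i, C.π i * w i = w i) →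
      (∀ i, 2 * n < i → w i = 0) → ∀ k, (∑ i ∈ Finset.range (2 * n + 1), w i) * C.π k = w k ∧
        C.π k * (∑ i ∈ Finset.range (2 * n + 1), w i) = w k := by
    intro w hw1 hw2 hw3 k
    rw [Finset.sum_mul, Finset.mul_sum]
    by_cases hk : k ∈ Finset.range (2 * n + 1)
    · rw [Finset.sum_eq_single k, Finset.sum_eq_single k]
      · exact ⟨hw1 k, hw2 k⟩
      · intro j _ hj
        rw [← hw2 j, ← mul_assoc, C.π_orth k j (Ne.symm hj), zero_mul]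
      · intro h; exact absurd hk h
      · intro j _ hj
        rw [← hw1 j, mul_assoc, C.π_orth j k hj, mul_zero]
      · intro h; exact absurd hk h
    · have hk' : 2 * n < k := by simpa [Nat.lt_succ_iff] using hk
      rw [C.π_van k hk', hw3 k hk']
      simp
  have U := sum_π_right u hu2 hu1 hout
  have W := sum_π_right v hv2 hv1 hout'
  refine ⟨∑ i ∈ Finset.range (2 * n + 1), u i, ∑ i ∈ Finset.range (2 * n + 1), v i,
    ?_, ?_, ?_, ?_, fun i => by rw [(U i).1, (U i).2], fun i => by rw [(W i).1, (W i).2]⟩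
  · rw [Finset.mul_sum, Finset.sum_mul]
    exact Finset.sum_congr rfl fun i _ => by rw [hu3, hu4]
  · rw [Finset.mul_sum, Finset.sum_mul]
    exact Finset.sum_congr rfl fun i _ => by rw [hv3, hv4]
  · have key : (∑ i ∈ Finset.range (2 * n + 1), v i) * (∑ i ∈ Finset.range (2 * n + 1), u i) =
        ∑ i ∈ Finset.range (2 * n + 1), C.e * C.π i := by
      rw [Finset.mul_sum]
      apply Finset.sum_congr rfl
      intro k _
      rw [← hu1 k, ← mul_assoc, (W k).1, h3 k]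
      rfl
    rw [key, ← Finset.mul_sum, C.π_sum, mul_one]
  · have key : (∑ i ∈ Finset.range (2 * n + 1), u i) * (∑ i ∈ Finset.range (2 * n + 1), v i) =
        ∑ i ∈ Finset.range (2 * n + 1), (1 - C.e) * C.π i := by
      rw [Finset.mul_sum]
      apply Finset.sum_congr rfl
      intro k _
      rw [← hv1 k, ← mul_assoc, (U k).1, h4 k]
      rfl
    rw [key, ← Finset.mul_sum, C.π_sum, mul_one]

/-- Lifting an isomorphism of numerical motives to Chow motives. -/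
theorem Chow.lift (𝒜 : C.Chow) {u v : C.E} (hu : (1 - C.e) * u * C.e = u)
    (hv : C.e * v * (1 - C.e) = v) (hvu : v * u = C.e) (huv : u * v = 1 - C.e)
    (hu' : ∀ i, u * C.π i = C.π i * u) (hv' : ∀ i, v * C.π i = C.π i * v) :
    ∃ Z Z' : 𝒜.A, (1 - 𝒜.Δ) * Z * 𝒜.Δ = Z ∧ 𝒜.Δ * Z' * (1 - 𝒜.Δ) = Z' ∧ Z' * Z = 𝒜.Δ ∧
      Z * Z' = 1 - 𝒜.Δ := by
  obtain ⟨Z0, hZ0⟩ := 𝒜.surj u hu'
  obtain ⟨Z0', hZ0'⟩ := 𝒜.surj v hv'
  have hΔ := 𝒜.Δ_Δ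
  have hΔ' : (1 - 𝒜.Δ) * (1 - 𝒜.Δ) = 1 - 𝒜.Δ := by
    rw [sub_mul, mul_sub, mul_sub, hΔ]; simp
  -- cut down
  let Z : 𝒜.A := (1 - 𝒜.Δ) * Z0 * 𝒜.Δ
  let Y : 𝒜.A := 𝒜.Δ * Z0' * (1 - 𝒜.Δ)
  have hZ1 : (1 - 𝒜.Δ) * Z = Z := by
    change (1 - 𝒜.Δ) * ((1 - 𝒜.Δ) * Z0 * 𝒜.Δ) = (1 - 𝒜.Δ) * Z0 * 𝒜.Δ
    rw [← mul_assoc, ← mul_assoc, hΔ']
  have hZ2 : Z * 𝒜.Δ = Z := by
    change (1 - 𝒜.Δ) * Z0 * 𝒜.Δ * 𝒜.Δ = (1 - 𝒜.Δ) * Z0 * 𝒜.Δ
    rw [mul_assoc, hΔ]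
  have hY1 : 𝒜.Δ * Y = Y := by
    change 𝒜.Δ * (𝒜.Δ * Z0' * (1 - 𝒜.Δ)) = 𝒜.Δ * Z0' * (1 - 𝒜.Δ)
    rw [← mul_assoc, ← mul_assoc, hΔ]
  have hY2 : Y * (1 - 𝒜.Δ) = Y := by
    change 𝒜.Δ * Z0' * (1 - 𝒜.Δ) * (1 - 𝒜.Δ) = 𝒜.Δ * Z0' * (1 - 𝒜.Δ)
    rw [mul_assoc, hΔ']
  have hcZ : 𝒜.cl Z = u := by
    change 𝒜.cl ((1 - 𝒜.Δ) * Z0 * 𝒜.Δ) = u
    rw [map_mul, map_mul, map_sub, map_one, 𝒜.cl_Δ, hZ0, hu]
  have hcY : 𝒜.cl Y = v := by
    change 𝒜.cl (𝒜.Δ * Z0' * (1 - 𝒜.Δ)) = v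
    rw [map_mul, map_mul, map_sub, map_one, 𝒜.cl_Δ, hZ0', hv]
  let N : 𝒜.A := 𝒜.Δ - Y * Z
  have hN : IsNilpotent N := by
    apply 𝒜.nil
    change 𝒜.cl (𝒜.Δ - Y * Z) = 0
    rw [map_sub, map_mul, hcZ, hcY, hvu, 𝒜.cl_Δ, sub_self]
  have hN1 : 𝒜.Δ * N = N := by
    change 𝒜.Δ * (𝒜.Δ - Y * Z) = 𝒜.Δ - Y * Z
    rw [mul_sub, hΔ, ← mul_assoc, hY1]
  have hN2 : N * 𝒜.Δ = N := by
    change (𝒜.Δ - Y * Z) * 𝒜.Δ = 𝒜.Δ - Y * Z
    rw [sub_mul, hΔ, mul_assoc, hZ2]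
  obtain ⟨w, hw⟩ := hN.isUnit_one_sub
  have hcomm : (w : 𝒜.A) * 𝒜.Δ = 𝒜.Δ * w := by
    rw [hw, sub_mul, mul_sub, hN1, hN2, one_mul, mul_one]
  have hcomm' : (↑w⁻¹ : 𝒜.A) * 𝒜.Δ = 𝒜.Δ * ↑w⁻¹ := by
    have h1 : (↑w⁻¹ : 𝒜.A) * ((w : 𝒜.A) * 𝒜.Δ) * ↑w⁻¹ = ↑w⁻¹ * (𝒜.Δ * w) * ↑w⁻¹ := by
      rw [hcomm]
    have h2 : (↑w⁻¹ : 𝒜.A) * ((w : 𝒜.A) * 𝒜.Δ) * ↑w⁻¹ = 𝒜.Δ * ↑w⁻¹ := by
      rw [← mul_assoc, Units.inv_mul, one_mul]
    have h3 : (↑w⁻¹ : 𝒜.A) * (𝒜.Δ * w) * ↑w⁻¹ = ↑w⁻¹ * 𝒜.Δ := by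
      rw [mul_assoc, mul_assoc, Units.mul_inv, mul_one]
    rw [h2, h3] at h1
    exact h1.symm
  have hclw : 𝒜.cl (↑w⁻¹ : 𝒜.A) = 1 := by
    have h1 : 𝒜.cl (w : 𝒜.A) = 1 := by
      rw [hw, map_sub, map_one]
      have : 𝒜.cl N = 0 := by
        change 𝒜.cl (𝒜.Δ - Y * Z) = 0
        rw [map_sub, map_mul, hcZ, hcY, hvu, 𝒜.cl_Δ, sub_self]
      rw [this, sub_zero]
    have h2 : 𝒜.cl ((↑w⁻¹ : 𝒜.A) * (w : 𝒜.A)) = 1 := by rw [Units.inv_mul, map_one]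
    rw [map_mul, h1, mul_one] at h2
    exact h2
  let Z' : 𝒜.A := ↑w⁻¹ * Y
  have hZ'1 : 𝒜.Δ * Z' = Z' := by
    change 𝒜.Δ * (↑w⁻¹ * Y) = ↑w⁻¹ * Y
    rw [← mul_assoc, ← hcomm', mul_assoc, hY1]
  have hZ'2 : Z' * (1 - 𝒜.Δ) = Z' := by
    change ↑w⁻¹ * Y * (1 - 𝒜.Δ) = ↑w⁻¹ * Y
    rw [mul_assoc, hY2]
  have hZ'Z : Z' * Z = 𝒜.Δ := by
    change ↑w⁻¹ * Y * Z = 𝒜.Δ
    have : Y * Z = (w : 𝒜.A) * 𝒜.Δ := by
      rw [hw, sub_mul, one_mul, hN2]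
      change Y * Z = 𝒜.Δ - (𝒜.Δ - Y * Z)
      abel
    rw [mul_assoc, this, ← mul_assoc, Units.inv_mul, one_mul]
  have hf : Z * Z' = 1 - 𝒜.Δ := by
    let f : 𝒜.A := Z * Z'
    have hff : f * f = f := by
      change Z * Z' * (Z * Z') = Z * Z'
      calc Z * Z' * (Z * Z') = Z * (Z' * Z) * Z' := by simp only [mul_assoc]
        _ = _ := by rw [hZ'Z, hZ2]
    have hf1 : (1 - 𝒜.Δ) * f = f := by
      change (1 - 𝒜.Δ) * (Z * Z') = Z * Z'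
      rw [← mul_assoc, hZ1]
    have hf2 : f * (1 - 𝒜.Δ) = f := by
      change Z * Z' * (1 - 𝒜.Δ) = Z * Z'
      rw [mul_assoc, hZ'2]
    have hg : IsNilpotent ((1 - 𝒜.Δ) - f) := by
      apply 𝒜.nil
      have : 𝒜.cl f = 1 - C.e := by
        change 𝒜.cl (Z * Z') = 1 - C.e
        rw [map_mul 𝒜.cl Z Z', show 𝒜.cl Z' = 𝒜.cl (↑w⁻¹ : 𝒜.A) * 𝒜.cl Y from map_mul _ _ _,
          hclw, one_mul, hcZ, hcY, huv]
      rw [map_sub, map_sub, map_one, 𝒜.cl_Δ, this, sub_self]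
    have hgg : ((1 - 𝒜.Δ) - f) * ((1 - 𝒜.Δ) - f) = (1 - 𝒜.Δ) - f := by
      have aux : ∀ a b : 𝒜.A, a * a = a → a * b = b → b * a = b → b * b = b →
          (a - b) * (a - b) = a - b := by
        intro a b h1 h2 h3 h4
        rw [sub_mul, mul_sub, mul_sub, h1, h2, h3, h4]; abel
      exact aux _ _ hΔ' hf1 hf2 hff
    obtain ⟨k, hk⟩ := hg
    have hpow : ∀ k, ((1 - 𝒜.Δ) - f) ^ (k + 1) = (1 - 𝒜.Δ) - f := by
      intro k
      induction k with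
      | zero => rw [zero_add, pow_one]
      | succ k ih => rw [pow_succ, ih, hgg]
    have h0 : (1 - 𝒜.Δ) - f = 0 := by
      rw [← hpow k, pow_succ, hk, zero_mul]
    change f = 1 - 𝒜.Δ
    rw [sub_eq_zero] at h0
    exact h0.symm
  exact ⟨Z, Z', by rw [hZ1, hZ2], by rw [hZ'1, hZ'2], hZ'Z, hf⟩

end Corr

end Pool.Agent.TH26.Orl
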