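import Pool.Agent.TH26.Orl.Crit

/-!
# Isotypic parts

The criterion for a single left ideal, and for the part cut out by a central idempotent.
-/

set_option linter.unusedSectionVars false

namespace Pool.Agent.TH26.Orl

open Module

namespace Corr

variable {n : ℕ} {C : Corr n}

/-- The primitive parts of degree `j` of the two sides of a left ideal have the same dimension. -/
def SP (S : Submodule C.E C.E) (j : ℕ) : Prop :=
  finrank ℚ (C.prim S C.e j) = finrank ℚ (C.prim S (1 - C.e) j)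

theorem δ_succ' {S : Submodule C.E C.E} {j : ℕ} (h1 : SP S (j + 2)) (hj : j + 2 ≤ n) :
    δ S (j + 2) = δ S j := by
  have h2 := prim_dim C.side_e S hj
  have h3 := prim_dim C.side_e' S hj
  unfold SP at h1
  unfold δ dz
  omega

theorem δ_low' {S : Submodule C.E C.E} {j : ℕ} (h1 : SP S j) (hj : j < 2) (hjn : j ≤ n) :
    δ S j = 0 := by
  have h2 := prim_dim_low C.side_e S hj hjn
  have h3 := prim_dim_low C.side_e' S hj hjn
  unfold SP at h1
  unfold δ dz
  omega

/-- Two exceptional weights of the parity of `n`. -/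
theorem FM.same_parity' (Φ : C.FM) (S : Submodule C.E C.E)
    (h : ∀ j₁ j₂ j₃ : ℕ, j₁ < j₂ → j₂ < j₃ → j₃ ≤ n → j₁ % 2 = n % 2 → j₂ % 2 = n % 2 →
      j₃ % 2 = n % 2 → SP S j₁ ∨ SP S j₂ ∨ SP S j₃)
    (k : ℕ) (hk : k ≤ n / 2) : δ S (n - 2 * k) = 0 := by
  set m := n / 2 with hm
  let f : ℕ → ℤ := fun k => if k ≤ m then δ S (n - 2 * k) else 0
  have hfk : ∀ k, k ≤ m → f k = δ S (n - 2 * k) := fun k hk => if_pos hk
  have hfm : f (m + 1) = 0 := if_neg (by omega)
  -- the two equations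
  have hlow := Φ.sum_low S
  have hpar := Φ.sum_par S n
  have v1 := dim_V C.side_e S
  have v2 := dim_V C.side_e' S
  rw [d_P C.side_e, d_P C.side_e] at v1
  rw [d_P C.side_e', d_P C.side_e'] at v2
  have v1' : ∑ i ∈ par2 n n, dz C.e S i = 2 * ∑ i ∈ up n, dz C.e S i + dz C.e S n := by
    unfold dz; exact_mod_cast v1
  have v2' : ∑ i ∈ par2 n n, dz (1 - C.e) S i =
      2 * ∑ i ∈ up n, dz (1 - C.e) S i + dz (1 - C.e) S n := by
    unfold dz; exact_mod_cast v2
  rw [v1', v2', comb2 n _ (dz_symm C.side_e S), comb2 n _ (dz_symm C.side_e' S)] at hpar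
  have c1 := comb1 n (dz C.e S)
  have c2 := comb1 n (dz (1 - C.e) S)
  have hsum : ∑ k ∈ Finset.range m, f (k + 1) =
      ∑ j ∈ Finset.range m, dz C.e S (n - 2 * (0 + 1 + j)) -
        ∑ j ∈ Finset.range m, dz (1 - C.e) S (n - 2 * (0 + 1 + j)) := by
    rw [← Finset.sum_sub_distrib]
    apply Finset.sum_congr rfl
    intro k hk
    rw [Finset.mem_range] at hk
    rw [hfk (k + 1) (by omega), show n - 2 * (k + 1) = n - 2 * (0 + 1 + k) by omega]
    rfl
  have hsum' : ∑ k ∈ Finset.range m, (-1 : ℤ) ^ k * f (k + 1) =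
      ∑ j ∈ Finset.range m, (-1 : ℤ) ^ j * dz C.e S (n - 2 * (0 + 1 + j)) -
        ∑ j ∈ Finset.range m, (-1 : ℤ) ^ j * dz (1 - C.e) S (n - 2 * (0 + 1 + j)) := by
    rw [← Finset.sum_sub_distrib]
    apply Finset.sum_congr rfl
    intro k hk
    rw [Finset.mem_range] at hk
    rw [hfk (k + 1) (by omega), show n - 2 * (k + 1) = n - 2 * (0 + 1 + k) by omega]
    unfold δ
    ring
  have h0 : f 0 = dz C.e S n - dz (1 - C.e) S n := by
    rw [hfk 0 (by omega), show n - 2 * 0 = n by omega]; rfl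
  have q1 : f 0 + 2 * ∑ k ∈ Finset.range m, f (k + 1) = 0 := by
    rw [hsum, h0]; linarith
  have q2 : ∑ k ∈ Finset.range m, f (k + 1) + ∑ k ∈ Finset.range m, (-1 : ℤ) ^ k * f (k + 1) = 0 := by
    rw [hsum, hsum']
    have c1' : ∑ j ∈ Finset.range m, dz C.e S (n - 2 * (0 + 1 + j)) +
      ∑ j ∈ Finset.range m, (-1 : ℤ) ^ j * dz C.e S (n - 2 * (0 + 1 + j)) =
      2 * ∑ i ∈ lowT n, dz C.e S i := c1
    have c2' : ∑ j ∈ Finset.range m, dz (1 - C.e) S (n - 2 * (0 + 1 + j)) +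
      ∑ j ∈ Finset.range m, (-1 : ℤ) ^ j * dz (1 - C.e) S (n - 2 * (0 + 1 + j)) =
      2 * ∑ i ∈ lowT n, dz (1 - C.e) S i := c2
    linarith
  -- steps at the good weights
  have step : ∀ k, k ≤ m → SP S (n - 2 * k) → f k = f (k + 1) := by
    intro k hk hs
    by_cases hkm : k + 1 ≤ m
    · rw [hfk k hk, hfk (k + 1) hkm]
      have e1 : n - 2 * k = (n - 2 * (k + 1)) + 2 := by omega
      rw [e1] at hs ⊢
      exact δ_succ' hs (by omega)
    · have hkm' : k = m := by omega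
      rw [hkm'] at hs ⊢
      rw [hfm, hfk m (le_refl _)]
      exact δ_low' hs (by omega) (by omega)
  have concl : ∀ K K' : ℕ, K < K' → K' ≤ m →
      (∀ k, k ≤ m → k ≠ K → k ≠ K' → SP S (n - 2 * k)) → δ S (n - 2 * k) = 0 := by
    intro K K' h1 h2 h3
    rw [← hfk k hk]
    exact two_unknowns m K K' f h1 h2 hfm (fun k hk a b => step k hk (h3 k hk a b)) q1 q2 k hk
  -- choose the exceptional places
  by_cases hm0 : m = 0
  · have : k = 0 := by omega
    subst this
    rw [← hfk 0 (by omega)]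
    rw [hm0] at q1
    simpa using q1
  by_cases hbad : ∃ k₁, k₁ ≤ m ∧ ¬ SP S (n - 2 * k₁)
  · obtain ⟨k₁, hk₁, hb₁⟩ := hbad
    by_cases hbad2 : ∃ k₂, k₂ ≤ m ∧ k₂ ≠ k₁ ∧ ¬ SP S (n - 2 * k₂)
    · obtain ⟨k₂, hk₂, hne, hb₂⟩ := hbad2
      have hthree : ∀ k, k ≤ m → k ≠ k₁ → k ≠ k₂ → SP S (n - 2 * k) := by
        intro k hk n1 n2
        by_contra hb
        -- order the three
        have aux : ∀ a b c : ℕ, a < b → b < c → c ≤ m → ¬ SP S (n - 2 * a) →
            ¬ SP S (n - 2 * b) → ¬ SP S (n - 2 * c) → False := by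
          intro a b c hab hbc hc na nb nc
          rcases h (n - 2 * c) (n - 2 * b) (n - 2 * a) (by omega) (by omega) (by omega)
            (by omega) (by omega) (by omega) with h | h | h
          · exact nc h
          · exact nb h
          · exact na h
        rcases lt_trichotomy k k₁ with o1 | o1 | o1
        · rcases lt_trichotomy k k₂ with o2 | o2 | o2
          · rcases lt_or_gt_of_ne hne with o3 | o3
            · exact aux k k₂ k₁ o2 o3 hk₁ hb hb₂ hb₁
            · exact aux k k₁ k₂ o1 o3 hk₂ hb hb₁ hb₂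
          · exact n2 o2
          · exact aux k₂ k k₁ o2 o1 hk₁ hb₂ hb hb₁
        · exact n1 o1
        · rcases lt_trichotomy k k₂ with o2 | o2 | o2
          · exact aux k₁ k k₂ o1 o2 hk₂ hb₁ hb hb₂
          · exact n2 o2
          · rcases lt_or_gt_of_ne hne with o3 | o3
            · exact aux k₂ k₁ k o3 o1 hk hb₂ hb₁ hb
            · exact aux k₁ k₂ k o3 o2 hk hb₁ hb₂ hb
      rcases lt_or_gt_of_ne hne with o | o
      · exact concl k₂ k₁ o hk₁ (fun k hk a b => hthree k hk b a)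
      · exact concl k₁ k₂ o hk₂ (fun k hk a b => hthree k hk a b)
    · push Not at hbad2
      by_cases hk0 : k₁ = 0
      · refine concl 0 1 (by omega) (by omega) (fun k hk a _ => hbad2 k hk ?_)
        rw [hk0]; exact a
      · refine concl 0 k₁ (by omega) hk₁ (fun k hk _ b => hbad2 k hk b)
  · push Not at hbad
    exact concl 0 1 (by omega) (by omega) (fun k hk _ _ => hbad k hk)

/-- One exceptional weight of the other parity. -/
theorem FM.other_parity' (Φ : C.FM) (hn : 1 ≤ n) (S : Submodule C.E C.E)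
    (h : ∀ j₁ j₂ : ℕ, j₁ < j₂ → j₂ ≤ n → j₁ % 2 ≠ n % 2 → j₂ % 2 ≠ n % 2 →
      SP S j₁ ∨ SP S j₂)
    (k : ℕ) (hk : k ≤ (n - 1) / 2) : δ S (n - 1 - 2 * k) = 0 := by
  set m := (n - 1) / 2 with hm
  let f : ℕ → ℤ := fun k => if k ≤ m then δ S (n - 1 - 2 * k) else 0
  have hfk : ∀ k, k ≤ m → f k = δ S (n - 1 - 2 * k) := fun k hk => if_pos hk
  have hfm : f (m + 1) = 0 := if_neg (by omega)
  have hpar := Φ.sum_par S (n + 1)
  rw [comb4 n hn _ (dz_symm C.side_e S), comb4 n hn _ (dz_symm C.side_e' S)] at hpar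
  have q1 : ∑ k ∈ Finset.range (m + 1), f k = 0 := by
    have : ∑ k ∈ Finset.range (m + 1), f k =
        ∑ k ∈ Finset.range (m + 1), dz C.e S (n - 1 - 2 * k) -
          ∑ k ∈ Finset.range (m + 1), dz (1 - C.e) S (n - 1 - 2 * k) := by
      rw [← Finset.sum_sub_distrib]
      apply Finset.sum_congr rfl
      intro k hk
      rw [Finset.mem_range] at hk
      rw [hfk k (by omega)]
      rfl
    rw [this]
    linarith
  have step : ∀ k, k ≤ m → SP S (n - 1 - 2 * k) → f k = f (k + 1) := by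
    intro k hk hs
    by_cases hkm : k + 1 ≤ m
    · rw [hfk k hk, hfk (k + 1) hkm]
      have e1 : n - 1 - 2 * k = (n - 1 - 2 * (k + 1)) + 2 := by omega
      rw [e1] at hs ⊢
      exact δ_succ' hs (by omega)
    · have hkm' : k = m := by omega
      rw [hkm'] at hs ⊢
      rw [hfm, hfk m (le_refl _)]
      exact δ_low' hs (by omega) (by omega)
  rw [← hfk k hk]
  by_cases hbad : ∃ k₁, k₁ ≤ m ∧ ¬ SP S (n - 1 - 2 * k₁)
  · obtain ⟨k₁, hk₁, hb₁⟩ := hbad
    refine one_unknown m k₁ f hk₁ hfm (fun k hk hne => step k hk ?_) q1 k hk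
    rcases lt_or_gt_of_ne hne with o | o
    · rcases h (n - 1 - 2 * k₁) (n - 1 - 2 * k) (by omega) (by omega) (by omega) (by omega)
        with h | h
      · exact absurd h hb₁
      · exact h
    · rcases h (n - 1 - 2 * k) (n - 1 - 2 * k₁) (by omega) (by omega) (by omega) (by omega)
        with h | h
      · exact h
      · exact absurd h hb₁
  · push Not at hbad
    exact one_unknown m 0 f (by omega) hfm (fun k hk _ => step k hk (hbad k hk)) q1 k hk


/-! ### Central idempotents -/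

/-- The part `z S` of a left ideal for a central element `z`. -/
def zpart (z : C.E) (hz : ∀ u, z * u = u * z) (S : Submodule C.E C.E) : Submodule C.E C.E where
  carrier := {x | x ∈ S ∧ z * x = x}
  add_mem' := by
    rintro a b ⟨ha, ha'⟩ ⟨hb, hb'⟩
    exact ⟨S.add_mem ha hb, by rw [mul_add, ha', hb']⟩
  zero_mem' := ⟨S.zero_mem, mul_zero _⟩
  smul_mem' := by
    rintro c a ⟨ha, ha'⟩
    refine ⟨S.smul_mem c ha, ?_⟩
    rw [smul_eq_mul, ← mul_assoc, hz c, mul_assoc, ha']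

theorem d_zpart {z : C.E} (hz : ∀ u, z * u = u * z) (hzz : z * z = z) (S : Submodule C.E C.E)
    (g : C.E) : d (zpart z hz S) g = d S (z * g) := by
  unfold d
  have : cut (zpart z hz S) g = cut S (z * g) := by
    ext x
    rw [mem_cut, mem_cut]
    constructor
    · rintro ⟨⟨h1, h2⟩, h3⟩
      exact ⟨h1, by rw [mul_assoc, h3, h2]⟩
    · rintro ⟨h1, h2⟩
      have h3 : z * x = x := by rw [← h2, ← mul_assoc, ← mul_assoc, hzz]
      refine ⟨⟨h1, h3⟩, ?_⟩
      calc g * x = g * (z * x) := by rw [h3]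
        _ = z * g * x := by rw [← mul_assoc, hz g]
        _ = x := h2
  rw [this]

/-- The part of the primitive cohomology of degree `j` of `X` and of `X'` cut out by `z`
vanishes. -/
def NoPrim (C : Corr n) (z : C.E) (j : ℕ) : Prop :=
  ∀ a, C.π j * a = a → C.L ^ (n - j + 1) * a = 0 → z * a = 0

theorem SP_of_noPrim {z : C.E} (hz : ∀ u, z * u = u * z) {j : ℕ} (h : C.NoPrim z j)
    (S : Submodule C.E C.E) : SP (zpart z hz S) j := by
  have van : ∀ g : C.E, C.Side g → finrank ℚ (C.prim (zpart z hz S) g j) = 0 := by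
    intro g hg
    rw [Submodule.finrank_eq_zero, eq_bot_iff]
    rintro x ⟨hx, hxL⟩
    rw [hg.mem] at hx
    have h1 : z * x = x := hx.1.2
    have h2 := h x hx.2.2 hxL
    rw [h1] at h2
    exact h2
  unfold SP
  rw [van _ C.side_e, van _ C.side_e']

theorem idem_z {z : C.E} (hz : ∀ u, z * u = u * z) (hzz : z * z = z) {g : C.E} (hg : g * g = g) :
    (z * g) * (z * g) = z * g := by
  calc (z * g) * (z * g) = z * (g * z) * g := by simp only [mul_assoc]
    _ = z * (z * g) * g := by rw [hz g]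
    _ = (z * z) * (g * g) := by simp only [mul_assoc]
    _ = _ := by rw [hzz, hg]

theorem equ_z_of_δ {z : C.E} (hz : ∀ u, z * u = u * z) (hzz : z * z = z) {i : ℕ}
    (h : ∀ S : Submodule C.E C.E, δ (zpart z hz S) i = 0) :
    Equ (z * C.hX i) (z * C.hX' i) := by
  unfold hX hX'
  rw [equ_iff (idem_z hz hzz (C.side_e.idem i)) (idem_z hz hzz (C.side_e'.idem i))]
  intro S
  have h0 := h S
  unfold δ dz at h0
  rw [d_zpart hz hzz, d_zpart hz hzz] at h0
  omega

theorem equ_z_out {z : C.E} {i : ℕ} (hi : 2 * n < i) : Equ (z * C.hX i) (z * C.hX' i) := by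
  have : C.π i = 0 := C.π_van i hi
  unfold hX hX'
  rw [this]
  simp only [mul_zero]
  exact Equ.refl (zero_mul (0 : C.E))

/-- The degrees of the parity of `n`. -/
theorem FM.z_same (Φ : C.FM) {z : C.E} (hz : ∀ u, z * u = u * z) (hzz : z * z = z)
    (h : ∀ j₁ j₂ j₃ : ℕ, j₁ < j₂ → j₂ < j₃ → j₃ ≤ n → j₁ % 2 = n % 2 → j₂ % 2 = n % 2 →
      j₃ % 2 = n % 2 → C.NoPrim z j₁ ∨ C.NoPrim z j₂ ∨ C.NoPrim z j₃)
    (i : ℕ) (hi : i % 2 = n % 2) : Equ (z * C.hX i) (z * C.hX' i) := by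
  by_cases hi2 : i ≤ 2 * n
  · apply equ_z_of_δ hz hzz
    intro S
    have key := fun k hk => Φ.same_parity' (zpart z hz S) (by
      intro j₁ j₂ j₃ a b c d e f
      rcases h j₁ j₂ j₃ a b c d e f with h | h | h
      · exact Or.inl (SP_of_noPrim hz h S)
      · exact Or.inr (Or.inl (SP_of_noPrim hz h S))
      · exact Or.inr (Or.inr (SP_of_noPrim hz h S))) k hk
    rcases le_or_gt i n with h' | h'
    · have := key ((n - i) / 2) (by omega)
      rwa [show n - 2 * ((n - i) / 2) = i by omega] at this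
    · rw [δ_symm _ i hi2]
      have := key ((i - n) / 2) (by omega)
      rwa [show n - 2 * ((i - n) / 2) = 2 * n - i by omega] at this
  · exact equ_z_out (by omega)

/-- The degrees of the other parity. -/
theorem FM.z_other (Φ : C.FM) {z : C.E} (hz : ∀ u, z * u = u * z) (hzz : z * z = z)
    (h : ∀ j₁ j₂ : ℕ, j₁ < j₂ → j₂ ≤ n → j₁ % 2 ≠ n % 2 → j₂ % 2 ≠ n % 2 →
      C.NoPrim z j₁ ∨ C.NoPrim z j₂)
    (i : ℕ) (hi : i % 2 ≠ n % 2) : Equ (z * C.hX i) (z * C.hX' i) := by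
  by_cases hi2 : i ≤ 2 * n
  · apply equ_z_of_δ hz hzz
    intro S
    have hn : 1 ≤ n := by
      rcases Nat.eq_zero_or_pos n with h0 | h0
      · omega
      · exact h0
    have key := fun k hk => Φ.other_parity' hn (zpart z hz S) (by
      intro j₁ j₂ a b c d
      rcases h j₁ j₂ a b c d with h | h
      · exact Or.inl (SP_of_noPrim hz h S)
      · exact Or.inr (SP_of_noPrim hz h S)) k hk
    rcases le_or_gt i n with h' | h'
    · have := key ((n - 1 - i) / 2) (by omega)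
      rwa [show n - 1 - 2 * ((n - 1 - i) / 2) = i by omega] at this
    · rw [δ_symm _ i hi2]
      have := key ((i - n - 1) / 2) (by omega)
      rwa [show n - 1 - 2 * ((i - n - 1) / 2) = 2 * n - i by omega] at this
  · exact equ_z_out (by omega)

/-- The main statement on isotypic parts. -/
theorem FM.level (Φ : C.FM) {z : C.E} (hz : ∀ u, z * u = u * z) (hzz : z * z = z)
    (h : ∀ j, j + 3 ≤ n → C.NoPrim z j) (i : ℕ) : Equ (z * C.hX i) (z * C.hX' i) := by
  by_cases hp : i % 2 = n % 2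
  · apply Φ.z_same hz hzz _ i hp
    intro j₁ j₂ j₃ a b c d e f
    exact Or.inl (h j₁ (by omega))
  · apply Φ.z_other hz hzz _ i hp
    intro j₁ j₂ a b c d
    exact Or.inl (h j₁ (by omega))

/-- Assembling the isomorphisms of the `z h^i`. -/
theorem assemble_z {z : C.E} (hz : ∀ u, z * u = u * z) (hzz : z * z = z)
    (h : ∀ i, Equ (z * C.hX i) (z * C.hX' i)) :
    ∃ u v : C.E, (z * (1 - C.e)) * u * (z * C.e) = u ∧ (z * C.e) * v * (z * (1 - C.e)) = v ∧
      v * u = z * C.e ∧ u * v = z * (1 - C.e) ∧ (∀ i, u * C.π i = C.π i * u) ∧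
      (∀ i, v * C.π i = C.π i * v) := by
  choose u v h1 h2 h3 h4 using h
  -- general facts on `a = (z g' π) a (z g π)`
  have gen : ∀ (g g' : C.E), C.Side g → C.Side g' → ∀ (i : ℕ) (a : C.E),
      (z * (g' * C.π i)) * a * (z * (g * C.π i)) = a →
      (z * g') * a = a ∧ a * (z * g) = a ∧ C.π i * a = a ∧ a * C.π i = a := by
    intro g g' hg hg' i a ha
    refine ⟨?_, ?_, ?_, ?_⟩
    · rw [← ha]
      calc z * g' * (z * (g' * C.π i) * a * (z * (g * C.π i)))
          = (z * g') * (z * g') * C.π i * a * (z * (g * C.π i)) := by simp only [mul_assoc]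
        _ = _ := by rw [idem_z hz hzz hg'.id]; simp only [mul_assoc]
    · rw [← ha]
      calc z * (g' * C.π i) * a * (z * (g * C.π i)) * (z * g)
          = z * (g' * C.π i) * a * (z * g * (C.π i * z) * g) := by simp only [mul_assoc]
        _ = z * (g' * C.π i) * a * (z * g * (z * (C.π i * g))) := by
            rw [← hz]; simp only [mul_assoc]
        _ = z * (g' * C.π i) * a * (z * g * (z * (g * C.π i))) := by rw [← hg.π]
        _ = z * (g' * C.π i) * a * ((z * g) * (z * g) * C.π i) := by simp only [mul_assoc]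
        _ = _ := by rw [idem_z hz hzz hg.id]; simp only [mul_assoc]
    · rw [← ha]
      calc C.π i * (z * (g' * C.π i) * a * (z * (g * C.π i)))
          = (C.π i * z) * (g' * C.π i) * a * (z * (g * C.π i)) := by simp only [mul_assoc]
        _ = z * ((C.π i * g') * C.π i) * a * (z * (g * C.π i)) := by
            rw [← hz]; simp only [mul_assoc]
        _ = z * (g' * (C.π i * C.π i)) * a * (z * (g * C.π i)) := by
            rw [← hg'.π]; simp only [mul_assoc]
        _ = _ := by rw [C.π_π]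
    · rw [← ha]
      simp only [mul_assoc, C.π_π]
  have U := fun i => gen C.e (1 - C.e) C.side_e C.side_e' i (u i) (h1 i)
  have V := fun i => gen (1 - C.e) C.e C.side_e' C.side_e i (v i) (h2 i)
  have sum_π_right : ∀ (w : ℕ → C.E), (∀ i, w i * C.π i = w i) → (∀ i, C.π i * w i = w i) →
      ∀ k, (∑ i ∈ Finset.range (2 * n + 1), w i) * C.π k = w k ∧
        C.π k * (∑ i ∈ Finset.range (2 * n + 1), w i) = w k := by
    intro w hw1 hw2 k
    rw [Finset.sum_mul, Finset.mul_sum]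
    by_cases hk : k ∈ Finset.range (2 * n + 1)
    · rw [Finset.sum_eq_single k, Finset.sum_eq_single k]
      · exact ⟨hw1 k, hw2 k⟩
      · intro j _ hj
        rw [← hw2 j, ← mul_assoc, C.π_orth k j (Ne.symm hj), zero_mul]
      · intro h; exact absurd hk h
      · intro j _ hj
        rw [← hw1 j, mul_assoc, C.π_orth j k hj, mul_zero]
      · intro h; exact absurd hk h
    · have hk' : 2 * n < k := by simpa [Nat.lt_succ_iff] using hk
      have h0 : w k = 0 := by rw [← hw1 k, C.π_van k hk', mul_zero]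
      rw [C.π_van k hk', h0]
      simp
  have SU := sum_π_right u (fun i => (U i).2.2.2) (fun i => (U i).2.2.1)
  have SV := sum_π_right v (fun i => (V i).2.2.2) (fun i => (V i).2.2.1)
  refine ⟨∑ i ∈ Finset.range (2 * n + 1), u i, ∑ i ∈ Finset.range (2 * n + 1), v i,
    ?_, ?_, ?_, ?_, fun i => by rw [(SU i).1, (SU i).2], fun i => by rw [(SV i).1, (SV i).2]⟩
  · rw [Finset.mul_sum, Finset.sum_mul]
    exact Finset.sum_congr rfl fun i _ => by rw [(U i).1, (U i).2.1]
  · rw [Finset.mul_sum, Finset.sum_mul]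
    exact Finset.sum_congr rfl fun i _ => by rw [(V i).1, (V i).2.1]
  · have key : (∑ i ∈ Finset.range (2 * n + 1), v i) * (∑ i ∈ Finset.range (2 * n + 1), u i) =
        ∑ i ∈ Finset.range (2 * n + 1), z * (C.e * C.π i) := by
      rw [Finset.mul_sum]
      apply Finset.sum_congr rfl
      intro k _
      rw [← (U k).2.2.1, ← mul_assoc, (SV k).1, h3 k]
      rfl
    rw [key, ← Finset.mul_sum, ← Finset.mul_sum, C.π_sum, mul_one]
  · have key : (∑ i ∈ Finset.range (2 * n + 1), u i) * (∑ i ∈ Finset.range (2 * n + 1), v i) =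
        ∑ i ∈ Finset.range (2 * n + 1), z * ((1 - C.e) * C.π i) := by
      rw [Finset.mul_sum]
      apply Finset.sum_congr rfl
      intro k _
      rw [← (V k).2.2.1, ← mul_assoc, (SU k).1, h4 k]
      rfl
    rw [key, ← Finset.mul_sum, ← Finset.mul_sum, C.π_sum, mul_one]

end Corr

/-! ### Lifting along a surjection with nil kernel -/

/-- Idempotents which become equivalent modulo a nil ideal are equivalent. -/
theorem lift_equ {A B : Type*} [Ring A] [Ring B] (cl : A →+* B) (nil : ∀ a, cl a = 0 → IsNilpotent a)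
    {p q : A} (hp : p * p = p) (hq : q * q = q) {u v : B} (hu : cl q * u * cl p = u)
    (hv : cl p * v * cl q = v) (hvu : v * u = cl p) (huv : u * v = cl q)
    (lu : ∃ a, cl a = u) (lv : ∃ a, cl a = v) :
    ∃ Z Z' : A, q * Z * p = Z ∧ p * Z' * q = Z' ∧ Z' * Z = p ∧ Z * Z' = q := by
  obtain ⟨Z0, hZ0⟩ := lu
  obtain ⟨Z0', hZ0'⟩ := lv
  obtain ⟨Z, hZ1, hZ2, hcZ⟩ : ∃ Z, q * Z = Z ∧ Z * p = Z ∧ cl Z = u :=
    ⟨q * Z0 * p, by rw [← mul_assoc, ← mul_assoc, hq], by rw [mul_assoc, hp], by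
      rw [map_mul, map_mul, hZ0, hu]⟩
  obtain ⟨Y, hY1, hY2, hcY⟩ : ∃ Y, p * Y = Y ∧ Y * q = Y ∧ cl Y = v :=
    ⟨p * Z0' * q, by rw [← mul_assoc, ← mul_assoc, hp], by rw [mul_assoc, hq], by
      rw [map_mul, map_mul, hZ0', hv]⟩
  obtain ⟨N, hNdef⟩ : ∃ N, N = p - Y * Z := ⟨_, rfl⟩
  have hclN : cl N = 0 := by rw [hNdef, map_sub, map_mul, hcZ, hcY, hvu, sub_self]
  have hN : IsNilpotent N := nil _ hclN
  have hN1 : p * N = N := by rw [hNdef, mul_sub, hp, ← mul_assoc, hY1]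
  have hN2 : N * p = N := by rw [hNdef, sub_mul, hp, mul_assoc, hZ2]
  obtain ⟨w, hw⟩ := hN.isUnit_one_sub
  have hcomm : (w : A) * p = p * w := by
    rw [hw, sub_mul, mul_sub, hN1, hN2, one_mul, mul_one]
  have hcomm' : (↑w⁻¹ : A) * p = p * ↑w⁻¹ := by
    have h1 : (↑w⁻¹ : A) * ((w : A) * p) * ↑w⁻¹ = ↑w⁻¹ * (p * w) * ↑w⁻¹ := by rw [hcomm]
    have h2 : (↑w⁻¹ : A) * ((w : A) * p) * ↑w⁻¹ = p * ↑w⁻¹ := by
      rw [← mul_assoc, Units.inv_mul, one_mul]
    have h3 : (↑w⁻¹ : A) * (p * w) * ↑w⁻¹ = ↑w⁻¹ * p := by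
      rw [mul_assoc, mul_assoc, Units.mul_inv, mul_one]
    rw [h2, h3] at h1
    exact h1.symm
  have hclw : cl (↑w⁻¹ : A) = 1 := by
    have h1 : cl (w : A) = 1 := by rw [hw, map_sub, map_one, hclN, sub_zero]
    have h2 : cl ((↑w⁻¹ : A) * (w : A)) = 1 := by rw [Units.inv_mul, map_one]
    rw [map_mul, h1, mul_one] at h2
    exact h2
  obtain ⟨Z', hZ'def⟩ : ∃ Z', Z' = (↑w⁻¹ : A) * Y := ⟨_, rfl⟩
  have hZ'1 : p * Z' = Z' := by rw [hZ'def, ← mul_assoc, ← hcomm', mul_assoc, hY1]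
  have hZ'2 : Z' * q = Z' := by rw [hZ'def, mul_assoc, hY2]
  have hZ'Z : Z' * Z = p := by
    have : Y * Z = (w : A) * p := by
      rw [hw, sub_mul, one_mul, hN2, hNdef]; abel
    rw [hZ'def, mul_assoc, this, ← mul_assoc, Units.inv_mul, one_mul]
  refine ⟨Z, Z', by rw [hZ1, hZ2], by rw [hZ'1, hZ'2], hZ'Z, ?_⟩
  obtain ⟨f, hf⟩ : ∃ f, f = Z * Z' := ⟨_, rfl⟩
  have hff : f * f = f := by
    rw [hf]
    calc Z * Z' * (Z * Z') = Z * (Z' * Z) * Z' := by simp only [mul_assoc]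
      _ = _ := by rw [hZ'Z, hZ2]
  have hf1 : q * f = f := by rw [hf, ← mul_assoc, hZ1]
  have hf2 : f * q = f := by rw [hf, mul_assoc, hZ'2]
  have hg : IsNilpotent (q - f) := by
    apply nil
    rw [map_sub, hf, map_mul, hcZ, hZ'def, map_mul, hclw, one_mul, hcY, huv, sub_self]
  have hgg : (q - f) * (q - f) = q - f := by
    rw [sub_mul, mul_sub, mul_sub, hq, hf1, hf2, hff]; abel
  obtain ⟨k, hk⟩ := hg
  have hpow : ∀ k, (q - f) ^ (k + 1) = q - f := by
    intro k
    induction k with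
    | zero => rw [zero_add, pow_one]
    | succ k ih => rw [pow_succ, ih, hgg]
  have h0 : q - f = 0 := by rw [← hpow k, pow_succ, hk, zero_mul]
  rw [← hf]
  exact (sub_eq_zero.mp h0).symm

namespace Corr

variable {n : ℕ} {C : Corr n}

/-- An isomorphism of the `z`-parts in all degrees lifts to Chow motives. -/
theorem chow_z {z : C.E} (hz : ∀ u, z * u = u * z) (hzz : z * z = z)
    (h : ∀ i, Equ (z * C.hX i) (z * C.hX' i)) (𝒜 : C.Chow) {p p' : 𝒜.A} (hp : p * p = p)
    (hp' : p' * p' = p') (hcp : 𝒜.cl p = z * C.e) (hcp' : 𝒜.cl p' = z * (1 - C.e)) :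
    ∃ Z Z' : 𝒜.A, p' * Z * p = Z ∧ p * Z' * p' = Z' ∧ Z' * Z = p ∧ Z * Z' = p' := by
  obtain ⟨u, v, h1, h2, h3, h4, h5, h6⟩ := assemble_z hz hzz h
  exact lift_equ 𝒜.cl 𝒜.nil hp hp' (by rw [hcp, hcp', h1]) (by rw [hcp, hcp', h2])
    (by rw [hcp, h3]) (by rw [hcp', h4]) (𝒜.surj u h5) (𝒜.surj v h6)

/-- The parts exist. -/
theorem exists_parts {z : C.E} (hz : ∀ u, z * u = u * z) (hzz : z * z = z) (𝒜 : C.Chow) :
    ∃ p p' : 𝒜.A, p * p = p ∧ p' * p' = p' ∧ 𝒜.cl p = z * C.e ∧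
      𝒜.cl p' = z * (1 - C.e) := by
  have key : ∀ g : C.E, C.Side g → ∃ p : 𝒜.A, p * p = p ∧ 𝒜.cl p = z * g := by
    intro g hg
    have hr : z * g ∈ 𝒜.cl.range := by
      obtain ⟨a, ha⟩ := 𝒜.surj (z * g) (by
        intro i
        rw [mul_assoc, hg.π, ← mul_assoc, hz, mul_assoc])
      exact ⟨a, ha⟩
    obtain ⟨p, hp1, hp2⟩ := exists_isIdempotentElem_eq_of_ker_isNilpotent 𝒜.cl
      (fun x hx => 𝒜.nil x hx) (z * g) hr (idem_z hz hzz hg.id)
    exact ⟨p, hp1, hp2⟩
  obtain ⟨p, h1, h2⟩ := key _ C.side_e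
  obtain ⟨p', h3, h4⟩ := key _ C.side_e'
  exact ⟨p, p', h1, h3, h2, h4⟩

end Corr

end Pool.Agent.TH26.Orl
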