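import Pool.Agent.TH26.Orl.Form

/-!
# Numerical consequences of a Fourier-Mukai equivalence on every left ideal
-/

set_option linter.unusedSectionVars false

namespace Pool.Agent.TH26.Orl

open Module

namespace Corr

variable {n : ℕ} (C : Corr n)

/-- Sum of Künneth projectors. -/
def P (T : Finset ℕ) : C.E := ∑ i ∈ T, C.π i

theorem P_π (T : Finset ℕ) (k : ℕ) : C.P T * C.π k = if k ∈ T then C.π k else 0 := by
  unfold P
  rw [Finset.sum_mul]
  split_ifs with h
  · rw [Finset.sum_eq_single k, C.π_π]
    · intro j _ hj; exact C.π_orth j k hj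
    · intro h'; exact absurd h h'
  · apply Finset.sum_eq_zero
    intro j hj
    exact C.π_orth j k (by rintro rfl; exact h hj)

theorem π_P (T : Finset ℕ) (k : ℕ) : C.π k * C.P T = if k ∈ T then C.π k else 0 := by
  unfold P
  rw [Finset.mul_sum]
  split_ifs with h
  · rw [Finset.sum_eq_single k, C.π_π]
    · intro j _ hj; exact C.π_orth k j (Ne.symm hj)
    · intro h'; exact absurd h h'
  · apply Finset.sum_eq_zero
    intro j hj
    exact C.π_orth k j (by rintro rfl; exact h hj)

theorem P_P (T T' : Finset ℕ) (h : T' ⊆ T) : C.P T * C.P T' = C.P T' := by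
  conv_lhs => rw [P, P, Finset.mul_sum]
  unfold P
  apply Finset.sum_congr rfl
  intro i hi
  have := C.P_π T i
  rw [if_pos (h hi)] at this
  exact this

variable {C}

theorem Side.P {g : C.E} (hg : C.Side g) (T : Finset ℕ) : g * C.P T = C.P T * g := by
  unfold Corr.P
  rw [Finset.mul_sum, Finset.sum_mul]
  exact Finset.sum_congr rfl fun i _ => hg.π i

theorem Side.idemP {g : C.E} (hg : C.Side g) (T : Finset ℕ) :
    (g * C.P T) * (g * C.P T) = g * C.P T := by
  rw [mul_assoc, ← mul_assoc (C.P T), ← hg.P, mul_assoc, C.P_P T T (le_refl _), ← mul_assoc, hg.id]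

theorem Side.memP {g : C.E} (hg : C.Side g) {S : Submodule C.E C.E} {T : Finset ℕ} {x : C.E} :
    x ∈ cut S (g * C.P T) ↔ x ∈ S ∧ g * x = x ∧ C.P T * x = x := by
  rw [mem_cut]
  constructor
  · rintro ⟨h1, h2⟩
    refine ⟨h1, ?_, ?_⟩
    · rw [← h2, ← mul_assoc, ← mul_assoc, hg.id]
    · rw [← h2, ← mul_assoc, ← mul_assoc, ← hg.P, mul_assoc g, C.P_P T T (le_refl _)]
  · rintro ⟨h1, h2, h3⟩
    exact ⟨h1, by rw [mul_assoc, h3, h2]⟩

theorem d_P {g : C.E} (hg : C.Side g) (S : Submodule C.E C.E) (T : Finset ℕ) :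
    d S (g * C.P T) = ∑ i ∈ T, d S (g * C.π i) := by
  induction T using Finset.induction_on with
  | empty => simp [Corr.P, d_zero]
  | insert a T ha ih =>
    have h1 : g * C.P (insert a T) = g * C.π a + g * C.P T := by
      unfold Corr.P
      rw [Finset.sum_insert ha, mul_add]
    rw [h1, Finset.sum_insert ha, ← ih]
    apply d_add S (hg.idem a) (hg.idemP T)
    · have := C.π_P T a
      rw [if_neg ha] at this
      rw [mul_assoc, ← mul_assoc (C.π a), ← hg.π, mul_assoc, this, mul_zero, mul_zero]
    · have := C.P_π T a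
      rw [if_neg ha] at this
      rw [mul_assoc, ← mul_assoc (C.P T), ← hg.P, mul_assoc, this, mul_zero, mul_zero]

/-- Symmetry of the dimensions. -/
theorem d_dual {g : C.E} (hg : C.Side g) (S : Submodule C.E C.E) {i : ℕ} (hi : i ≤ 2 * n) :
    d S (g * C.π i) = d S (g * C.π (2 * n - i)) := by
  apply d_equ
  have h1 := C.s_π i hi
  have h2 := C.s_π (2 * n - i) (by omega)
  rw [show 2 * n - (2 * n - i) = i by omega] at h2
  have k1 : C.s * (g * C.π i) = (g * C.π (2 * n - i)) * C.s := by
    rw [← mul_assoc, ← hg.s, mul_assoc, h1, mul_assoc]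
  have k2 : C.s * (g * C.π (2 * n - i)) = (g * C.π i) * C.s := by
    rw [← mul_assoc, ← hg.s, mul_assoc, h2, mul_assoc]
  have aux : ∀ a b s : C.E, a * a = a → b * b = b → s * a = b * s → b * (s * a) * a = s * a := by
    intro a b s ha hb h
    calc b * (s * a) * a = b * (s * (a * a)) := by simp only [mul_assoc]
      _ = b * (b * s) := by rw [ha, h]
      _ = s * a := by rw [← mul_assoc, hb, h]
  refine ⟨C.s * (g * C.π i), C.s * (g * C.π (2 * n - i)), ?_, ?_, ?_, ?_⟩
  · exact aux _ _ _ (hg.idem i) (hg.idem (2 * n - i)) k1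
  · exact aux _ _ _ (hg.idem (2 * n - i)) (hg.idem i) k2
  · rw [k2, mul_assoc, ← mul_assoc C.s C.s, C.s_s, one_mul, hg.idem]
  · rw [k1, mul_assoc, ← mul_assoc C.s C.s, C.s_s, one_mul, hg.idem]

variable (C)

/-- Degrees of a given parity. -/
def par2 (n ε : ℕ) : Finset ℕ := (Finset.range (2 * n + 1)).filter (fun i => i % 2 = ε % 2)

theorem par_comm (ε : ℕ) (u : C.E) : C.P (par2 n ε) * u = u * C.P (par2 n ε) := by
  have h1 : C.P (par2 n ε) * u = ∑ i ∈ par2 n ε, ∑ j ∈ par2 n ε, C.π i * u * C.π j := by
    calc C.P (par2 n ε) * u = C.P (par2 n ε) * u * 1 := (mul_one _).symm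
      _ = ∑ i ∈ par2 n ε, ∑ j ∈ Finset.range (2 * n + 1), C.π i * u * C.π j := by
          rw [← C.π_sum, P, Finset.sum_mul, Finset.sum_mul]
          exact Finset.sum_congr rfl fun i _ => Finset.mul_sum _ _ _
      _ = _ := by
          apply Finset.sum_congr rfl
          intro i hi
          symm
          apply Finset.sum_subset (Finset.filter_subset _ _)
          intro j hj hj'
          apply C.par
          simp only [par2, Finset.mem_filter, not_and] at hi hj'
          have := hj' hj
          rw [Nat.odd_iff]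
          omega
  have h2 : u * C.P (par2 n ε) = ∑ i ∈ par2 n ε, ∑ j ∈ par2 n ε, C.π i * u * C.π j := by
    calc u * C.P (par2 n ε) = 1 * u * C.P (par2 n ε) := by rw [one_mul]
      _ = ∑ j ∈ par2 n ε, ∑ i ∈ Finset.range (2 * n + 1), C.π i * u * C.π j := by
          rw [← C.π_sum, P, Finset.mul_sum]
          apply Finset.sum_congr rfl
          intro j _
          rw [Finset.sum_mul, Finset.sum_mul]
      _ = ∑ j ∈ par2 n ε, ∑ i ∈ par2 n ε, C.π i * u * C.π j := by
          apply Finset.sum_congr rfl
          intro j hj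
          symm
          apply Finset.sum_subset (Finset.filter_subset _ _)
          intro i hi hi'
          apply C.par
          simp only [par2, Finset.mem_filter, not_and] at hj hi'
          have := hi' hi
          rw [Nat.odd_iff]
          omega
      _ = _ := Finset.sum_comm
  rw [h1, h2]

theorem e_K : C.e * C.K = C.K * C.e := by
  unfold K
  rw [Finset.mul_sum, Finset.sum_mul]
  apply Finset.sum_congr rfl
  intro m _
  rw [mul_smul_comm, smul_mul_assoc]
  congr 1
  exact Commute.pow_right (show Commute C.e C.c from C.e_c) m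

theorem e_ν : C.e * C.ν = C.ν * C.e := by
  unfold ν
  rw [Finset.mul_sum, Finset.sum_mul]
  apply Finset.sum_congr rfl
  intro m _
  rw [mul_smul_comm, smul_mul_assoc, C.e_π]

theorem e_G : C.e * C.G = C.G * C.e := by
  have h1 : C.e * (C.K * C.ν) = (C.K * C.ν) * C.e := by
    rw [← mul_assoc, C.e_K, mul_assoc, C.e_ν, mul_assoc]
  have h2 : C.e * C.t (C.K * C.ν) = C.t (C.K * C.ν) * C.e := by
    have := congrArg C.t h1
    rw [C.t_mul C.e, C.t_mul _ C.e, C.t_e] at this
    exact this.symm
  unfold G
  rw [mul_add, add_mul, h1, h2]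

theorem G_inj {x : C.E} (hx : C.P (par2 n n) * x = x) (h : C.G * x = 0) : x = 0 := by
  have hsum : x = ∑ i ∈ par2 n n, C.π i * x := by
    conv_lhs => rw [← hx]
    rw [P, Finset.sum_mul]
  have key : ∀ k, C.π k * x = 0 := by
    intro k
    induction k using Nat.strong_induction_on with
    | _ k ih =>
      by_cases hk : k ∈ par2 n n
      · have h1 : C.π k * C.G * x = 0 := by rw [mul_assoc, h, mul_zero]
        have h2 : C.π k * C.G * x = (2 * (-1 : ℚ) ^ (k / 2)) • (C.π k * x) := by
          have hk' := hk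
          simp only [par2, Finset.mem_filter, Finset.mem_range] at hk'
          rw [hsum, Finset.mul_sum, Finset.sum_eq_single k]
          · calc C.π k * C.G * (C.π k * x) = (C.π k * C.G * C.π k) * x := by
                  simp only [mul_assoc]
              _ = (2 * (-1 : ℚ) ^ (k / 2)) • (C.π k * x) := by
                  rw [C.G_π_eq (by omega) hk'.2, smul_mul_assoc]
              _ = _ := by rw [← hsum]
          · intro j hj hjk
            rcases lt_or_gt_of_ne hjk with hlt | hgt
            · rw [ih j hlt, mul_zero]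
            · rw [show C.π k * C.G * (C.π j * x) = (C.π k * C.G * C.π j) * x by
                simp only [mul_assoc], C.G_π_lt hgt, zero_mul]
          · intro h'; exact absurd hk h'
        rw [h1] at h2
        have h3 : (2 * (-1 : ℚ) ^ (k / 2)) ≠ 0 := mul_ne_zero (by norm_num) (pow_ne_zero _ (by norm_num))
        exact (smul_eq_zero.mp h2.symm).resolve_left h3
      · rw [← hx, ← mul_assoc, C.π_P, if_neg hk, zero_mul]
  rw [hsum]
  exact Finset.sum_eq_zero fun i _ => key i

/-- Degrees of the parity of `n` above the middle. -/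
def up (n : ℕ) : Finset ℕ := (Finset.range (2 * n + 1)).filter (fun i => i % 2 = n % 2 ∧ n < i)

theorem β_iso {T T' : Finset ℕ} (hT : ∀ i ∈ T, ∀ k ∈ T', 2 * n < i + k) {x y : C.E}
    (hx : C.P T * x = x) (hy : C.P T' * y = y) : C.β x y = 0 := by
  rw [← C.βf_apply]
  rw [← hx, ← hy, P, P, Finset.sum_mul, Finset.sum_mul, map_sum]
  apply Finset.sum_eq_zero
  intro k hk
  rw [map_sum, LinearMap.sum_apply]
  apply Finset.sum_eq_zero
  intro i hi
  rw [C.βf_apply]
  apply C.β_deg (i := i) (k := k) _ _ (hT i hi k hk)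
  · rw [← mul_assoc, C.π_π]
  · rw [← mul_assoc, C.π_π]

end Corr

end Pool.Agent.TH26.Orl
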