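import Pool.Agent.TH26.Orl.Lift

/-!
# Primitive parts, and the weights that have to be known
-/

set_option linter.unusedSectionVars false

namespace Pool.Agent.TH26.Orl

open Module

namespace Corr

variable {n : ℕ} (C : Corr n)

/-- The primitive parts `P^j(X)` and `P^j(X')` (the kernels of `L^{n-j+1}` on `h^j(X)` and
`h^j(X')`) are isomorphic: `u` and `v` induce mutually inverse bijections between the
correspondences `W → P^j(X)` and the correspondences `W → P^j(X')`. -/
def SamePrim (j : ℕ) : Prop :=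
  ∃ u v : C.E,
    (∀ a, C.hX j * a = a → C.L ^ (n - j + 1) * a = 0 →
      C.hX' j * (u * a) = u * a ∧ C.L ^ (n - j + 1) * (u * a) = 0 ∧ v * (u * a) = a) ∧
    (∀ a, C.hX' j * a = a → C.L ^ (n - j + 1) * a = 0 →
      C.hX j * (v * a) = v * a ∧ C.L ^ (n - j + 1) * (v * a) = 0 ∧ u * (v * a) = a)

/-- The primitive part of `g S` in degree `j`. -/
def prim (S : Submodule C.E C.E) (g : C.E) (j : ℕ) : Submodule ℚ C.E where
  carrier := {x | x ∈ cut S (g * C.π j) ∧ C.L ^ (n - j + 1) * x = 0}
  add_mem' := by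
    rintro a b ⟨ha, ha'⟩ ⟨hb, hb'⟩
    exact ⟨Submodule.add_mem _ ha hb, by rw [mul_add, ha', hb', add_zero]⟩
  zero_mem' := ⟨Submodule.zero_mem _, mul_zero _⟩
  smul_mem' := by
    rintro c a ⟨ha, ha'⟩
    exact ⟨Submodule.smul_mem _ _ ha, by rw [mul_smul_comm, ha', smul_zero]⟩

variable {C}

theorem finrank_prim_eq {j : ℕ} (h : C.SamePrim j) (S : Submodule C.E C.E) :
    finrank ℚ (C.prim S C.e j) = finrank ℚ (C.prim S (1 - C.e) j) := by
  obtain ⟨u, v, h1, h2⟩ := h
  refine LinearEquiv.finrank_eq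
    { toFun := fun x => ⟨u * x.1, ?_⟩
      invFun := fun x => ⟨v * x.1, ?_⟩
      map_add' := ?_
      map_smul' := ?_
      left_inv := ?_
      right_inv := ?_ }
  · have h := h1 x.1 x.2.1.2 x.2.2
    exact ⟨⟨lmul_mem S u x.2.1.1, h.1⟩, h.2.1⟩
  · intro x y
    apply Subtype.ext
    change u * (x.1 + y.1) = u * x.1 + u * y.1
    rw [mul_add]
  · intro c x
    apply Subtype.ext
    change u * (c • x.1) = c • (u * x.1)
    rw [mul_smul_comm]
  · have h := h2 x.1 x.2.1.2 x.2.2
    exact ⟨⟨lmul_mem S v x.2.1.1, h.1⟩, h.2.1⟩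
  · intro x
    exact Subtype.ext (h1 x.1 x.2.1.2 x.2.2).2.2
  · intro x
    exact Subtype.ext (h2 x.1 x.2.1.2 x.2.2).2.2

/-- Surjectivity part of hard Lefschetz on a left ideal. -/
theorem hl_surj {g : C.E} (hg : C.Side g) (S : Submodule C.E C.E) {i : ℕ} (hi : i ≤ n) {z : C.E}
    (hz : z ∈ cut S (g * C.π (2 * n - i))) :
    ∃ b ∈ cut S (g * C.π i), C.L ^ (n - i) * b = z := by
  obtain ⟨m, -, hm⟩ := C.hl i hi
  rw [hg.mem] at hz
  obtain ⟨h1, hz2, hz1⟩ := hz
  refine ⟨g * (C.π i * (m * z)), ?_, ?_⟩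
  · rw [hg.mem]
    refine ⟨lmul_mem S _ (lmul_mem S _ (lmul_mem S _ h1)), ?_, ?_⟩
    · rw [← mul_assoc, hg.id]
    · rw [← mul_assoc, ← hg.π, mul_assoc, ← mul_assoc (C.π i) (C.π i), C.π_π]
  · have e1 := C.L_pow_π (n - i) i
    rw [show i + 2 * (n - i) = 2 * n - i by omega] at e1
    calc C.L ^ (n - i) * (g * (C.π i * (m * z)))
        = g * ((C.L ^ (n - i) * C.π i) * (m * z)) := by
          rw [← mul_assoc, ← hg.Lp]; simp only [mul_assoc]
      _ = g * (C.π (2 * n - i) * (C.L ^ (n - i) * m * (C.π (2 * n - i) * z))) := by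
          rw [e1, hz1]; simp only [mul_assoc]
      _ = g * (C.π (2 * n - i) * ((C.L ^ (n - i) * m * C.π (2 * n - i)) * z)) := by
          simp only [mul_assoc]
      _ = z := by rw [hm, hz1, hz1, hz2]

theorem prim_dim_low {g : C.E} (hg : C.Side g) (S : Submodule C.E C.E) {j : ℕ} (hj : j < 2)
    (hjn : j ≤ n) : finrank ℚ (C.prim S g j) = d S (g * C.π j) := by
  unfold d
  have : C.prim S g j = cut S (g * C.π j) := by
    apply le_antisymm
    · rintro x ⟨hx, _⟩; exact hx
    · intro x hx
      refine ⟨hx, ?_⟩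
      rw [hg.mem] at hx
      rw [← hx.2.2, ← mul_assoc, C.L_pow_π, C.π_van _ (by omega), zero_mul, zero_mul]
  rw [this]

theorem prim_dim {g : C.E} (hg : C.Side g) (S : Submodule C.E C.E) {i : ℕ} (hi : i + 2 ≤ n) :
    finrank ℚ (C.prim S g (i + 2)) + d S (g * C.π i) = d S (g * C.π (i + 2)) := by
  let f : cut S (g * C.π (i + 2)) →ₗ[ℚ] C.E :=
    (LinearMap.mulLeft ℚ (C.L ^ (n - (i + 2) + 1))).domRestrict (cut S (g * C.π (i + 2)))
  have hf : ∀ x, f x = C.L ^ (n - (i + 2) + 1) * x.1 := fun x => rfl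
  have h1 := LinearMap.finrank_range_add_finrank_ker f
  have h2 : finrank ℚ (LinearMap.ker f) = finrank ℚ (C.prim S g (i + 2)) := by
    refine LinearEquiv.finrank_eq
      { toFun := fun x => ⟨x.1.1, x.1.2, LinearMap.mem_ker.mp x.2⟩
        invFun := fun x => ⟨⟨x.1, x.2.1⟩, LinearMap.mem_ker.mpr x.2.2⟩
        map_add' := fun _ _ => rfl
        map_smul' := fun _ _ => rfl
        left_inv := fun _ => rfl
        right_inv := fun _ => rfl }
  have h3 : LinearMap.range f = cut S (g * C.π (2 * n - i)) := by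
    apply le_antisymm
    · rintro _ ⟨x, rfl⟩
      have hx := hg.mem.mp x.2
      rw [hf, hg.mem]
      refine ⟨lmul_mem S _ hx.1, ?_, ?_⟩
      · rw [← mul_assoc, hg.Lp, mul_assoc, hx.2.1]
      · have := C.L_pow_π (n - (i + 2) + 1) (i + 2)
        rw [show i + 2 + 2 * (n - (i + 2) + 1) = 2 * n - i by omega] at this
        rw [← mul_assoc, ← this, mul_assoc, hx.2.2]
    · intro z hz
      obtain ⟨b, hb, hbz⟩ := hl_surj hg S (i := i) (by omega) hz
      rw [hg.mem] at hb
      refine ⟨⟨C.L * b, ?_⟩, ?_⟩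
      · rw [hg.mem]
        refine ⟨lmul_mem S _ hb.1, ?_, ?_⟩
        · rw [← mul_assoc, hg.L, mul_assoc, hb.2.1]
        · rw [← mul_assoc, ← C.L_π, mul_assoc, hb.2.2]
      · rw [hf]
        change C.L ^ (n - (i + 2) + 1) * (C.L * b) = z
        rw [← mul_assoc, ← pow_succ, show n - (i + 2) + 1 + 1 = n - i by omega, hbz]
  rw [h2, h3] at h1
  have h4 := d_dual hg S (i := i) (by omega)
  unfold d at h4 ⊢
  omega

/-- The difference of the dimensions on the two sides. -/
noncomputable def δ (S : Submodule C.E C.E) (i : ℕ) : ℤ := dz C.e S i - dz (1 - C.e) S i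

theorem δ_succ {j : ℕ} (h : C.SamePrim (j + 2)) (hj : j + 2 ≤ n) (S : Submodule C.E C.E) :
    δ S (j + 2) = δ S j := by
  have h1 := finrank_prim_eq h S
  have h2 := prim_dim C.side_e S hj
  have h3 := prim_dim C.side_e' S hj
  unfold δ dz
  omega

theorem δ_low {j : ℕ} (h : C.SamePrim j) (hj : j < 2) (hjn : j ≤ n) (S : Submodule C.E C.E) :
    δ S j = 0 := by
  have h1 := finrank_prim_eq h S
  have h2 := prim_dim_low C.side_e S hj hjn
  have h3 := prim_dim_low C.side_e' S hj hjn
  unfold δ dz
  omega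

theorem samePrim_of_equ {j : ℕ} (hj : j < 2) (hjn : j ≤ n) (h : Equ (C.hX j) (C.hX' j)) :
    C.SamePrim j := by
  obtain ⟨u, v, h1, h2, h3, h4⟩ := h
  have idX : C.hX j * C.hX j = C.hX j := C.side_e.idem j
  have idX' : C.hX' j * C.hX' j = C.hX' j := C.side_e'.idem j
  have hvan : ∀ g : C.E, C.Side g → ∀ a, (g * C.π j) * a = a → C.L ^ (n - j + 1) * a = 0 := by
    intro g hg a ha
    rw [← ha, ← mul_assoc, ← mul_assoc, ← hg.Lp, mul_assoc g, C.L_pow_π, C.π_van _ (by omega),
      zero_mul, mul_zero, zero_mul]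
  refine ⟨u, v, ?_, ?_⟩
  · intro a ha _
    have k1 : C.hX' j * (u * a) = u * a := by
      rw [← mul_assoc, ← h1]
      simp only [← mul_assoc, idX']
    exact ⟨k1, hvan _ C.side_e' _ k1, by rw [← mul_assoc, h3, ha]⟩
  · intro a ha _
    have k1 : C.hX j * (v * a) = v * a := by
      rw [← mul_assoc, ← h2]
      simp only [← mul_assoc, idX]
    exact ⟨k1, hvan _ C.side_e _ k1, by rw [← mul_assoc, h4, ha]⟩

end Corr

/-! ### Combinatorics: two linear equations, two unknown weights -/

/-- `f k = a [k ≤ K] + b [k ≤ K']` for the differences of a function which is constant except at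
two places. -/
theorem two_steps (m K K' : ℕ) (f : ℕ → ℤ) (hK : K < K') (hK' : K' ≤ m) (hm : f (m + 1) = 0)
    (hf : ∀ k, k ≤ m → k ≠ K → k ≠ K' → f k = f (k + 1)) :
    ∀ k, k ≤ m → f k = (if k ≤ K then f K - f K' else 0) + (if k ≤ K' then f K' else 0) := by
  have h1 : ∀ j k, k + j = m + 1 → K' < k → f k = 0 := by
    intro j
    induction j with
    | zero => intro k hk _; rw [show k = m + 1 by omega]; exact hm
    | succ j ih =>
      intro k hk hlt
      rw [hf k (by omega) (by omega) (by omega)]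
      exact ih (k + 1) (by omega) (by omega)
  have h2 : ∀ j k, k + j = K' → K < k → f k = f K' := by
    intro j
    induction j with
    | zero => intro k hk _; rw [show k = K' by omega]
    | succ j ih =>
      intro k hk hlt
      rw [hf k (by omega) (by omega) (by omega)]
      exact ih (k + 1) (by omega) (by omega)
  have h3 : ∀ j k, k + j = K → f k = f K := by
    intro j
    induction j with
    | zero => intro k hk; rw [show k = K by omega]
    | succ j ih =>
      intro k hk
      rw [hf k (by omega) (by omega) (by omega)]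
      exact ih (k + 1) (by omega)
  intro k hk
  rcases lt_or_ge K' k with h | h
  · rw [h1 (m + 1 - k) k (by omega) h, if_neg (by omega), if_neg (by omega)]; ring
  rcases lt_or_ge K k with h' | h'
  · rw [h2 (K' - k) k (by omega) h', if_neg (by omega), if_pos h]; ring
  · rw [h3 (K - k) k (by omega), if_pos h', if_pos h]; ring

theorem sum_ind (m K : ℕ) (hK : K ≤ m) (a : ℤ) :
    ∑ k ∈ Finset.range m, (if k + 1 ≤ K then a else 0) = K * a := by
  induction m with
  | zero => simp [show K = 0 by omega]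
  | succ m ih =>
    rw [Finset.sum_range_succ]
    by_cases h : K ≤ m
    · rw [ih h, if_neg (by omega), add_zero]
    · have hKm : K = m + 1 := by omega
      subst hKm
      have : ∑ k ∈ Finset.range m, (if k + 1 ≤ m + 1 then a else 0) =
          ∑ k ∈ Finset.range m, a := by
        apply Finset.sum_congr rfl
        intro k hk
        rw [Finset.mem_range] at hk
        rw [if_pos (by omega)]
      rw [this, if_pos (le_refl _), Finset.sum_const, Finset.card_range]
      push_cast
      simp
      ring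

theorem sum_ind_alt (m K : ℕ) (hK : K ≤ m) (a : ℤ) :
    ∑ k ∈ Finset.range m, (-1 : ℤ) ^ k * (if k + 1 ≤ K then a else 0) =
      (if K % 2 = 1 then a else 0) := by
  induction m with
  | zero => simp [show K = 0 by omega]
  | succ m ih =>
    rw [Finset.sum_range_succ]
    by_cases h : K ≤ m
    · rw [ih h, if_neg (by omega : ¬ m + 1 ≤ K), mul_zero, add_zero]
    · have hKm : K = m + 1 := by omega
      subst hKm
      have key : ∀ m : ℕ, ∑ k ∈ Finset.range m, (-1 : ℤ) ^ k * a =
          (if m % 2 = 1 then a else 0) := by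
        intro m
        induction m with
        | zero => simp
        | succ m ih =>
          rw [Finset.sum_range_succ, ih]
          rcases Nat.even_or_odd m with he | ho
          · rw [he.neg_one_pow]
            have h1 : m % 2 = 0 := Nat.even_iff.mp he
            rw [if_neg (by omega), if_pos (by omega)]; ring
          · rw [ho.neg_one_pow]
            have h1 : m % 2 = 1 := Nat.odd_iff.mp ho
            rw [if_pos (by omega), if_neg (by omega)]; ring
      have : ∑ k ∈ Finset.range m, (-1 : ℤ) ^ k * (if k + 1 ≤ m + 1 then a else 0) =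
          ∑ k ∈ Finset.range m, (-1 : ℤ) ^ k * a := by
        apply Finset.sum_congr rfl
        intro k hk
        rw [Finset.mem_range] at hk
        rw [if_pos (by omega)]
      rw [this, if_pos (le_refl _), ← Finset.sum_range_succ (fun k => (-1 : ℤ) ^ k * a) m]
      exact key (m + 1)

/-- Two equations determine two unknown jumps. -/
theorem two_unknowns (m K K' : ℕ) (f : ℕ → ℤ) (hK : K < K') (hK' : K' ≤ m) (hm : f (m + 1) = 0)
    (hf : ∀ k, k ≤ m → k ≠ K → k ≠ K' → f k = f (k + 1))
    (h1 : f 0 + 2 * ∑ k ∈ Finset.range m, f (k + 1) = 0)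
    (h2 : ∑ k ∈ Finset.range m, f (k + 1) + ∑ k ∈ Finset.range m, (-1 : ℤ) ^ k * f (k + 1) = 0) :
    ∀ k, k ≤ m → f k = 0 := by
  have hform := two_steps m K K' f hK hK' hm hf
  set a := f K - f K' with ha
  set b := f K' with hb
  have s1 : ∑ k ∈ Finset.range m, f (k + 1) = K * a + K' * b := by
    rw [← sum_ind m K (by omega) a, ← sum_ind m K' hK' b, ← Finset.sum_add_distrib]
    apply Finset.sum_congr rfl
    intro k hk
    rw [Finset.mem_range] at hk
    exact hform (k + 1) (by omega)
  have s2 : ∑ k ∈ Finset.range m, (-1 : ℤ) ^ k * f (k + 1) =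
      (if K % 2 = 1 then a else 0) + (if K' % 2 = 1 then b else 0) := by
    rw [← sum_ind_alt m K (by omega) a, ← sum_ind_alt m K' hK' b, ← Finset.sum_add_distrib]
    apply Finset.sum_congr rfl
    intro k hk
    rw [Finset.mem_range] at hk
    rw [hform (k + 1) (by omega)]
    ring
  have s0 : f 0 = a + b := by
    rw [hform 0 (by omega), if_pos (by omega), if_pos (by omega)]
  rw [s0, s1] at h1
  rw [s1, s2] at h2
  have hKK : (K : ℤ) < K' := by exact_mod_cast hK
  have hK0 : (0 : ℤ) ≤ K := by positivity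
  have hab : a = 0 ∧ b = 0 := by
    by_cases p1 : K % 2 = 1
    · by_cases p2 : K' % 2 = 1
      · rw [if_pos p1, if_pos p2] at h2
        have hb0 : ((K' : ℤ) - K) * b = 0 := by
          linear_combination (K + 1 : ℤ) * h1 - (2 * K + 1 : ℤ) * h2
        have hb : b = 0 := (mul_eq_zero.mp hb0).resolve_left (by omega)
        rw [hb] at h1
        have ha0 : (2 * (K : ℤ) + 1) * a = 0 := by linarith
        exact ⟨(mul_eq_zero.mp ha0).resolve_left (by omega), hb⟩
      · rw [if_pos p1, if_neg p2] at h2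
        have hb0 : ((K' : ℤ) + K + 1) * b = 0 := by
          linear_combination (K + 1 : ℤ) * h1 - (2 * K + 1 : ℤ) * h2
        have hb : b = 0 := (mul_eq_zero.mp hb0).resolve_left (by omega)
        rw [hb] at h1
        have ha0 : (2 * (K : ℤ) + 1) * a = 0 := by linarith
        exact ⟨(mul_eq_zero.mp ha0).resolve_left (by omega), hb⟩
    · by_cases p2 : K' % 2 = 1
      · rw [if_neg p1, if_pos p2] at h2
        have hb0 : ((K' : ℤ) + K + 1) * b = 0 := by
          linear_combination (-K : ℤ) * h1 + (2 * K + 1 : ℤ) * h2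
        have hb : b = 0 := (mul_eq_zero.mp hb0).resolve_left (by omega)
        rw [hb] at h1
        have ha0 : (2 * (K : ℤ) + 1) * a = 0 := by linarith
        exact ⟨(mul_eq_zero.mp ha0).resolve_left (by omega), hb⟩
      · rw [if_neg p1, if_neg p2] at h2
        have hb0 : ((K' : ℤ) - K) * b = 0 := by
          linear_combination (-K : ℤ) * h1 + (2 * K + 1 : ℤ) * h2
        have hb : b = 0 := (mul_eq_zero.mp hb0).resolve_left (by omega)
        rw [hb] at h1
        have ha0 : (2 * (K : ℤ) + 1) * a = 0 := by linarith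
        exact ⟨(mul_eq_zero.mp ha0).resolve_left (by omega), hb⟩
  intro k hk
  rw [hform k hk, hab.1, hab.2]
  simp

end Pool.Agent.TH26.Orl
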