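import Pool.Agent.TH26.Orl.Lvl

/-!
# Varieties with algebraic second cohomology
-/

set_option linter.unusedSectionVars false

namespace Pool.Agent.TH26.Orl

open Module

section

variable {E : Type} [Ring E] [Algebra ℚ E] [Module.Finite ℚ E]

/-- The rational span of the elements `a o b`: if `p` is an idempotent in it, then the identity
of the object cut out by `p` is a sum of maps which factor through the object cut out by `o`. -/
def through (o : E) : Submodule ℚ E := Submodule.span ℚ (Set.range fun ab : E × E => ab.1 * o * ab.2)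

theorem mem_through (o a b : E) : a * o * b ∈ through o := Submodule.subset_span ⟨(a, b), rfl⟩

/-- An idempotent which factors through `o` is a sum of copies of `o`. -/
theorem tate_count {o : E} (ho : o * o = o) (hscal : ∀ u, ∃ c : ℚ, o * u * o = c • o)
    (τ : E →ₗ[ℚ] ℚ) (tr : ∀ u v, τ (u * v) = τ (v * u)) :
    ∀ (N : ℕ) (p : E), d ⊤ p ≤ N → p * p = p → p ∈ through o →
      ∃ m : ℕ, τ p = m * τ o ∧ ∀ S : Submodule E E, d S p = m * d S o := by
  intro N
  induction N with
  | zero =>
    intro p hN hp _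
    have hp0 : p = 0 := by
      have h := Nat.le_zero.mp hN
      rw [d_eq_zero_iff] at h
      exact h p ⟨Submodule.mem_top, hp⟩
    refine ⟨0, by rw [hp0, map_zero]; simp, fun S => by rw [hp0, d_zero]; simp⟩
  | succ N ih =>
    intro p hN hp hgen
    by_cases hp0 : p = 0
    · exact ih p (by rw [hp0, d_zero]; exact Nat.zero_le _) hp hgen
    have hex : ∃ a b : E, o * a * p * b * o ≠ 0 := by
      by_contra hall
      push Not at hall
      have h1 : ∀ a : E, o * a * p = 0 := by
        intro a
        have key : ∀ w ∈ through o, o * a * p * w = 0 := by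
          intro w hw
          induction hw using Submodule.span_induction with
          | mem x hx =>
            obtain ⟨⟨a', b'⟩, rfl⟩ := hx
            have := hall a a'
            calc o * a * p * (a' * o * b') = (o * a * p * a' * o) * b' := by
                  simp only [mul_assoc]
              _ = 0 := by rw [this, zero_mul]
          | zero => rw [mul_zero]
          | add x y _ _ hx hy => rw [mul_add, hx, hy, add_zero]
          | smul c x _ hx => rw [mul_smul_comm, hx, smul_zero]
        have := key p hgen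
        rwa [mul_assoc, hp] at this
      have h2 : ∀ w ∈ through o, w * p = 0 := by
        intro w hw
        induction hw using Submodule.span_induction with
        | mem x hx =>
          obtain ⟨⟨a', b'⟩, rfl⟩ := hx
          have := h1 b'
          calc a' * o * b' * p = a' * (o * b' * p) := by simp only [mul_assoc]
            _ = 0 := by rw [this, mul_zero]
        | zero => rw [zero_mul]
        | add x y _ _ hx hy => rw [add_mul, hx, hy, add_zero]
        | smul c x _ hx => rw [smul_mul_assoc, hx, smul_zero]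
      have h3 := h2 p hgen
      rw [hp] at h3
      exact hp0 h3
    obtain ⟨a, b, hab⟩ := hex
    obtain ⟨c, hc⟩ := hscal (a * p * b)
    have hc' : o * a * p * b * o = c • o := by rw [← hc]; simp only [mul_assoc]
    have hc0 : c ≠ 0 := by
      rintro rfl
      rw [zero_smul] at hc'
      exact hab hc'
    obtain ⟨x, hx⟩ : ∃ x, x = p * b * o := ⟨_, rfl⟩
    obtain ⟨y, hy⟩ : ∃ y, y = c⁻¹ • (o * a * p) := ⟨_, rfl⟩
    have hyx : y * x = o := by
      rw [hy, hx, smul_mul_assoc]
      have : o * a * p * (p * b * o) = o * a * p * b * o := by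
        calc o * a * p * (p * b * o) = o * a * (p * p) * b * o := by simp only [mul_assoc]
          _ = _ := by rw [hp]
      rw [this, hc', smul_smul, inv_mul_cancel₀ hc0, one_smul]
    have hpx : p * x = x := by
      rw [hx]; simp only [← mul_assoc, hp]
    have hyp : y * p = y := by
      rw [hy, smul_mul_assoc, mul_assoc, hp]
    have hoy : o * y = y := by
      rw [hy, mul_smul_comm]; simp only [← mul_assoc, ho]
    have hxo : x * o = x := by
      rw [hx, mul_assoc, ho]
    have hq : (x * y) * (x * y) = x * y := by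
      calc (x * y) * (x * y) = x * (y * x) * y := by simp only [mul_assoc]
        _ = x * y := by rw [hyx, hxo]
    have hpq : p * (x * y) = x * y := by rw [← mul_assoc, hpx]
    have hqp : (x * y) * p = x * y := by rw [mul_assoc, hyp]
    have hE : Equ (x * y) o := by
      refine ⟨y, x, ?_, ?_, rfl, hyx⟩
      · rw [hoy]
        calc y * (x * y) = (y * x) * y := by rw [mul_assoc]
          _ = y := by rw [hyx, hoy]
      · calc x * y * x * o = x * (y * x) * o := by simp only [mul_assoc]
          _ = x := by rw [hyx, hxo, hxo]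
    have hp1 : (p - x * y) * (p - x * y) = p - x * y := by
      rw [sub_mul, mul_sub, mul_sub, hp, hpq, hqp, hq]; abel
    have hmem : p - x * y ∈ through o := by
      refine Submodule.sub_mem _ hgen ?_
      have := mem_through o x y
      rwa [hxo] at this
    have hlt : d ⊤ (p - x * y) ≤ N := by
      have e1 := d_sub ⊤ hp hq hpq hqp
      have e2 : d ⊤ (x * y) ≠ 0 := by
        rw [Ne, d_eq_zero_iff]
        intro h
        have h0 := h _ ⟨Submodule.mem_top, hq⟩
        have : o = 0 := by
          calc o = o * o := ho.symm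
            _ = (y * x) * (y * x) := by rw [hyx]
            _ = y * (x * y) * x := by simp only [mul_assoc]
            _ = 0 := by rw [h0, mul_zero, zero_mul]
        apply hab
        rw [this, mul_zero]
      omega
    obtain ⟨m, hm1, hm2⟩ := ih (p - x * y) hlt hp1 hmem
    refine ⟨m + 1, ?_, ?_⟩
    · have h1 : τ (x * y) = τ o := by rw [tr, hyx]
      rw [map_sub, h1] at hm1
      push_cast
      linarith
    · intro S
      have h1 := d_sub S hp hq hpq hqp
      have h2 := d_equ S hE
      rw [h1, hm2 S, h2]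
      ring

end

namespace Corr

variable {n : ℕ} {C : Corr n}

theorem tau_equ (tr : ∀ u v, C.τ (u * v) = C.τ (v * u)) {p q : C.E} (h : Equ p q) :
    C.τ p = C.τ q := by
  obtain ⟨u, v, _, _, h3, h4⟩ := h
  rw [← h3, ← h4, tr]

theorem tau_sum (g : C.E) (T : Finset ℕ) :
    C.τ (g * C.P T) = ∑ i ∈ T, C.τ (g * C.π i) := by
  unfold P
  rw [Finset.mul_sum, map_sum]

/-- Algebraic second cohomologies of the same dimension are isomorphic. -/
theorem equ_two (tr : ∀ u v, C.τ (u * v) = C.τ (v * u)) (unit : ∀ u, ∃ c : ℚ, C.hX 0 * u * C.hX 0 = c • C.hX 0)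
    (alg : C.hX 2 ∈ through (C.hX 0)) (alg' : C.hX' 2 ∈ through (C.hX 0))
    (h : C.τ (C.hX 2) = C.τ (C.hX' 2)) : Equ (C.hX 2) (C.hX' 2) := by
  have ho : C.hX 0 * C.hX 0 = C.hX 0 := C.side_e.idem 0
  have i1 : C.hX 2 * C.hX 2 = C.hX 2 := C.side_e.idem 2
  have i2 : C.hX' 2 * C.hX' 2 = C.hX' 2 := C.side_e'.idem 2
  obtain ⟨m, hm1, hm2⟩ := tate_count ho unit C.τ tr _ (C.hX 2) (le_refl _) i1 alg
  obtain ⟨m', hm1', hm2'⟩ := tate_count ho unit C.τ tr _ (C.hX' 2) (le_refl _) i2 alg'
  rw [equ_iff i1 i2]
  intro S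
  rw [hm2 S, hm2' S]
  by_cases hz : C.hX 0 = 0
  · rw [hz, d_zero, mul_zero, mul_zero]
  · have hpos := C.pos (C.hX 0) hz
    have e1 : C.s * C.t (C.hX 0) * C.s * C.hX 0 = C.hX 0 := by
      unfold hX
      rw [C.t_mul, C.t_π 0 (by omega), C.t_e, ← C.e_π]
      calc C.s * (C.e * C.π (2 * n - 0)) * C.s * (C.e * C.π 0)
          = (C.s * C.e) * (C.π (2 * n - 0) * C.s) * (C.e * C.π 0) := by simp only [mul_assoc]
        _ = (C.e * C.s) * (C.s * C.π 0) * (C.e * C.π 0) := by
            rw [C.e_s, C.s_π 0 (by omega)]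
        _ = C.e * (C.s * C.s) * (C.π 0 * C.e) * C.π 0 := by simp only [mul_assoc]
        _ = C.e * (C.e * C.π 0) * C.π 0 := by rw [C.s_s, mul_one, C.e_π]
        _ = (C.e * C.e) * (C.π 0 * C.π 0) := by simp only [mul_assoc]
        _ = _ := by rw [C.e_e, C.π_π]
    rw [e1] at hpos
    have : (m : ℚ) * C.τ (C.hX 0) = m' * C.τ (C.hX 0) := by rw [← hm1, ← hm1', h]
    have h2 : (m : ℚ) = m' := mul_right_cancel₀ hpos.ne' this
    have h3 : m = m' := by exact_mod_cast h2
    rw [h3]

/-- From `h^i` to primitive parts. -/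
theorem SP_of_equ {S : Submodule C.E C.E} {j : ℕ} (hj : j + 2 ≤ n) (h : Equ (C.hX j) (C.hX' j))
    (h' : Equ (C.hX (j + 2)) (C.hX' (j + 2))) : SP S (j + 2) := by
  have h2 := prim_dim C.side_e S hj
  have h3 := prim_dim C.side_e' S hj
  have h4 := d_equ S h
  have h5 := d_equ S h'
  unfold hX hX' at h4 h5
  unfold SP
  omega

theorem SP_low {S : Submodule C.E C.E} {j : ℕ} (hj : j < 2) (hjn : j ≤ n)
    (h : Equ (C.hX j) (C.hX' j)) : SP S j := by
  have h2 := prim_dim_low C.side_e S hj hjn
  have h3 := prim_dim_low C.side_e' S hj hjn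
  have h4 := d_equ S h
  unfold hX hX' at h4
  unfold SP
  omega

/-- In dimension at most six `h^0` and `h^2` determine the even part. -/
theorem FM.even_of_two (Φ : C.FM) (hn : n ≤ 6) (h0 : Equ (C.hX 0) (C.hX' 0))
    (h2 : 2 ≤ n → Equ (C.hX 2) (C.hX' 2)) (i : ℕ) (hi : i % 2 = 0) :
    Equ (C.hX i) (C.hX' i) := by
  have s0 : ∀ S : Submodule C.E C.E, SP S 0 := fun S => SP_low (by omega) (by omega) h0
  have s2 : ∀ S : Submodule C.E C.E, 2 ≤ n → SP S 2 := fun S hn2 =>
    SP_of_equ (j := 0) (by omega) h0 (h2 hn2)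
  by_cases hi2 : i ≤ 2 * n
  · apply equ_of_δ
    intro S
    by_cases hp : n % 2 = 0
    · have key := fun k hk => Φ.same_parity' S (by
        intro j₁ j₂ j₃ a b c d e f
        by_cases h1 : j₁ = 0
        · rw [h1]; exact Or.inl (s0 S)
        · have : j₁ = 2 := by omega
          rw [this]; exact Or.inl (s2 S (by omega))) k hk
      rcases le_or_gt i n with h' | h'
      · have := key ((n - i) / 2) (by omega)
        rwa [show n - 2 * ((n - i) / 2) = i by omega] at this
      · rw [δ_symm _ i hi2]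
        have := key ((i - n) / 2) (by omega)
        rwa [show n - 2 * ((i - n) / 2) = 2 * n - i by omega] at this
    · have key := fun k hk => Φ.other_parity' (by omega) S (by
        intro j₁ j₂ a b c d
        by_cases h1 : j₁ = 0
        · rw [h1]; exact Or.inl (s0 S)
        · have : j₁ = 2 := by omega
          rw [this]; exact Or.inl (s2 S (by omega))) k hk
      rcases le_or_gt i n with h' | h'
      · have := key ((n - 1 - i) / 2) (by omega)
        rwa [show n - 1 - 2 * ((n - 1 - i) / 2) = i by omega] at this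
      · rw [δ_symm _ i hi2]
        have := key ((i - n - 1) / 2) (by omega)
        rwa [show n - 1 - 2 * ((i - n - 1) / 2) = 2 * n - i by omega] at this
  · exact equ_out (by omega)

theorem equ_dual {g : C.E} (hg : C.Side g) {i : ℕ} (hi : i ≤ 2 * n) :
    Equ (g * C.π i) (g * C.π (2 * n - i)) := by
  rw [equ_iff (hg.idem i) (hg.idem _)]
  exact fun S => d_dual hg S hi

theorem FM.tau_par (Φ : C.FM) (tr : ∀ u v, C.τ (u * v) = C.τ (v * u)) (ε : ℕ) :
    ∑ i ∈ par2 n ε, C.τ (C.hX i) = ∑ i ∈ par2 n ε, C.τ (C.hX' i) := by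
  unfold hX hX'
  rw [← tau_sum, ← tau_sum]
  apply tau_equ tr
  rw [equ_iff (C.side_e.idemP _) (C.side_e'.idemP _)]
  exact fun S => Φ.d_par S ε

/-- The second moment of the Betti numbers in dimension five. -/
theorem FM.moment_five {C : Corr 5} (Φ : C.FM) (tr : ∀ u v, C.τ (u * v) = C.τ (v * u))
    (h0 : Equ (C.hX 0) (C.hX' 0)) (h1 : ∀ i, i % 2 = 1 → Equ (C.hX i) (C.hX' i)) :
    ∑ i ∈ Finset.range 11, (-1 : ℚ) ^ i * ((i : ℚ) - 5) ^ 2 * (C.τ (C.hX i) - C.τ (C.hX' i)) =
      16 * (C.τ (C.hX 2) - C.τ (C.hX' 2)) := by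
  have hp := Φ.tau_par tr 0
  have e : ∀ i, i ≤ 10 → C.τ (C.hX i) = C.τ (C.hX (10 - i)) := fun i hi =>
    tau_equ tr (equ_dual C.side_e (n := 5) (i := i) (by omega))
  have e' : ∀ i, i ≤ 10 → C.τ (C.hX' i) = C.τ (C.hX' (10 - i)) := fun i hi =>
    tau_equ tr (equ_dual C.side_e' (n := 5) (i := i) (by omega))
  have z0 := tau_equ tr h0
  have z1 := fun i hi => tau_equ tr (h1 i hi)
  have hpar : par2 5 0 = {0, 2, 4, 6, 8, 10} := by
    ext i
    simp only [par2, Finset.mem_filter, Finset.mem_range, Finset.mem_insert,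
      Finset.mem_singleton]
    omega
  rw [hpar] at hp
  simp only [Finset.sum_range_succ, Finset.sum_range_zero]
  norm_num at hp ⊢
  have a1 := e 10 (by norm_num)
  have a2 := e' 10 (by norm_num)
  have a3 := e 8 (by norm_num)
  have a4 := e' 8 (by norm_num)
  have a5 := e 6 (by norm_num)
  have a6 := e' 6 (by norm_num)
  norm_num at a1 a2 a3 a4 a5 a6
  rw [z1 1 (by norm_num), z1 3 (by norm_num), z1 7 (by norm_num), z1 9 (by norm_num)]
  rw [a1, a2, a3, a4, a5, a6] at hp
  rw [a1, a2, a3, a4, a5, a6]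
  linarith

/-- The second moment of the Betti numbers in dimension six. -/
theorem FM.moment_six {C : Corr 6} (Φ : C.FM) (tr : ∀ u v, C.τ (u * v) = C.τ (v * u))
    (h0 : Equ (C.hX 0) (C.hX' 0)) (h1 : ∀ i, i % 2 = 1 → Equ (C.hX i) (C.hX' i)) :
    ∑ i ∈ Finset.range 13, (-1 : ℚ) ^ i * ((i : ℚ) - 6) ^ 2 * (C.τ (C.hX i) - C.τ (C.hX' i)) =
      32 * (C.τ (C.hX 2) - C.τ (C.hX' 2)) := by
  have hp := tau_equ tr Φ.low
  rw [tau_sum, tau_sum] at hp
  change ∑ i ∈ lowT 6, C.τ (C.hX i) = ∑ i ∈ lowT 6, C.τ (C.hX' i) at hp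
  have hlow : lowT 6 = {0, 4} := by
    ext i
    simp only [lowT, Finset.mem_filter, Finset.mem_range, Finset.mem_insert,
      Finset.mem_singleton]
    omega
  rw [hlow, Finset.sum_pair (by norm_num), Finset.sum_pair (by norm_num)] at hp
  have e : ∀ i, i ≤ 12 → C.τ (C.hX i) = C.τ (C.hX (12 - i)) := fun i hi =>
    tau_equ tr (equ_dual C.side_e (n := 6) (i := i) (by omega))
  have e' : ∀ i, i ≤ 12 → C.τ (C.hX' i) = C.τ (C.hX' (12 - i)) := fun i hi =>
    tau_equ tr (equ_dual C.side_e' (n := 6) (i := i) (by omega))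
  have z0 := tau_equ tr h0
  have z1 := fun i hi => tau_equ tr (h1 i hi)
  simp only [Finset.sum_range_succ, Finset.sum_range_zero]
  norm_num
  have a1 := e 12 (by norm_num)
  have a2 := e' 12 (by norm_num)
  have a3 := e 10 (by norm_num)
  have a4 := e' 10 (by norm_num)
  have a5 := e 8 (by norm_num)
  have a6 := e' 8 (by norm_num)
  norm_num at a1 a2 a3 a4 a5 a6
  rw [z1 1 (by norm_num), z1 3 (by norm_num), z1 5 (by norm_num), z1 7 (by norm_num),
    z1 9 (by norm_num), z1 11 (by norm_num)]
  rw [a1, a2, a3, a4, a5, a6]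
  linarith

/-- The odd part in dimension five and six. -/
theorem FM.odd_part (Φ : C.FM) (hn : n = 5 ∨ n = 6) (h1 : Equ (C.hX 1) (C.hX' 1))
    (h3 : n = 6 → Equ (C.hX 3) (C.hX' 3)) (i : ℕ) (hi : i % 2 = 1) :
    Equ (C.hX i) (C.hX' i) := by
  have s1 : ∀ S : Submodule C.E C.E, SP S 1 := fun S => SP_low (by omega) (by omega) h1
  have s3 : ∀ S : Submodule C.E C.E, n = 6 → SP S 3 := fun S h6 =>
    SP_of_equ (j := 1) (by omega) h1 (h3 h6)
  by_cases hi2 : i ≤ 2 * n
  · apply equ_of_δ
    intro S
    rcases hn with h5 | h6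
    · have key := fun k hk => Φ.same_parity' S (by
        intro j₁ j₂ j₃ a b c d e f
        have : j₁ = 1 := by omega
        rw [this]; exact Or.inl (s1 S)) k hk
      rcases le_or_gt i n with h' | h'
      · have := key ((n - i) / 2) (by omega)
        rwa [show n - 2 * ((n - i) / 2) = i by omega] at this
      · rw [δ_symm _ i hi2]
        have := key ((i - n) / 2) (by omega)
        rwa [show n - 2 * ((i - n) / 2) = 2 * n - i by omega] at this
    · have key := fun k hk => Φ.other_parity' (by omega) S (by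
        intro j₁ j₂ a b c d
        by_cases h1 : j₁ = 1
        · rw [h1]; exact Or.inl (s1 S)
        · have : j₁ = 3 := by omega
          rw [this]; exact Or.inl (s3 S h6)) k hk
      rcases le_or_gt i n with h' | h'
      · have := key ((n - 1 - i) / 2) (by omega)
        rwa [show n - 1 - 2 * ((n - 1 - i) / 2) = i by omega] at this
      · rw [δ_symm _ i hi2]
        have := key ((i - n - 1) / 2) (by omega)
        rwa [show n - 1 - 2 * ((i - n - 1) / 2) = 2 * n - i by omega] at this
  · exact equ_out (by omega)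

end Corr

end Pool.Agent.TH26.Orl
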