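import Pool.Agent.TH26.Orl.Inert

/-!
# Orlov's conjecture from the low degrees
-/

set_option linter.unusedSectionVars false

namespace Pool.Agent.TH26.Orl

open Module

/-- Degrees `i ≤ n` with `i ≡ n - 2` modulo four. -/
def lowT (n : ℕ) : Finset ℕ := (Finset.range (n + 1)).filter (fun i => (i + 2) % 4 = n % 4)

/-- Degrees `i ≤ 2 n` with `i ≡ n` modulo four. -/
def midT (n : ℕ) : Finset ℕ := (Finset.range (2 * n + 1)).filter (fun i => i % 4 = n % 4)

theorem comb1 (n : ℕ) (x : ℕ → ℤ) :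
    ∑ j ∈ Finset.range (n / 2), x (n - 2 * (0 + 1 + j)) +
      ∑ j ∈ Finset.range (n / 2), (-1 : ℤ) ^ j * x (n - 2 * (0 + 1 + j)) =
      2 * ∑ i ∈ lowT n, x i := by
  have h1 : ∑ i ∈ lowT n, x i =
      ∑ j ∈ (Finset.range (n / 2)).filter (fun j => j % 2 = 0), x (n - 2 * (0 + 1 + j)) := by
    symm
    refine Finset.sum_nbij' (fun j => n - 2 * (0 + 1 + j)) (fun i => (n - i) / 2 - 1) ?_ ?_ ?_ ?_ ?_
    · intro j hj
      simp only [lowT, Finset.mem_filter, Finset.mem_range] at hj ⊢
      omega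
    · intro i hi
      simp only [lowT, Finset.mem_filter, Finset.mem_range] at hi ⊢
      omega
    · intro j hj
      simp only [Finset.mem_filter, Finset.mem_range] at hj
      omega
    · intro i hi
      simp only [lowT, Finset.mem_filter, Finset.mem_range] at hi
      omega
    · intro j _
      rfl
  rw [h1, Finset.sum_filter, Finset.mul_sum, ← Finset.sum_add_distrib]
  apply Finset.sum_congr rfl
  intro j _
  split_ifs with hj
  · have : (-1 : ℤ) ^ j = 1 := by
      rw [← Nat.even_iff] at hj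
      exact hj.neg_one_pow
    rw [this]; ring
  · have : (-1 : ℤ) ^ j = -1 := by
      have : j % 2 = 1 := by omega
      rw [← Nat.odd_iff] at this
      exact this.neg_one_pow
    rw [this]; ring

theorem comb2 (n : ℕ) (x : ℕ → ℤ) (hx : ∀ i, i ≤ 2 * n → x i = x (2 * n - i)) :
    ∑ i ∈ Corr.up n, x i = ∑ j ∈ Finset.range (n / 2), x (n - 2 * (0 + 1 + j)) := by
  symm
  refine Finset.sum_nbij' (fun j => n + 2 * (0 + 1 + j)) (fun i => (i - n) / 2 - 1) ?_ ?_ ?_ ?_ ?_
  · intro j hj
    simp only [Corr.up, Finset.mem_filter, Finset.mem_range] at hj ⊢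
    omega
  · intro i hi
    simp only [Corr.up, Finset.mem_filter, Finset.mem_range] at hi ⊢
    omega
  · intro j hj
    simp only [Finset.mem_range] at hj
    omega
  · intro i hi
    simp only [Corr.up, Finset.mem_filter, Finset.mem_range] at hi
    omega
  · intro j hj
    simp only [Finset.mem_range] at hj
    rw [hx _ (by omega)]
    congr 1
    omega

theorem comb3 (n : ℕ) (x : ℕ → ℤ) (hx : ∀ i, i ≤ 2 * n → x i = x (2 * n - i)) :
    ∑ i ∈ Corr.par2 n n, x i = ∑ i ∈ midT n, x i + 2 * ∑ i ∈ lowT n, x i := by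
  have h1 : Corr.par2 n n = midT n ∪ (lowT n ∪ (lowT n).image (fun i => 2 * n - i)) := by
    ext i
    simp only [Corr.par2, midT, lowT, Finset.mem_union, Finset.mem_image, Finset.mem_filter,
      Finset.mem_range]
    constructor
    · rintro ⟨h1, h2⟩
      by_cases h3 : i % 4 = n % 4
      · left; exact ⟨h1, h3⟩
      · right
        by_cases h4 : i ≤ n
        · left; omega
        · right; exact ⟨2 * n - i, by omega, by omega⟩
    · rintro (h | h | ⟨j, h, h'⟩) <;> omega
  have hd1 : Disjoint (midT n) (lowT n ∪ (lowT n).image (fun i => 2 * n - i)) := by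
    rw [Finset.disjoint_left]
    intro i hi
    simp only [midT, lowT, Finset.mem_union, Finset.mem_image, Finset.mem_filter,
      Finset.mem_range] at hi ⊢
    rintro (h | ⟨j, h, h'⟩) <;> omega
  have hd2 : Disjoint (lowT n) ((lowT n).image (fun i => 2 * n - i)) := by
    rw [Finset.disjoint_left]
    intro i hi
    simp only [lowT, Finset.mem_image, Finset.mem_filter, Finset.mem_range] at hi ⊢
    rintro ⟨j, h, h'⟩
    omega
  rw [h1, Finset.sum_union hd1, Finset.sum_union hd2, Finset.sum_image]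
  · have : ∑ i ∈ lowT n, x (2 * n - i) = ∑ i ∈ lowT n, x i := by
      apply Finset.sum_congr rfl
      intro i hi
      simp only [lowT, Finset.mem_filter, Finset.mem_range] at hi
      exact (hx i (by omega)).symm
    rw [this]; ring
  · intro i hi j hj hij
    simp only [lowT, Finset.coe_filter, Finset.mem_range, Set.mem_ofPred_eq] at hi hj
    have : 2 * n - i = 2 * n - j := hij
    omega

namespace Corr

variable {n : ℕ} {C : Corr n}

/-- Every left ideal is generated by an idempotent. -/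
theorem idem_gen (S : Submodule C.E C.E) : ∃ f ∈ S, ∀ x ∈ S, x * f = x := by
  -- the form `q` on `S`
  let SQ : Submodule ℚ C.E := cut S 1
  have hSQ : ∀ x, x ∈ SQ ↔ x ∈ S := fun x => by
    change x ∈ cut S 1 ↔ _
    rw [mem_cut]; simp
  let qf : C.E →ₗ[ℚ] C.E →ₗ[ℚ] ℚ :=
    LinearMap.mk₂ ℚ C.q
      (by intro a b c; unfold q; simp only [map_add, mul_add, add_mul]; ring)
      (by intro r a b; unfold q
          simp only [map_smul, mul_smul_comm, smul_mul_assoc, smul_eq_mul]; ring)
      (by intro a b c; unfold q; simp only [map_add, mul_add, add_mul]; ring)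
      (by intro r a b; unfold q
          simp only [map_smul, mul_smul_comm, smul_mul_assoc, smul_eq_mul]; ring)
  let F : SQ →ₗ[ℚ] (SQ →ₗ[ℚ] ℚ) := qf.compl₁₂ SQ.subtype SQ.subtype
  have hF : Function.Injective F := by
    rw [← LinearMap.ker_eq_bot, LinearMap.ker_eq_bot']
    intro x hx
    by_contra hne
    have h1 : C.q x.1 x.1 = 0 := by
      have := congrArg (fun f => f x) hx
      exact this
    have h2 := C.q_pos (x := x.1) (fun h => hne (Subtype.ext h))
    linarith
  have hsurj : Function.Surjective F := by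
    have hdim : finrank ℚ SQ = finrank ℚ (SQ →ₗ[ℚ] ℚ) := (Subspace.dual_finrank_eq).symm
    exact (LinearMap.injective_iff_surjective_of_finrank_eq_finrank hdim).mp hF
  obtain ⟨f, hf⟩ := hsurj ((qf 1).comp SQ.subtype)
  have hf' : ∀ y ∈ S, C.q f.1 y = C.q 1 y := by
    intro y hy
    have := congrArg (fun g => g ⟨y, (hSQ y).mpr hy⟩) hf
    exact this
  refine ⟨f.1, (hSQ _).mp f.2, ?_⟩
  intro x hx
  by_contra hne
  have hz : x * f.1 - x ∈ S :=
    S.sub_mem (lmul_mem S _ ((hSQ _).mp f.2)) hx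
  have h1 : C.q (x * f.1 - x) (x * f.1 - x) = 0 := by
    have e1 : x * f.1 - x = x * (f.1 - 1) := by rw [mul_sub, mul_one]
    nth_rw 1 [e1]
    rw [C.q_adj]
    have hw : C.s * C.t x * C.s * (x * f.1 - x) ∈ S := lmul_mem S _ hz
    have h2 := hf' _ hw
    have h3 : C.q (f.1 - 1) (C.s * C.t x * C.s * (x * f.1 - x)) =
        C.q f.1 (C.s * C.t x * C.s * (x * f.1 - x)) -
          C.q 1 (C.s * C.t x * C.s * (x * f.1 - x)) := by
      have := congrArg (fun g => g (C.s * C.t x * C.s * (x * f.1 - x)))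
        (map_sub qf f.1 1)
      exact this
    rw [h3, h2, sub_self]
  exact absurd h1 (ne_of_gt (C.q_pos (sub_ne_zero.mpr hne)))

theorem equ_iff {p q : C.E} (hp : p * p = p) (hq : q * q = q) :
    Equ p q ↔ ∀ S : Submodule C.E C.E, d S p = d S q :=
  ⟨fun h S => d_equ S h, fun h => equ_of_d idem_gen _ p q (le_refl _) hp hq h⟩

/-- Dimensions as integers. -/
noncomputable def dz (g : C.E) (S : Submodule C.E C.E) (i : ℕ) : ℤ := (d S (g * C.π i) : ℤ)

theorem dz_symm {g : C.E} (hg : C.Side g) (S : Submodule C.E C.E) (i : ℕ) (hi : i ≤ 2 * n) :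
    dz g S i = dz g S (2 * n - i) := by
  unfold dz
  rw [d_dual hg S hi]

theorem FM.sum_par (Φ : C.FM) (S : Submodule C.E C.E) (ε : ℕ) :
    ∑ i ∈ par2 n ε, dz C.e S i = ∑ i ∈ par2 n ε, dz (1 - C.e) S i := by
  have := Φ.d_par S ε
  rw [d_P C.side_e, d_P C.side_e'] at this
  unfold dz
  exact_mod_cast this

theorem FM.sum_low (Φ : C.FM) (S : Submodule C.E C.E) :
    ∑ i ∈ lowT n, dz C.e S i = ∑ i ∈ lowT n, dz (1 - C.e) S i := by
  have hε : (- ε n 0) * (- ε n 0) = 1 := by rw [neg_mul_neg]; exact ε_sq n 0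
  have h := Φ.inertia S hε
  rw [d_P C.side_e, d_P C.side_e'] at h
  have f1 := ed_formula (S := S) C.side_e (n / 2) 0 (by omega) (by omega)
  have f2 := ed_formula (S := S) C.side_e' (n / 2) 0 (by omega) (by omega)
  have g1 := comb2 n (dz C.e S) (dz_symm C.side_e S)
  have g2 := comb2 n (dz (1 - C.e) S) (dz_symm C.side_e' S)
  have k1 := comb1 n (dz C.e S)
  have k2 := comb1 n (dz (1 - C.e) S)
  have h' : (∑ i ∈ up n, dz C.e S i) + (ed C S C.e 0 (- ε n 0) : ℤ) =
      (∑ i ∈ up n, dz (1 - C.e) S i) + (ed C S (1 - C.e) 0 (- ε n 0) : ℤ) := by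
    unfold dz
    exact_mod_cast h
  rw [f1, f2, g1, g2] at h'
  have k1' : ∑ j ∈ Finset.range (n / 2), dz C.e S (n - 2 * (0 + 1 + j)) +
      ∑ j ∈ Finset.range (n / 2), (-1 : ℤ) ^ j * (d S (C.e * C.π (n - 2 * (0 + 1 + j))) : ℤ) =
      2 * ∑ i ∈ lowT n, dz C.e S i := k1
  have k2' : ∑ j ∈ Finset.range (n / 2), dz (1 - C.e) S (n - 2 * (0 + 1 + j)) +
      ∑ j ∈ Finset.range (n / 2), (-1 : ℤ) ^ j *
        (d S ((1 - C.e) * C.π (n - 2 * (0 + 1 + j))) : ℤ) =
      2 * ∑ i ∈ lowT n, dz (1 - C.e) S i := k2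
  rw [k1', k2'] at h'
  linarith

theorem FM.sum_mid (Φ : C.FM) (S : Submodule C.E C.E) :
    ∑ i ∈ midT n, dz C.e S i = ∑ i ∈ midT n, dz (1 - C.e) S i := by
  have h1 := Φ.sum_par S n
  have h2 := Φ.sum_low S
  rw [comb3 n _ (dz_symm C.side_e S), comb3 n _ (dz_symm C.side_e' S)] at h1
  linarith

theorem FM.low (Φ : C.FM) : Equ (C.e * C.P (lowT n)) ((1 - C.e) * C.P (lowT n)) := by
  rw [equ_iff (C.side_e.idemP _) (C.side_e'.idemP _)]
  intro S
  rw [d_P C.side_e, d_P C.side_e']
  have := Φ.sum_low S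
  unfold dz at this
  exact_mod_cast this

theorem FM.mid (Φ : C.FM) : Equ (C.e * C.P (midT n)) ((1 - C.e) * C.P (midT n)) := by
  rw [equ_iff (C.side_e.idemP _) (C.side_e'.idemP _)]
  intro S
  rw [d_P C.side_e, d_P C.side_e']
  have := Φ.sum_mid S
  unfold dz at this
  exact_mod_cast this

theorem dz_of_equ {i : ℕ} (h : Equ (C.hX i) (C.hX' i)) (S : Submodule C.E C.E) :
    dz C.e S i = dz (1 - C.e) S i := by
  unfold dz
  exact_mod_cast d_equ S h

theorem equ_of_dz {i : ℕ} (h : ∀ S, dz C.e S i = dz (1 - C.e) S i) : Equ (C.hX i) (C.hX' i) := by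
  unfold hX hX'
  rw [equ_iff (C.side_e.idem _) (C.side_e'.idem _)]
  intro S
  have := h S
  unfold dz at this
  exact_mod_cast this

/-- A sum with one unknown term. -/
theorem sum_one {T : Finset ℕ} {x y : ℕ → ℤ} {k : ℕ} (hk : k ∈ T)
    (h : ∑ i ∈ T, x i = ∑ i ∈ T, y i) (hne : ∀ i ∈ T, i ≠ k → x i = y i) : x k = y k := by
  rw [← Finset.add_sum_erase _ _ hk, ← Finset.add_sum_erase T y hk] at h
  have : ∑ i ∈ T.erase k, x i = ∑ i ∈ T.erase k, y i := by
    apply Finset.sum_congr rfl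
    intro i hi
    rw [Finset.mem_erase] at hi
    exact hne i hi.2 hi.1
  rw [this] at h
  linarith

theorem FM.codim_two (Φ : C.FM) (hn : 2 ≤ n)
    (h : ∀ i, i + 6 ≤ n → (i + 2) % 4 = n % 4 → Equ (C.hX i) (C.hX' i)) :
    Equ (C.hX (n - 2)) (C.hX' (n - 2)) := by
  apply equ_of_dz
  intro S
  apply sum_one (T := lowT n) _ (Φ.sum_low S)
  · intro i hi hne
    simp only [lowT, Finset.mem_filter, Finset.mem_range] at hi
    exact dz_of_equ (h i (by omega) hi.2) S
  · simp only [lowT, Finset.mem_filter, Finset.mem_range]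
    omega

theorem FM.middle (Φ : C.FM)
    (h : ∀ i, i + 4 ≤ n → i % 4 = n % 4 → Equ (C.hX i) (C.hX' i)) :
    Equ (C.hX n) (C.hX' n) := by
  apply equ_of_dz
  intro S
  apply sum_one (T := midT n) _ (Φ.sum_mid S)
  · intro i hi hne
    simp only [midT, Finset.mem_filter, Finset.mem_range] at hi
    rcases lt_or_gt_of_ne hne with hlt | hgt
    · exact dz_of_equ (h i (by omega) hi.2) S
    · rw [dz_symm C.side_e S i (by omega), dz_symm C.side_e' S i (by omega)]
      exact dz_of_equ (h (2 * n - i) (by omega) (by omega)) S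
  · unfold midT
    rw [Finset.mem_filter, Finset.mem_range]
    exact ⟨by omega, rfl⟩

theorem FM.codim_one (Φ : C.FM) (hn : 1 ≤ n)
    (h : ∀ i, i + 3 ≤ n → (i + 1) % 2 = n % 2 → Equ (C.hX i) (C.hX' i)) :
    Equ (C.hX (n - 1)) (C.hX' (n - 1)) := by
  apply equ_of_dz
  intro S
  have hs := Φ.sum_par S (n + 1)
  have m1 : n - 1 ∈ par2 n (n + 1) := by
    unfold par2
    rw [Finset.mem_filter, Finset.mem_range]
    exact ⟨by omega, by omega⟩
  have m2 : n + 1 ∈ (par2 n (n + 1)).erase (n - 1) := by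
    unfold par2
    rw [Finset.mem_erase, Finset.mem_filter, Finset.mem_range]
    exact ⟨by omega, by omega, rfl⟩
  rw [← Finset.add_sum_erase _ _ m1, ← Finset.add_sum_erase _ (dz (1 - C.e) S) m1,
    ← Finset.add_sum_erase _ _ m2, ← Finset.add_sum_erase _ (dz (1 - C.e) S) m2] at hs
  have hrest : ∑ i ∈ ((par2 n (n + 1)).erase (n - 1)).erase (n + 1), dz C.e S i =
      ∑ i ∈ ((par2 n (n + 1)).erase (n - 1)).erase (n + 1), dz (1 - C.e) S i := by
    apply Finset.sum_congr rfl
    intro i hi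
    simp only [par2, Finset.mem_erase, Finset.mem_filter, Finset.mem_range] at hi
    obtain ⟨h1, h2, h3, h4⟩ := hi
    rcases lt_or_ge i n with hlt | hge
    · exact dz_of_equ (h i (by omega) (by omega)) S
    · rw [dz_symm C.side_e S i (by omega), dz_symm C.side_e' S i (by omega)]
      exact dz_of_equ (h (2 * n - i) (by omega) (by omega)) S
  rw [hrest] at hs
  have s1 := dz_symm C.side_e S (n + 1) (by omega)
  have s2 := dz_symm C.side_e' S (n + 1) (by omega)
  rw [show 2 * n - (n + 1) = n - 1 by omega] at s1 s2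
  rw [s1, s2] at hs
  linarith

/-- All degrees from the degrees `i ≤ n - 3`. -/
theorem FM.all (Φ : C.FM) (h : ∀ i, i + 3 ≤ n → Equ (C.hX i) (C.hX' i)) (i : ℕ) :
    Equ (C.hX i) (C.hX' i) := by
  have hlow : ∀ i, i ≤ n → Equ (C.hX i) (C.hX' i) := by
    intro i hi
    by_cases h3 : i + 3 ≤ n
    · exact h i h3
    by_cases h2 : i + 2 = n
    · have := Φ.codim_two (by omega) (fun j hj _ => h j (by omega))
      rwa [show n - 2 = i by omega] at this
    by_cases h1 : i + 1 = n
    · have := Φ.codim_one (by omega) (fun j hj _ => h j (by omega))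
      rwa [show n - 1 = i by omega] at this
    · have := Φ.middle (fun j hj _ => h j (by omega))
      have hin : i = n := by omega
      rw [hin]
      exact this
  by_cases hi : i ≤ n
  · exact hlow i hi
  by_cases hi2 : i ≤ 2 * n
  · apply equ_of_dz
    intro S
    rw [dz_symm C.side_e S i hi2, dz_symm C.side_e' S i hi2]
    exact dz_of_equ (hlow _ (by omega)) S
  · have : C.π i = 0 := C.π_van i (by omega)
    unfold hX hX'
    rw [this, mul_zero, mul_zero]
    exact Equ.refl (zero_mul _)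

end Corr

end Pool.Agent.TH26.Orl
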